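import Pool.Agent.Q183.CN.H

/-!
# The extended distance functions and the covering theorem
-/

set_option autoImplicit false

open MeasureTheory Metric Set Filter Topology InnerProductGeometry

namespace Pool.Agent.Q183.CN

open Pool.Agent.H241R3.FV (Sph Triang coneOf)
open Pool.Agent.W716.FV (E)

variable {n : ℕ} {M : Type} [MetricSpace M]

theorem iInf_sub_le {ι : Type} [Nonempty ι] {f g : ι → ℝ} {t : ℝ} (hf : BddBelow (range f))
    (hg : BddBelow (range g)) (h : ∀ i, |f i - g i| ≤ t) : |(⨅ i, f i) - ⨅ i, g i| ≤ t := by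
  rw [abs_sub_le_iff]
  constructor
  · have h1 : (⨅ i, f i) - t ≤ ⨅ i, g i := by
      refine le_ciInf fun i => ?_
      have h2 := ciInf_le hf i
      have h3 := (abs_sub_le_iff.1 (h i)).1
      linarith
    linarith
  · have h1 : (⨅ i, g i) - t ≤ ⨅ i, f i := by
      refine le_ciInf fun i => ?_
      have h2 := ciInf_le hg i
      have h3 := (abs_sub_le_iff.1 (h i)).2
      linarith
    linarith

theorem arccos_lip {ρ k a b : ℝ} (hk0 : 0 < k) (hk : k ^ 2 + ρ ^ 2 = 1) (hρ0 : 0 ≤ ρ)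
    (ha : |a| ≤ ρ) (hb : |b| ≤ ρ) : |Real.arccos a - Real.arccos b| ≤ k⁻¹ * |a - b| := by
  have hρ1 : ρ < 1 := by nlinarith
  have hx : ∀ ξ ∈ uIcc b a, |ξ| ≤ ρ := fun ξ hξ => abs_seg0 hξ hb ha
  refine seg_est (g := Real.arccos) (g' := fun x => -(1 / √(1 - x ^ 2))) (fun ξ hξ => ?_)
    (fun ξ hξ => ?_)
  · have h1 := abs_le.1 (hx ξ hξ)
    exact Real.hasDerivAt_arccos (by linarith [h1.1]) (by linarith [h1.2])
  · have h1 := hx ξ hξ
    have h2 : k ≤ √(1 - ξ ^ 2) := by
      rw [← Real.sqrt_sq hk0.le]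
      apply Real.sqrt_le_sqrt
      have h3 : ξ ^ 2 ≤ ρ ^ 2 := by
        rw [← sq_abs]
        exact pow_le_pow_left₀ (abs_nonneg _) h1 2
      linarith
    rw [abs_neg, abs_of_nonneg (by positivity), one_div]
    exact inv_anti₀ hk0 h2

theorem inner_le_one {x p : E n} (hx : ‖x‖ = 1) (hp : ‖p‖ = 1) : |(inner ℝ x p : ℝ)| ≤ 1 := by
  have := abs_real_inner_le_norm x p
  rwa [hx, hp, one_mul] at this

theorem sph_norm (x : Sph n) : ‖(x : E n)‖ = 1 := mem_sphere_zero_iff_norm.1 x.2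

/-- the triangle inequality on the sphere of dimension `n` -/
theorem tri {ρ k : ℝ} (hk : k ^ 2 + ρ ^ 2 = 1) (x p p' : Sph n) :
    |Real.arccos (ρ * inner ℝ (x : E n) (p : E n)) - Real.arccos (ρ * inner ℝ (x : E n) p')| ≤
      Real.arccos (k ^ 2 + ρ ^ 2 * inner ℝ (p : E n) p') := by
  let X : WithLp 2 (E n × ℝ) := WithLp.toLp 2 ((x : E n), (0 : ℝ))
  let P : Sph n → WithLp 2 (E n × ℝ) := fun p => WithLp.toLp 2 (ρ • (p : E n), k)
  have hXP : ∀ p, (inner ℝ X (P p) : ℝ) = ρ * inner ℝ (x : E n) (p : E n) := by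
    intro p
    simp only [X, P, WithLp.prod_inner_apply, inner_smul_right, inner_zero_left, add_zero]
  have hPP : ∀ p p', (inner ℝ (P p) (P p') : ℝ) = k ^ 2 + ρ ^ 2 * inner ℝ (p : E n) p' := by
    intro p p'
    simp only [P, WithLp.prod_inner_apply, inner_smul_right, inner_smul_left, conj_trivial]
    have : (inner ℝ k k : ℝ) = k ^ 2 := by
      rw [real_inner_self_eq_norm_sq, Real.norm_eq_abs, sq_abs]
    rw [this]
    ring
  have hXX : ‖X‖ = 1 := by
    have h1 : ‖X‖ ^ 2 = 1 := by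
      rw [← real_inner_self_eq_norm_sq]
      simp only [X, WithLp.prod_inner_apply, inner_zero_left, add_zero]
      rw [real_inner_self_eq_norm_sq, sph_norm]
      norm_num
    have h2 := norm_nonneg X
    nlinarith
  have hP1 : ∀ p, ‖P p‖ = 1 := by
    intro p
    have h1 : ‖P p‖ ^ 2 = 1 := by
      rw [← real_inner_self_eq_norm_sq, hPP, real_inner_self_eq_norm_sq, sph_norm]
      linarith
    have h2 := norm_nonneg (P p)
    nlinarith
  have a1 : ∀ p, angle X (P p) = Real.arccos (ρ * inner ℝ (x : E n) (p : E n)) := by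
    intro p
    unfold angle
    rw [hXP, hXX, hP1]
    norm_num
  have a2 : angle (P p) (P p') = Real.arccos (k ^ 2 + ρ ^ 2 * inner ℝ (p : E n) p') := by
    unfold angle
    rw [hPP, hP1, hP1]
    norm_num
  have h1 := angle_le_angle_add_angle X (P p) (P p')
  have h2 := angle_le_angle_add_angle X (P p') (P p)
  rw [angle_comm (P p') (P p)] at h2
  rw [a1, a1, a2] at h1 h2
  rw [abs_sub_le_iff]
  constructor <;> linarith

/-- the extension of the distance functions of the points of the equator -/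
noncomputable def ei (ρ : ℝ) (bd : Sph n → M) (x : Sph n) (q : M) : ℝ :=
  ⨅ p : Sph n, (Real.arccos (ρ * inner ℝ (x : E n) (p : E n)) + dist q (bd p))

/-- the truncation -/
noncomputable def ek (ρ : ℝ) (bd : Sph n → M) (x : Sph n) (q : M) : ℝ :=
  max (Real.arccos ρ) (min (Real.pi - Real.arccos ρ) (ei ρ bd x q))

theorem ei_bdd (ρ : ℝ) (bd : Sph n → M) (x : Sph n) (q : M) : BddBelow (range fun p : Sph n =>
    (Real.arccos (ρ * inner ℝ (x : E n) (p : E n)) + dist q (bd p))) := by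
  refine ⟨0, ?_⟩
  rintro _ ⟨p, rfl⟩
  exact add_nonneg (Real.arccos_nonneg _) dist_nonneg

theorem ek_le (ρ : ℝ) (bd : Sph n → M) (x x' : Sph n) (q q' : M) :
    |ek ρ bd x q - ek ρ bd x' q'| ≤ |ei ρ bd x q - ei ρ bd x' q'| := by
  unfold ek
  refine (abs_max_sub_max_le_max _ _ _ _).trans ?_
  rw [sub_self, abs_zero]
  refine max_le (abs_nonneg _) ?_
  refine (abs_min_sub_min_le_max _ _ _ _).trans ?_
  rw [sub_self, abs_zero]
  exact max_le (abs_nonneg _) le_rfl

theorem ek_dk (hn : 0 < n) {ρ k : ℝ} (hρ0 : 0 < ρ) (hk0 : 0 < k) (hk : k ^ 2 + ρ ^ 2 = 1)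
    {bd : Sph n → M} (hns : ∀ v w : Sph n,
      Real.arccos (k ^ 2 + ρ ^ 2 * inner ℝ (v : E n) (w : E n)) ≤ dist (bd v) (bd w)) :
    Dk (ρ + ρ / k) ρ bd (ek ρ bd) := by
  have hne := Pool.Agent.H241R3.FV.TExt.sph_nonempty hn
  have hρ1 : ρ ≤ 1 := by nlinarith
  have hin : ∀ x p : Sph n, |ρ * (inner ℝ (x : E n) (p : E n) : ℝ)| ≤ ρ := by
    intro x p
    rw [abs_mul, abs_of_pos hρ0]
    have := inner_le_one (sph_norm x) (sph_norm p)
    nlinarith
  refine ⟨fun x q q' => ?_, fun x x' q => ?_, fun x p => ?_, fun x q => ?_⟩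
  · refine (ek_le _ _ _ _ _ _).trans ?_
    refine iInf_sub_le (ei_bdd _ _ _ _) (ei_bdd _ _ _ _) fun p => ?_
    have h1 : Real.arccos (ρ * inner ℝ (x : E n) (p : E n)) + dist q (bd p) -
        (Real.arccos (ρ * inner ℝ (x : E n) (p : E n)) + dist q' (bd p)) =
        dist q (bd p) - dist q' (bd p) := by ring
    rw [h1]
    exact abs_dist_sub_le _ _ _
  · refine (abs_cos_sub _ _).trans ((ek_le _ _ _ _ _ _).trans ?_)
    refine iInf_sub_le (ei_bdd _ _ _ _) (ei_bdd _ _ _ _) fun p => ?_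
    have h1 : Real.arccos (ρ * inner ℝ (x : E n) (p : E n)) + dist q (bd p) -
        (Real.arccos (ρ * inner ℝ (x' : E n) (p : E n)) + dist q (bd p)) =
        Real.arccos (ρ * inner ℝ (x : E n) (p : E n)) -
        Real.arccos (ρ * inner ℝ (x' : E n) (p : E n)) := by ring
    rw [h1]
    refine (arccos_lip hk0 hk hρ0.le (hin _ _) (hin _ _)).trans ?_
    have h2 : |ρ * (inner ℝ (x : E n) (p : E n) : ℝ) - ρ * inner ℝ (x' : E n) (p : E n)| ≤
        ρ * ‖(x : E n) - x'‖ := by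
      rw [← mul_sub, ← inner_sub_left, abs_mul, abs_of_pos hρ0]
      have := abs_real_inner_le_norm ((x : E n) - x') (p : E n)
      rw [sph_norm, mul_one] at this
      exact mul_le_mul_of_nonneg_left this hρ0.le
    calc k⁻¹ * |ρ * (inner ℝ (x : E n) (p : E n) : ℝ) - ρ * inner ℝ (x' : E n) (p : E n)| ≤
        k⁻¹ * (ρ * ‖(x : E n) - x'‖) := mul_le_mul_of_nonneg_left h2 (by positivity)
      _ = (ρ + ρ / k - ρ) * ‖(x : E n) - x'‖ := by
        field_simp
        ring
  · have h1 : ei ρ bd x (bd p) = Real.arccos (ρ * inner ℝ (x : E n) (p : E n)) := by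
      unfold ei
      apply le_antisymm
      · refine (ciInf_le (ei_bdd ρ bd x (bd p)) p).trans ?_
        rw [dist_self, add_zero]
      · refine le_ciInf fun p' => ?_
        have h2 := (abs_sub_le_iff.1 (tri hk x p p')).1
        have h3 := hns p p'
        linarith
    have h2 := abs_le.1 (hin x p)
    unfold ek
    rw [h1, min_eq_right, max_eq_right, Real.cos_arccos]
    · linarith [h2.1]
    · linarith [h2.2]
    · exact Real.arccos_le_arccos h2.2
    · rw [← Real.arccos_neg]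
      exact Real.arccos_le_arccos h2.1
  · have h1 : Real.arccos ρ ≤ ek ρ bd x q := le_max_left _ _
    have h0 : Real.arccos ρ ≤ Real.pi - Real.arccos ρ := by
      have := Real.arccos_le_pi_div_two.2 hρ0.le
      linarith
    have h2 : ek ρ bd x q ≤ Real.pi - Real.arccos ρ := max_le h0 (min_le_left _ _)
    have h3 := Real.arccos_nonneg ρ
    rw [abs_le]
    constructor
    · have h4 := Real.cos_le_cos_of_nonneg_of_le_pi (h3.trans h1)
        (show Real.pi - Real.arccos ρ ≤ Real.pi by linarith) h2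
      rw [Real.cos_pi_sub, Real.cos_arccos (by linarith) hρ1] at h4
      exact h4
    · have h4 := Real.cos_le_cos_of_nonneg_of_le_pi h3
        (show ek ρ bd x q ≤ Real.pi by linarith) h1
      rw [Real.cos_arccos (by linarith) hρ1] at h4
      exact h4

/-- the distance of two points of the boundary of the ball is at least a multiple of the angle -/
theorem angle_le_cap {ρ k : ℝ} (hρ0 : 0 < ρ) (hk : k ^ 2 + ρ ^ 2 = 1) (v w : Sph n) :
    2 * ρ / Real.pi * angle (v : E n) (w : E n) ≤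
      Real.arccos (k ^ 2 + ρ ^ 2 * inner ℝ (v : E n) (w : E n)) := by
  set θ := angle (v : E n) (w : E n) with hθ
  have hθ0 : 0 ≤ θ := angle_nonneg _ _
  have hθ1 : θ ≤ Real.pi := angle_le_pi _ _
  have hpi := Real.pi_pos
  have hin : (inner ℝ (v : E n) (w : E n) : ℝ) = Real.cos θ := by
    have := cos_angle_mul_norm_mul_norm (v : E n) (w : E n)
    rw [sph_norm, sph_norm, mul_one, mul_one] at this
    exact this.symm
  rw [hin]
  set a := Real.arccos (k ^ 2 + ρ ^ 2 * Real.cos θ) with ha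
  have ha0 : 0 ≤ a := Real.arccos_nonneg _
  have hc1 : -1 ≤ k ^ 2 + ρ ^ 2 * Real.cos θ := by
    nlinarith [Real.neg_one_le_cos θ, sq_nonneg k, sq_nonneg ρ]
  have hc2 : k ^ 2 + ρ ^ 2 * Real.cos θ ≤ 1 := by
    nlinarith [Real.cos_le_one θ, sq_nonneg k, sq_nonneg ρ]
  have h1 : Real.cos a = k ^ 2 + ρ ^ 2 * Real.cos θ := Real.cos_arccos hc1 hc2
  have h2 := Real.one_sub_sq_div_two_le_cos (x := a)
  have h3 : 2 / Real.pi * (θ / 2) ≤ Real.sin (θ / 2) :=
    Real.mul_le_sin (by linarith) (by linarith)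
  have h4 : Real.cos θ = 1 - 2 * Real.sin (θ / 2) ^ 2 := by
    have h5 := Real.cos_two_mul (θ / 2)
    have h6 := Real.sin_sq_add_cos_sq (θ / 2)
    have h7 : 2 * (θ / 2) = θ := by ring
    rw [h7] at h5
    linarith
  have h5 : (2 / Real.pi * (θ / 2)) ^ 2 ≤ Real.sin (θ / 2) ^ 2 :=
    pow_le_pow_left₀ (by positivity) h3 2
  have h6 : (2 * ρ / Real.pi * θ) ^ 2 ≤ a ^ 2 := by
    have h7 : (2 * ρ / Real.pi * θ) ^ 2 = 4 * ρ ^ 2 * (2 / Real.pi * (θ / 2)) ^ 2 := by ring
    rw [h7]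
    have h8 := mul_le_mul_of_nonneg_left h5 (show 0 ≤ 4 * ρ ^ 2 by positivity)
    rw [h1, h4] at h2
    nlinarith
  exact (pow_le_pow_iff_left₀ (by positivity) ha0 two_ne_zero).1 h6

end Pool.Agent.Q183.CN
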