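import Pool.Agent.Q183.CN.I
import Pool.Agent.Q53.FC.CC

/-!
# The covering theorem and the lower bound for the volume by the weighted volume of a ball
-/

set_option autoImplicit false

open MeasureTheory Metric Set Filter Topology InnerProductGeometry

namespace Pool.Agent.Q183.CN

open Pool.Agent.H241R3.FV (Sph Triang coneOf Fill RChart)
open Pool.Agent.H241R3.FV.TCoverT (hull_sub_cone cone_sub_hull)
open Pool.Agent.W716.FV (E gam gd)
open Pool.Agent.Q188.FC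
open Pool.Agent.Q53.FC.CC (mv_lin NI_smul NI_sub norm_NI)
open Pool.Agent.Q183.CF (FE)

/-- Covering for triangulated spaces whose boundary distances are at least a multiple of the
angles.  Copied from `Pool.Agent.H241R3.FV.TCoverT` (helper853), where the multiple is `1`. -/
theorem coverT {d : ℕ} {M : Type} [MetricSpace M] [CompactSpace M] {bd : Sph (d + 1) → M} {c : ℝ}
    (hc0 : 0 < c) (hc1 : c ≤ 1)
    (hbd : ∀ x y : Sph (d + 1), c * angle (x : E (d + 1)) (y : E (d + 1)) ≤ dist (bd x) (bd y))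
    (hTr : ∀ ε : ℝ, 0 < ε → Nonempty (Triang bd ε)) {Φ : M → E (d + 1)} {l K : ℝ} (hl : 0 < l)
    (hΦ : Continuous Φ) (hK : ∀ q q', ‖Φ q - Φ q'‖ ≤ dist q q' * K)
    (hΦbd : ∀ x, Φ (bd x) = l • (x : E (d + 1))) : ball (0 : E (d + 1)) l ⊆ range Φ := by
  intro y0 hy0
  classical
  by_contra hcon
  have hcl : IsClosed (range Φ) := (isCompact_range hΦ).isClosed
  obtain ⟨η, hη, hball⟩ := Metric.isOpen_iff.mp hcl.isOpen_compl y0 hcon
  rw [mem_ball_zero_iff] at hy0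
  -- choose the mesh
  obtain ⟨e, he0, he2, heK, hel⟩ : ∃ e : ℝ, 0 < e ∧ e < Real.pi / 2 ∧ e * |K| < η / 2 ∧
      ‖y0‖ < l * Real.cos e := by
    have h1 : Tendsto (fun e : ℝ => e * |K|) (𝓝[>] 0) (𝓝 (0 * |K|)) :=
      (tendsto_id.mul_const _).mono_left nhdsWithin_le_nhds
    have h2 : Tendsto (fun e : ℝ => l * Real.cos e) (𝓝[>] 0) (𝓝 (l * Real.cos 0)) :=
      ((Real.continuous_cos.tendsto 0).const_mul _).mono_left nhdsWithin_le_nhds
    rw [zero_mul] at h1
    rw [Real.cos_zero, mul_one] at h2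
    have h3 : ∀ᶠ e : ℝ in 𝓝[>] 0, e < Real.pi / 2 :=
      nhdsWithin_le_nhds (eventually_lt_nhds (by positivity))
    have h4 : ∀ᶠ e : ℝ in 𝓝[>] 0, 0 < e := eventually_mem_nhdsWithin
    obtain ⟨e, ha, hb, hc, hd⟩ := (((h1.eventually_lt_const (half_pos hη)).and
      ((h2.eventually_const_lt hy0).and (h3.and h4))).exists)
    exact ⟨e, hd, hc, ha, hb⟩
  obtain ⟨Tr⟩ := hTr (c * e) (by positivity)
  have := Tr.fin
  have := Tr.dec
  set g : Tr.V → E (d + 1) := Φ ∘ Tr.pos with hg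
  -- the generic point
  have hgen : ∀ᵐ y ∂(volume : Measure (E (d + 1))), ∀ s : Finset (Option Tr.V), s.card ≤ d + 1 →
      y ∉ convexHull ℝ ((fun o : Option Tr.V => o.elim 0 g) '' (s : Set (Option Tr.V))) := by
    rw [ae_all_iff]
    intro s
    by_cases hs : s.card ≤ d + 1
    · have h0 := Pool.Agent.H241R3.FV.TGen.taskGen (d + 1)
        (s.image (fun o : Option Tr.V => o.elim 0 g)) (Finset.card_image_le.trans hs)
      rw [Finset.coe_image] at h0
      filter_upwards [measure_eq_zero_iff_ae_notMem.mp h0] with y hy _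
      exact hy
    · exact Eventually.of_forall fun y h => absurd h hs
  obtain ⟨y, hy1, hy2, hygen, hytile⟩ : ∃ y : E (d + 1), dist y y0 < η / 2 ∧
      ‖y‖ < l * Real.cos e ∧
      (∀ s : Finset (Option Tr.V), s.card ≤ d + 1 →
        y ∉ convexHull ℝ ((fun o : Option Tr.V => o.elim 0 g) '' (s : Set (Option Tr.V)))) ∧
      ∃! F, F ∈ Tr.B ∧ y ∈ coneOf Tr.b F := by
    have hO : IsOpen (ball y0 (η / 2) ∩ ball (0 : E (d + 1)) (l * Real.cos e)) :=
      isOpen_ball.inter isOpen_ball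
    have hpos := hO.measure_pos volume ⟨y0, mem_ball_self (half_pos hη),
      by rw [mem_ball_zero_iff]; exact hel⟩
    have hfr := (frequently_ae_mem_iff.mpr hpos.ne').and_eventually (hgen.and Tr.tile)
    obtain ⟨y, ⟨ha, hb⟩, hc, hd⟩ := hfr.exists
    rw [mem_ball_zero_iff] at hb
    exact ⟨y, ha, hb, hc, hd⟩
  -- boundary faces
  have hgB : ∀ F ∈ Tr.B, ∀ v ∈ F, g v = l • (Tr.b v : E (d + 1)) := by
    intro F hF v hv
    rw [hg, Function.comp_apply, ← Tr.b_spec F hF v hv, hΦbd]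
  have hangB : ∀ F ∈ Tr.B, ∀ v ∈ F, ∀ w ∈ F,
      angle (Tr.b v : E (d + 1)) (Tr.b w : E (d + 1)) ≤ e := by
    intro F hF v hv w hw
    obtain ⟨-, σ, hσ, hFσ⟩ := Tr.B_sub F hF
    have h1 := hbd (Tr.b v) (Tr.b w)
    rw [Tr.b_spec F hF v hv, Tr.b_spec F hF w hw] at h1
    have h2 := (Tr.mesh σ hσ v (hFσ hv) w (hFσ hw)).le
    exact le_of_mul_le_mul_left (h1.trans h2) hc0
  obtain ⟨F0, ⟨hF0B, hF0y⟩, hF0u⟩ := hytile
  have hcount : {F | F ∈ Tr.B ∧ y ∈ convexHull ℝ (insert 0 (g '' (F : Set Tr.V)))} = {F0} := by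
    ext F
    simp only [Set.mem_setOf_eq, Set.mem_singleton_iff]
    constructor
    · rintro ⟨hF, hy⟩
      exact hF0u F ⟨hF, hull_sub_cone Tr.b F g hl.le (hgB F hF) hy⟩
    · rintro rfl
      refine ⟨hF0B, cone_sub_hull Tr.b F g hl (hgB F hF0B) ?_ he0 he2 (hangB F hF0B) hF0y hy2⟩
      rw [← Finset.card_pos, (Tr.B_sub F hF0B).1]
      omega
  have hpar := Pool.Agent.H241R3.FV.TParity.taskParity Pool.Agent.H241R3.FV.TEven.taskEven
    d M bd (c * e) Tr g y hygen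
  rw [hcount, Set.ncard_singleton, Nat.cast_one] at hpar
  have hne : {σ | σ ∈ Tr.T ∧ y ∈ convexHull ℝ (g '' (σ : Set Tr.V))}.Nonempty := by
    rw [Set.nonempty_iff_ne_empty]
    intro h
    rw [h, Set.ncard_empty, Nat.cast_zero] at hpar
    exact zero_ne_one hpar
  obtain ⟨σ, hσ, hyσ⟩ := hne
  obtain ⟨v, hv⟩ : σ.Nonempty := by
    rw [← Finset.card_pos, Tr.card_T σ hσ]
    omega
  have hsub : convexHull ℝ (g '' (σ : Set Tr.V)) ⊆ closedBall (g v) (e * |K|) := by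
    refine convexHull_min ?_ (convex_closedBall _ _)
    rintro _ ⟨w, hw, rfl⟩
    rw [mem_closedBall, dist_eq_norm]
    refine (hK _ _).trans ?_
    have h3 : dist (Tr.pos w) (Tr.pos v) ≤ e := by
      have h4 := (Tr.mesh σ hσ w hw v hv).le
      nlinarith
    calc dist (Tr.pos w) (Tr.pos v) * K ≤ dist (Tr.pos w) (Tr.pos v) * |K| :=
          mul_le_mul_of_nonneg_left (le_abs_self K) dist_nonneg
      _ ≤ e * |K| := mul_le_mul_of_nonneg_right h3 (abs_nonneg K)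
  have h1 := hsub hyσ
  rw [mem_closedBall] at h1
  have h2 : g v ∈ ball y0 η := by
    rw [mem_ball]
    calc dist (g v) y0 ≤ dist (g v) y + dist y y0 := dist_triangle _ _ _
      _ < η := by rw [dist_comm (g v) y]; linarith
  exact hball h2 ⟨Tr.pos v, rfl⟩

variable {n : ℕ}

/-- the field of a linear function -/
theorem HH_lin {ρ : ℝ} (hρ0 : 0 ≤ ρ) (hρ : ρ < 1) {p : E n} (hp : ‖p‖ ≤ ρ) {b : E n}
    (hb : ‖b‖ ≤ 1) : HH p (fun y => (inner ℝ b y : ℝ)) =
      (lf p * kn n) • NN p (NN p (b - p)) := by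
  have hp1 : ‖p‖ < 1 := lt_of_le_of_lt hp hρ
  obtain ⟨b1, b2, -, -, b5, b6, b7, -⟩ := bst hp1
  have hbd : Bd (fun y : E n => (inner ℝ b y : ℝ)) := by
    refine ⟨cont_inner b, fun y => ?_⟩
    refine (abs_real_inner_le_norm b y).trans ?_
    have := mul_le_mul_of_nonneg_right hb (norm_nonneg y)
    rwa [one_mul] at this
  rw [(HH_hat hρ0 hρ hp hbd).2]
  have h1 : sh p (fun y : E n => (inner ℝ b y : ℝ)) = fun z => (inner ℝ z (NN p (b - p)) : ℝ) := by
    funext z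
    unfold sh
    rw [← b6, inner_sub_right, real_inner_comm b, real_inner_comm p, b7]
  rw [h1, mv_lin]

theorem HH_lin_ne {ρ : ℝ} (hρ0 : 0 ≤ ρ) (hρ : ρ < 1) {p : E n} (hp : ‖p‖ ≤ ρ) {b : E n}
    (hb : ‖b‖ ≤ 1) (hne : b ≠ p) : HH p (fun y => (inner ℝ b y : ℝ)) ≠ 0 := by
  rw [HH_lin hρ0 hρ hp hb]
  have hp1 : ‖p‖ < 1 := lt_of_le_of_lt hp hρ
  have h1 := (bst hp1).1
  have h2 := kn_pos n
  intro h
  have h3 := (smul_eq_zero.1 h).resolve_left (by positivity)
  exact hne (sub_eq_zero.1 (NN_inj hp1 (NN_inj hp1 h3)))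

theorem cover {d : ℕ} {κ ρ : ℝ} (h : Par (d + 1) κ ρ) (hκ : ρ ≤ κ) {M : Type} [MetricSpace M]
    {S : Fill d M} {e : Sph (d + 1) → M → ℝ} (he : Dk κ ρ S.bd e)
    (hns : ∀ v w : Sph (d + 1), 2 * ρ / Real.pi * angle (v : E (d + 1)) (w : E (d + 1)) ≤
      dist (S.bd v) (S.bd w))
    (hT : (CompactSpace M ∧ S.Triangulated) ∨ S.NoRetraction) {p : E (d + 1)} (hp : ‖p‖ < ρ) :
    ∃ q, HH p (FE e q) = 0 := by
  have hp1 : ‖p‖ < 1 := hp.trans h.r1
  obtain ⟨b1, -, -, -, -, -, -, b9, b10⟩ := bst hp1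
  have hl0 : 0 < lf p := by linarith
  have hk := kn_pos (d + 1)
  obtain ⟨K, hK, hKl⟩ := HH_lip (n := d + 1) h.r0.le h.r1
  have hC : ∀ q, Ck κ ρ (FE e q) := fun q => FE_Ck h.r0.le hκ he q
  set m : M → E (d + 1) := fun q => (lf p * kn (d + 1))⁻¹ • NI p (NI p (HH p (FE e q))) + p with hm
  have hlip : ∀ q q', ‖m q - m q'‖ ≤ dist q q' * ((lf p * kn (d + 1))⁻¹ * (2 * (2 * K))) := by
    intro q q'
    have e1 : ‖HH p (FE e q) - HH p (FE e q')‖ ≤ K * dist q q' :=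
      hKl p _ _ (dist q q') hp.le (ck_bd h.r1.le (hC q)) (ck_bd h.r1.le (hC q')) dist_nonneg
        (FE_q he q q')
    have e2 : m q - m q' = (lf p * kn (d + 1))⁻¹ •
        NI p (NI p (HH p (FE e q) - HH p (FE e q'))) := by
      rw [hm]
      simp only
      rw [NI_sub, NI_sub, smul_sub]
      abel
    rw [e2, norm_smul, Real.norm_eq_abs, abs_of_pos (by positivity)]
    have e3 := norm_NI p (NI p (HH p (FE e q) - HH p (FE e q'))) hp1.le b1
    have e4 := norm_NI p (HH p (FE e q) - HH p (FE e q')) hp1.le b1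
    calc (lf p * kn (d + 1))⁻¹ * ‖NI p (NI p (HH p (FE e q) - HH p (FE e q')))‖ ≤
        (lf p * kn (d + 1))⁻¹ * (2 * (2 * (K * dist q q'))) := by
          refine mul_le_mul_of_nonneg_left ?_ (by positivity)
          linarith
      _ = _ := by ring
  have hcont : Continuous m := by
    have hL : LipschitzWith (Real.toNNReal ((lf p * kn (d + 1))⁻¹ * (2 * (2 * K)))) m := by
      refine LipschitzWith.of_dist_le_mul fun q q' => ?_
      rw [dist_eq_norm, Real.coe_toNNReal _ (by positivity), mul_comm]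
      exact hlip q q'
    exact hL.continuous
  have hbdry : ∀ x, m (S.bd x) = ρ • (x : E (d + 1)) := by
    intro x
    have e1 : FE e (S.bd x) = fun y => (inner ℝ (ρ • (x : E (d + 1))) y : ℝ) :=
      funext fun y => FE_bd he x y
    have e2 : ‖ρ • (x : E (d + 1))‖ ≤ 1 := by
      rw [norm_smul, sph_norm, mul_one, Real.norm_of_nonneg h.r0.le]
      exact h.r1.le
    rw [hm]
    simp only
    rw [e1, HH_lin h.r0.le h.r1 hp.le e2, NI_smul, b9, NI_smul, b9, smul_smul,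
      inv_mul_cancel₀ (by positivity), one_smul]
    abel
  have hpi : ρ ≤ Real.pi / 2 := by
    have := Real.pi_gt_three
    have := h.r1
    linarith
  have hsub : ball (0 : E (d + 1)) ρ ⊆ range m := by
    rcases hT with ⟨hT1, hT⟩ | hT
    · refine coverT (c := 2 * ρ / Real.pi) ?_ ?_ hns hT h.r0 hcont hlip hbdry
      · have := h.r0
        have := Real.pi_pos
        positivity
      · rw [div_le_one Real.pi_pos]
        linarith
    · exact Pool.Agent.H241R3.FV.TCover.taskCover (d + 1) (Nat.succ_pos d) M S.bd hT m ρ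
        h.r0 hcont hbdry
  obtain ⟨q, hq⟩ := hsub (mem_ball_zero_iff.2 hp)
  refine ⟨q, ?_⟩
  have h6 : (lf p * kn (d + 1))⁻¹ • NI p (NI p (HH p (FE e q))) = 0 := by
    have h7 : (lf p * kn (d + 1))⁻¹ • NI p (NI p (HH p (FE e q))) + p = p := hq
    simpa using h7
  have h7 := (smul_eq_zero.1 h6).resolve_left (by positivity)
  have h8 : NN p 0 = 0 := by
    unfold NN
    simp
  have h9 : NI p (HH p (FE e q)) = 0 := by
    rw [← b10 (NI p (HH p (FE e q))), h7, h8]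
  rw [← b10 (HH p (FE e q)), h9, h8]

/-- the lower bound for the volume -/
theorem main_lf {d : ℕ} {κ ρ : ℝ} (h : Par (d + 1) κ ρ) (hκ : ρ ≤ κ) {M : Type} [MetricSpace M]
    (S : Fill d M) {e : Sph (d + 1) → M → ℝ} (he : Dk κ ρ S.bd e)
    (hns : ∀ v w : Sph (d + 1), 2 * ρ / Real.pi * angle (v : E (d + 1)) (w : E (d + 1)) ≤
      dist (S.bd v) (S.bd w))
    (hT : (CompactSpace M ∧ S.Triangulated) ∨ S.NoRetraction) :
    ∫⁻ p in ball (0 : E (d + 1)) ρ, ENNReal.ofReal (lf p) ≤ S.vol := by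
  classical
  have := S.countable
  have hκ1 : κ ≤ 1 := by
    have := h.kr
    have := h.r0
    linarith
  -- the centres in the charts
  set φ : S.ι → E (d + 1) → E (d + 1) → ℝ := fun i c => FE e ((S.chart i).map c) with hφ
  set s : S.ι → Set (E (d + 1)) := fun i =>
    {c | c ∈ (S.chart i).D ∧ ∃ p : E (d + 1), ‖p‖ < ρ ∧ HH p (φ i c) = 0} with hs
  set f : S.ι → E (d + 1) → E (d + 1) := fun i c =>
    if h : ∃ p : E (d + 1), ‖p‖ < ρ ∧ HH p (φ i c) = 0 then h.choose else 0 with hf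
  have hfs : ∀ i, ∀ c ∈ s i, ‖f i c‖ < ρ ∧ HH (f i c) (φ i c) = 0 := by
    intro i c hc
    have h := hc.2
    rw [hf]
    simp only
    rw [dif_pos h]
    exact h.choose_spec
  have huniq : ∀ ψ : E (d + 1) → ℝ, Ck κ ρ ψ → ∀ p p' : E (d + 1), ‖p‖ < ρ → ‖p'‖ < ρ →
      HH p ψ = 0 → HH p' ψ = 0 → p = p' := by
    intro ψ hψ p p' hp hp' h0 h0'
    obtain ⟨K, hK, hz⟩ := zero_lip h
    have h9 := hz p p' ψ ψ 0 hp hp' hψ hψ le_rfl (fun y => by simp) h0 h0'
    rw [mul_zero] at h9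
    have h10 : ‖p - p'‖ = 0 := le_antisymm h9 (norm_nonneg _)
    exact sub_eq_zero.1 (norm_eq_zero.1 h10)
  have hcov : ball (0 : E (d + 1)) ρ ⊆ ⋃ i, f i '' s i := by
    intro p hp
    rw [mem_ball_zero_iff] at hp
    obtain ⟨q, hq⟩ := cover h hκ he hns hT hp
    rcases S.cover q with ⟨x, rfl⟩ | ⟨i, c, hc, rfl⟩
    · exfalso
      have e1 : FE e (S.bd x) = fun y => (inner ℝ (ρ • (x : E (d + 1))) y : ℝ) :=
        funext fun y => FE_bd he x y
      have e3 : ‖ρ • (x : E (d + 1))‖ = ρ := by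
        rw [norm_smul, sph_norm, mul_one, Real.norm_of_nonneg h.r0.le]
      rw [e1] at hq
      refine HH_lin_ne h.r0.le h.r1 hp.le (e3.le.trans h.r1.le) ?_ hq
      intro h0
      rw [← h0, e3] at hp
      exact lt_irrefl _ hp
    · have hcs : c ∈ s i := ⟨hc, p, hp, hq⟩
      obtain ⟨g1, g2⟩ := hfs i c hcs
      refine mem_iUnion.2 ⟨i, c, hcs, ?_⟩
      exact huniq _ (FE_Ck h.r0.le hκ he _) _ _ g1 hp g2 hq
  have hchart : ∀ i, ∫⁻ p in f i '' s i, ENNReal.ofReal (lf p) ≤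
      ∫⁻ c in (S.chart i).D, ENNReal.ofReal √((S.chart i).G c).det := by
    intro i
    obtain ⟨q1, q2⟩ := FE_chart h.r0.le hκ hκ1 he (S.chart i)
    exact chart_area h q1 (S.chart i).pos_G q2 (S.chart i).meas_D (S.chart i).D_sub rfl (hfs i)
  calc ∫⁻ p in ball (0 : E (d + 1)) ρ, ENNReal.ofReal (lf p)
      ≤ ∫⁻ p in ⋃ i, f i '' s i, ENNReal.ofReal (lf p) := lintegral_mono_set hcov
    _ ≤ ∑' i, ∫⁻ p in f i '' s i, ENNReal.ofReal (lf p) := lintegral_iUnion_le _ _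
    _ ≤ ∑' i, ∫⁻ c in (S.chart i).D, ENNReal.ofReal √((S.chart i).G c).det :=
        ENNReal.tsum_le_tsum hchart
    _ = S.vol := rfl

end Pool.Agent.Q183.CN
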