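import Pool.Agent.Q183.CN.K

/-!
# Fillings which are round outside a ball, in all dimensions

The geometric part is the argument of `Pool.Agent.Q183.CAP.I`, in all dimensions.
-/

set_option autoImplicit false

open Real MeasureTheory Set Filter Topology InnerProductGeometry

namespace Pool.Agent.Q183.CN

open Pool.Agent.H241R3.FV (Sph Fill sig om)
open Pool.Agent.W716.FV (E)

/-- the points of the closed hemisphere with pole `n` outside the open ball of radius `R` about
`c` -/
def Outside {N : ℕ} (n c : E N) (R : ℝ) : Set (E N) :=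
  {x | ‖x‖ = 1 ∧ 0 ≤ inner ℝ x n ∧ R ≤ angle x c}

/-- the great circle segment from `x` to `y` does not meet the open ball of radius `R` about `c` -/
def Free {N : ℕ} (c : E N) (R : ℝ) (x y : E N) : Prop :=
  ∀ a b : ℝ, 0 ≤ a → 0 ≤ b → a • x + b • y ≠ 0 → R ≤ angle (a • x + b • y) c

/-- the boundary sphere of the ball of radius `R` about `c`; `J` is a linear isometry onto the
orthogonal complement of `c` -/
noncomputable def bp {d : ℕ} (R : ℝ) (c : E (d + 2)) (J : E (d + 1) →ₗᵢ[ℝ] E (d + 2))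
    (v : E (d + 1)) : E (d + 2) := cos R • c + sin R • J v

section

variable {N : ℕ} {c : E N} {R : ℝ}

/-- Points of the plane of two points of the boundary sphere, on the other side. -/
theorem angle_ge_of_comb (hc : ‖c‖ = 1) (hR0 : 0 ≤ R) (hR1 : R ≤ π / 2) {p q : E N} (hp : ‖p‖ = 1)
    (hq : ‖q‖ = 1) (hpc : inner ℝ p c = cos R) (hqc : inner ℝ q c = cos R) {A B : ℝ} (hA : 0 ≤ A)
    (hB : 0 ≤ B) (hne : A • p - B • q ≠ 0) : R ≤ angle (A • p - B • q) c := by
  have h1 : |A - B| ≤ ‖A • p - B • q‖ := by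
    have := abs_norm_sub_norm_le (A • p) (B • q)
    rw [norm_smul, norm_smul, hp, hq, mul_one, mul_one, Real.norm_of_nonneg hA,
      Real.norm_of_nonneg hB] at this
    exact this
  have h2 : inner ℝ (A • p - B • q) c = (A - B) * cos R := by
    rw [inner_sub_left, real_inner_smul_left, real_inner_smul_left, hpc, hqc]
    ring
  have h3 : 0 ≤ cos R := cos_nonneg_of_neg_pi_div_two_le_of_le (by linarith) hR1
  have h4 : 0 < ‖A • p - B • q‖ := norm_pos_iff.2 hne
  have h5 : inner ℝ (A • p - B • q) c / (‖A • p - B • q‖ * ‖c‖) ≤ cos R := by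
    rw [hc, mul_one, h2, div_le_iff₀ h4]
    have h6 : (A - B) * cos R ≤ |A - B| * cos R := mul_le_mul_of_nonneg_right (le_abs_self _) h3
    have h7 : |A - B| * cos R ≤ ‖A • p - B • q‖ * cos R := mul_le_mul_of_nonneg_right h1 h3
    linarith
  unfold angle
  rw [← arccos_cos hR0 (by linarith [pi_pos])]
  exact arccos_le_arccos h5

/-- The distance of two points of the boundary sphere in the inner part is at least their angle. -/
theorem dist_ge_aux {K M : Type} [MetricSpace K] [MetricSpace M] {n : E N} (hc : ‖c‖ = 1)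
    (hR0 : 0 ≤ R) (hR1 : R < π / 2) {j : K → M} (hj : ∀ x y, dist (j x) (j y) ≤ dist x y)
    {ι : E N → M} (hι : ∀ x ∈ Outside n c R, ∀ y ∈ Outside n c R, Free c R x y →
      dist (ι x) (ι y) ≤ angle x y)
    (hno : ∀ x y, ‖x‖ = 1 → ‖y‖ = 1 → inner ℝ x n = 0 → inner ℝ y n = 0 →
      angle x y ≤ dist (ι x) (ι y)) {p q : E N} (hp : ‖p‖ = 1) (hq : ‖q‖ = 1)
    (hpc : inner ℝ p c = cos R) (hqc : inner ℝ q c = cos R) {x y : K} (hx : ι p = j x)
    (hy : ι q = j y) (hpn : 0 ≤ inner ℝ p n) (hqn : 0 < inner ℝ q n) :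
    angle p q ≤ dist x y := by
  by_cases hpq : p = q
  · rw [hpq, angle_self]
    · exact dist_nonneg
    · rw [← norm_ne_zero_iff, hq]
      exact one_ne_zero
  have hcosR : 0 < cos R := cos_pos_of_mem_Ioo ⟨by linarith [pi_pos], hR1⟩
  set α := inner ℝ p n with hα
  set β := inner ℝ q n with hβ
  set v : E N := β • p - α • q with hv
  have hv0 : v ≠ 0 := by
    intro h0
    have h1 : β • p = α • q := sub_eq_zero.1 h0
    have h2 : β = α := by
      have h3 := congrArg norm h1
      rw [norm_smul, norm_smul, hp, hq, mul_one, mul_one, Real.norm_of_nonneg hqn.le,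
        Real.norm_of_nonneg hpn] at h3
      exact h3
    rw [← h2] at h1
    exact hpq (smul_right_injective (E N) hqn.ne' h1)
  have hvn : 0 < ‖v‖ := norm_pos_iff.2 hv0
  set e : E N := (1 / ‖v‖) • v with he
  have hen : ‖e‖ = 1 := by
    rw [he, norm_smul, norm_div, norm_one, norm_norm]
    field_simp
  have hvin : inner ℝ v n = 0 := by
    rw [hv, inner_sub_left, real_inner_smul_left, real_inner_smul_left, ← hα, ← hβ]
    ring
  have hein : inner ℝ e n = 0 := by
    rw [he, real_inner_smul_left, hvin, mul_zero]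
  have hve : v = ‖v‖ • e := by
    rw [he, smul_smul]
    field_simp
    rw [one_smul]
  -- the arcs
  have hfree1 : Free c R e p := by
    intro a b ha hb hne
    have h1 : a • e + b • p = (a * β / ‖v‖ + b) • p - (a * α / ‖v‖) • q := by
      rw [he, hv, smul_smul, smul_sub, smul_smul, smul_smul]
      module
    rw [h1] at hne ⊢
    exact angle_ge_of_comb hc hR0 hR1.le hp hq hpc hqc (by positivity) (by positivity) hne
  have hfree2 : Free c R q (-e) := by
    intro a b ha hb hne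
    have h1 : a • q + b • (-e) = (a + b * α / ‖v‖) • q - (b * β / ‖v‖) • p := by
      rw [he, hv, ← smul_neg, smul_smul, neg_sub, smul_sub, smul_smul, smul_smul]
      module
    rw [h1] at hne ⊢
    exact angle_ge_of_comb hc hR0 hR1.le hq hp hqc hpc (by positivity) (by positivity) hne
  have he0 : e ≠ 0 := by
    rw [← norm_ne_zero_iff, hen]
    exact one_ne_zero
  have hp0 : p ≠ 0 := by
    rw [← norm_ne_zero_iff, hp]
    exact one_ne_zero
  have hq0 : q ≠ 0 := by
    rw [← norm_ne_zero_iff, hq]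
    exact one_ne_zero
  have heO : e ∈ Outside n c R := by
    refine ⟨hen, hein.ge, ?_⟩
    have := hfree1 1 0 zero_le_one le_rfl (by simpa using he0)
    simpa using this
  have hneO : -e ∈ Outside n c R := by
    refine ⟨by rw [norm_neg, hen], ?_, ?_⟩
    · rw [inner_neg_left, hein, neg_zero]
    · have := hfree2 0 1 le_rfl zero_le_one (by simpa using he0)
      simpa using this
  have hpO : p ∈ Outside n c R := by
    refine ⟨hp, hpn, ?_⟩
    have := hfree1 0 1 le_rfl zero_le_one (by simpa using hp0)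
    simpa using this
  have hqO : q ∈ Outside n c R := by
    refine ⟨hq, hqn.le, ?_⟩
    have := hfree2 1 0 zero_le_one le_rfl (by simpa using hq0)
    simpa using this
  have d1 := hι e heO p hpO hfree1
  have d2 := hι q hqO (-e) hneO hfree2
  have d3 := hno e (-e) hen (by rw [norm_neg, hen]) hein (by rw [inner_neg_left, hein, neg_zero])
  rw [angle_self_neg_of_nonzero he0] at d3
  have d4 := hj x y
  rw [← hx, ← hy] at d4
  have d5 : dist (ι e) (ι (-e)) ≤ dist (ι e) (ι p) + dist (ι p) (ι q) + dist (ι q) (ι (-e)) :=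
    dist_triangle4 _ _ _ _
  rw [angle_neg_right, angle_comm q e] at d2
  have hsum : angle e q = angle e p + angle p q := by
    apply angle_eq_angle_add_add_angle_add_of_mem_span hp0
    rw [Submodule.mem_span_pair]
    refine ⟨⟨‖v‖ / β, by positivity⟩, ⟨α / β, by positivity⟩, ?_⟩
    change (‖v‖ / β) • e + (α / β) • q = p
    have h1 : (‖v‖ / β) • e = (1 / β) • v := by
      have h3 : (‖v‖ / β) • e = (1 / β) • (‖v‖ • e) := by
        rw [show (‖v‖ / β) = (1 / β) * ‖v‖ by ring, mul_smul]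
      rw [h3, ← hve]
    rw [h1, hv, smul_sub, smul_smul, smul_smul]
    have h2 : 1 / β * β = 1 := by field_simp
    rw [h2, one_smul, one_div_mul_eq_div]
    abel
  linarith

end

section

variable {d : ℕ} {c : E (d + 2)} {R : ℝ} {J : E (d + 1) →ₗᵢ[ℝ] E (d + 2)}

theorem inner_bp (hc : ‖c‖ = 1) (hJ : ∀ v, inner ℝ (J v) c = 0) (v w : E (d + 1)) :
    inner ℝ (bp R c J v) (bp R c J w) = cos R ^ 2 + sin R ^ 2 * inner ℝ v w := by
  have h1 : (inner ℝ c c : ℝ) = 1 := by
    rw [real_inner_self_eq_norm_sq, hc]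
    norm_num
  have h2 : ∀ u, (inner ℝ c (J u) : ℝ) = 0 := fun u => by rw [real_inner_comm, hJ]
  unfold bp
  simp only [inner_add_left, inner_add_right, real_inner_smul_left, real_inner_smul_right, h1, h2,
    hJ, J.inner_map_map]
  ring

theorem inner_bp_c (hc : ‖c‖ = 1) (hJ : ∀ v, inner ℝ (J v) c = 0) (v : E (d + 1)) :
    inner ℝ (bp R c J v) c = cos R := by
  have h1 : (inner ℝ c c : ℝ) = 1 := by
    rw [real_inner_self_eq_norm_sq, hc]
    norm_num
  unfold bp
  simp only [inner_add_left, real_inner_smul_left, h1, hJ]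
  ring

theorem norm_bp (hc : ‖c‖ = 1) (hJ : ∀ v, inner ℝ (J v) c = 0) {v : E (d + 1)} (hv : ‖v‖ = 1) :
    ‖bp R c J v‖ = 1 := by
  have h1 := inner_bp (R := R) hc hJ v v
  rw [real_inner_self_eq_norm_sq, real_inner_self_eq_norm_sq, hv, one_pow, mul_one,
    cos_sq_add_sin_sq] at h1
  have h2 := norm_nonneg (bp R c J v)
  nlinarith

theorem angle_bp (hc : ‖c‖ = 1) (hJ : ∀ v, inner ℝ (J v) c = 0) {v w : E (d + 1)} (hv : ‖v‖ = 1)
    (hw : ‖w‖ = 1) : angle (bp R c J v) (bp R c J w) =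
      arccos (cos R ^ 2 + sin R ^ 2 * inner ℝ v w) := by
  unfold angle
  rw [norm_bp hc hJ hv, norm_bp hc hJ hw, inner_bp hc hJ, mul_one, div_one]

/-- The boundary distances of the inner part. -/
theorem dist_ge {K M : Type} [MetricSpace K] [MetricSpace M] {n : E (d + 2)}
    (hc : ‖c‖ = 1) (hJ : ∀ v, inner ℝ (J v) c = 0) (hR0 : 0 ≤ R) (hR1 : R < π / 2)
    (hball : ∀ x : E (d + 2), ‖x‖ = 1 → angle x c ≤ R → 0 ≤ inner ℝ x n)
    {j : K → M} (hj : ∀ x y, dist (j x) (j y) ≤ dist x y)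
    {ι : E (d + 2) → M} (hι : ∀ x ∈ Outside n c R, ∀ y ∈ Outside n c R, Free c R x y →
      dist (ι x) (ι y) ≤ angle x y)
    (hno : ∀ x y, ‖x‖ = 1 → ‖y‖ = 1 → inner ℝ x n = 0 → inner ℝ y n = 0 →
      angle x y ≤ dist (ι x) (ι y)) {b : Sph (d + 1) → K}
    (hb : ∀ v : Sph (d + 1), ι (bp R c J v) = j (b v)) (v w : Sph (d + 1)) :
    angle (bp R c J v) (bp R c J w) ≤ dist (b v) (b w) := by
  have hn : ∀ u : Sph (d + 1), ‖bp R c J u‖ = 1 := fun u => norm_bp hc hJ (sph_norm u)
  have hang : ∀ u : Sph (d + 1), angle (bp R c J u) c = R := by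
    intro u
    unfold angle
    rw [hn, hc, inner_bp_c hc hJ, mul_one, div_one]
    exact arccos_cos hR0 (by linarith [pi_pos])
  have hpos : ∀ u : Sph (d + 1), 0 ≤ inner ℝ (bp R c J u) n := fun u =>
    hball _ (hn u) (hang u).le
  rcases (hpos w).lt_or_eq with ht | ht
  · exact dist_ge_aux hc hR0 hR1 hj hι hno (hn v) (hn w) (inner_bp_c hc hJ v)
      (inner_bp_c hc hJ w) (hb v) (hb w) (hpos v) ht
  · rcases (hpos v).lt_or_eq with hs | hs
    · rw [angle_comm, dist_comm]
      exact dist_ge_aux hc hR0 hR1 hj hι hno (hn w) (hn v) (inner_bp_c hc hJ w)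
        (inner_bp_c hc hJ v) (hb w) (hb v) (hpos w) hs
    · have h1 := hno _ _ (hn v) (hn w) hs.symm ht.symm
      rw [hb, hb] at h1
      exact h1.trans (hj _ _)

end

/-- The ball of radius `R` is a minimal filling of its boundary. -/
theorem ball_minimal {d : ℕ} {K : Type} [MetricSpace K] (S : Fill d K)
    (hT : (CompactSpace K ∧ S.Triangulated) ∨ S.NoRetraction) {R : ℝ} (hR0 : 0 < R)
    (hR1 : R < π / 2) (hR : 13 * sin R ^ 2 ≤ 1) {c : E (d + 2)} (hc : ‖c‖ = 1)
    {J : E (d + 1) →ₗᵢ[ℝ] E (d + 2)} (hJ : ∀ v, inner ℝ (J v) c = 0)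
    (hd : ∀ v w : Sph (d + 1), angle (bp R c J v) (bp R c J w) ≤ dist (S.bd v) (S.bd w)) :
    sig (d + 2) {x : Sph (d + 2) | angle (x : E (d + 2)) c ≤ R} ≤ S.vol := by
  have h1 : 0 < sin R := sin_pos_of_pos_of_lt_pi hR0 (by linarith [pi_pos])
  have h2 : 0 < cos R := cos_pos_of_mem_Ioo ⟨by linarith, hR1⟩
  have h3 := cos_sq_add_sin_sq R
  have hns : ∀ v w : Sph (d + 1), arccos (cos R ^ 2 + sin R ^ 2 *
      inner ℝ (v : E (d + 1)) (w : E (d + 1))) ≤ dist (S.bd v) (S.bd w) := by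
    intro v w
    rw [← angle_bp hc hJ (sph_norm v) (sph_norm w)]
    exact hd v w
  have hsc : sin R * 3 ≤ cos R := by nlinarith
  have hdiv : sin R / cos R ≤ 1 / 3 := by
    rw [div_le_div_iff₀ h2 (by norm_num)]
    linarith
  have hs1 : sin R ≤ 7 / 25 := by nlinarith
  have hpar : Par (d + 1) (sin R + sin R / cos R) (sin R) := by
    refine ⟨Nat.succ_pos d, by positivity, h1, hR, ?_⟩
    linarith
  have hdk := ek_dk (Nat.succ_pos d) h1 h2 h3 hns
  have hm := main_lf hpar (by
    have : 0 ≤ sin R / cos R := by positivity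
    linarith) S hdk (fun v w => (angle_le_cap h1 h3 v w).trans (hns v w)) hT
  rw [ball_lf d hR0 hR1] at hm
  rw [cap_sig d hR0.le (by linarith [pi_pos]) hc]
  exact hm

/-- Fillings which are round outside the ball of radius `R`. -/
theorem round_outside {d : ℕ} {K M : Type} [MetricSpace K] [MetricSpace M] (S : Fill d K)
    (hT : (CompactSpace K ∧ S.Triangulated) ∨ S.NoRetraction) {R : ℝ}
    (hR0 : 0 < R) (hR1 : R < π / 2) (hR : 13 * sin R ^ 2 ≤ 1) {n c : E (d + 2)} (hc : ‖c‖ = 1)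
    {J : E (d + 1) →ₗᵢ[ℝ] E (d + 2)} (hJ : ∀ v, inner ℝ (J v) c = 0)
    (hball : ∀ x : E (d + 2), ‖x‖ = 1 → angle x c ≤ R → 0 ≤ inner ℝ x n)
    {j : K → M} (hj : ∀ x y, dist (j x) (j y) ≤ dist x y)
    {ι : E (d + 2) → M} (hι : ∀ x ∈ Outside n c R, ∀ y ∈ Outside n c R, Free c R x y →
      dist (ι x) (ι y) ≤ angle x y)
    (hglue : ∀ v : Sph (d + 1), ι (bp R c J v) = j (S.bd v))
    (hno : ∀ x y, ‖x‖ = 1 → ‖y‖ = 1 → inner ℝ x n = 0 → inner ℝ y n = 0 →
      angle x y ≤ dist (ι x) (ι y)) :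
    sig (d + 2) {x : Sph (d + 2) | angle (x : E (d + 2)) c ≤ R} ≤ S.vol :=
  ball_minimal S hT hR0 hR1 hR hc hJ (dist_ge hc hJ hR0.le hR1 hball hj hι hno hglue)

end Pool.Agent.Q183.CN
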