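import Pool.Agent.Q188.FC.StmK
import Pool.Agent.Q190.FC.GC
import Pool.Agent.Q53.FC.GH

/-!
# The centre of a family of functions on the sphere of directions

`W p y = exp(-(‖y‖² - ⟨p,y⟩²)/2)`, `HH p φ = ∫ (φ y - ⟨p,y⟩) W p y • y dy`.  The centre of `φ` is
the zero of `HH · φ`.  This file: differentiability of `HH` with respect to `p`, uniformly in `φ`.
-/

set_option autoImplicit false

open MeasureTheory Metric Set Filter Topology

namespace Pool.Agent.Q183.CN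

open Pool.Agent.W716.FV (E gam gd)
open Pool.Agent.Q190.FC.GC (int_exp int_norm_exp)

/-- functions homogeneous of degree one (also for negative factors), with Lipschitz constant `κ`
and `|φ y| ≤ ρ ‖y‖` -/
structure Ck {n : ℕ} (κ ρ : ℝ) (φ : E n → ℝ) : Prop where
  lip : ∀ x y, |φ x - φ y| ≤ κ * ‖x - y‖
  hom : ∀ (t : ℝ) (x : E n), φ (t • x) = t * φ x
  le : ∀ x, |φ x| ≤ ρ * ‖x‖

/-- the weight -/
noncomputable def W {n : ℕ} (p y : E n) : ℝ := Real.exp (-(‖y‖ ^ 2 - inner ℝ p y ^ 2) / 2)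

/-- the field whose zero is the centre of `φ` -/
noncomputable def HH {n : ℕ} (p : E n) (φ : E n → ℝ) : E n :=
  ∫ y, ((φ y - inner ℝ p y) * W p y) • y

/-- `(f - x) exp(x²/2)` -/
noncomputable def G0 (f x : ℝ) : ℝ := (f - x) * Real.exp (x ^ 2 / 2)

/-- its derivative in `x` -/
noncomputable def G1 (f x : ℝ) : ℝ := (-1 + (f - x) * x) * Real.exp (x ^ 2 / 2)

/-- the second derivative in `x` -/
noncomputable def G2 (f x : ℝ) : ℝ :=
  (f - 2 * x + x * (-1 + (f - x) * x)) * Real.exp (x ^ 2 / 2)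

/-- the derivative of `HH · φ` at `p` -/
noncomputable def LL {n : ℕ} (p : E n) (φ : E n → ℝ) : E n →L[ℝ] E n :=
  ∫ y, (G1 (φ y) (inner ℝ p y) * Real.exp (-‖y‖ ^ 2 / 2)) • (innerSL ℝ y).smulRight y

theorem ck_cont {n : ℕ} {κ ρ : ℝ} {φ : E n → ℝ} (h : Ck κ ρ φ) : Continuous φ := by
  have : LipschitzWith (Real.toNNReal |κ|) φ := by
    refine LipschitzWith.of_dist_le_mul fun x y => ?_
    rw [Real.dist_eq, dist_eq_norm, Real.coe_toNNReal _ (abs_nonneg _)]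
    exact (h.lip x y).trans (mul_le_mul_of_nonneg_right (le_abs_self κ) (norm_nonneg _))
  exact this.continuous

theorem W_eq {n : ℕ} (p y : E n) :
    W p y = Real.exp (inner ℝ p y ^ 2 / 2) * Real.exp (-‖y‖ ^ 2 / 2) := by
  unfold W
  rw [← Real.exp_add]
  congr 1
  ring

theorem W_pos {n : ℕ} (p y : E n) : 0 < W p y := Real.exp_pos _

theorem inner_bd {n : ℕ} {p : E n} {r : ℝ} (hp : ‖p‖ ≤ r) (y : E n) :
    |(inner ℝ p y : ℝ)| ≤ r * ‖y‖ :=
  (abs_real_inner_le_norm p y).trans (mul_le_mul_of_nonneg_right hp (norm_nonneg y))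

theorem exp_in {r a b : ℝ} (h : |a| ≤ r * b) : Real.exp (a ^ 2 / 2) ≤ Real.exp (r ^ 2 * b ^ 2 / 2) := by
  apply Real.exp_le_exp.2
  have h1 : a ^ 2 ≤ (r * b) ^ 2 := by
    rw [← sq_abs a]
    exact pow_le_pow_left₀ (abs_nonneg a) h 2
  rw [mul_pow] at h1
  linarith

theorem W_le {n : ℕ} {p : E n} {r : ℝ} (hp : ‖p‖ ≤ r) (y : E n) :
    W p y ≤ Real.exp (-((1 - r ^ 2) / 2 * ‖y‖ ^ 2)) := by
  rw [W_eq]
  have h := exp_in (inner_bd hp y)
  calc Real.exp (inner ℝ p y ^ 2 / 2) * Real.exp (-‖y‖ ^ 2 / 2)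
      ≤ Real.exp (r ^ 2 * ‖y‖ ^ 2 / 2) * Real.exp (-‖y‖ ^ 2 / 2) :=
        mul_le_mul_of_nonneg_right h (Real.exp_pos _).le
    _ = _ := by
        rw [← Real.exp_add]
        congr 1
        ring

theorem pow_le_exp (k : ℕ) {c r : ℝ} (hc : 0 < c) (hr : 0 ≤ r) :
    (1 + r) ^ k ≤ (k.factorial * Real.exp (1 + 1 / (2 * c))) * Real.exp (c / 2 * r ^ 2) := by
  have h1 : (1 + r) ^ k / k.factorial ≤ Real.exp (1 + r) :=
    Real.pow_div_factorial_le_exp (1 + r) (by positivity) k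
  rw [div_le_iff₀ (by positivity)] at h1
  have h2 : 1 + r ≤ (1 + 1 / (2 * c)) + c / 2 * r ^ 2 := by
    have h3 : 0 ≤ (c * r - 1) ^ 2 / (2 * c) := by positivity
    have h4 : (c * r - 1) ^ 2 / (2 * c) = c / 2 * r ^ 2 - r + 1 / (2 * c) := by
      field_simp
      ring
    linarith
  calc (1 + r) ^ k ≤ Real.exp (1 + r) * k.factorial := h1
    _ ≤ Real.exp ((1 + 1 / (2 * c)) + c / 2 * r ^ 2) * k.factorial := by gcongr
    _ = _ := by
        rw [Real.exp_add]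
        ring

theorem int_pe {n : ℕ} (k : ℕ) {c : ℝ} (hc : 0 < c) :
    Integrable (fun y : E n => (1 + ‖y‖) ^ k * Real.exp (-(c * ‖y‖ ^ 2))) := by
  have h := (int_exp (n := n) (half_pos hc)).const_mul (k.factorial * Real.exp (1 + 1 / (2 * c)))
  refine h.mono' (by fun_prop) (ae_of_all _ fun y => ?_)
  rw [Real.norm_of_nonneg (by positivity)]
  calc (1 + ‖y‖) ^ k * Real.exp (-(c * ‖y‖ ^ 2))
      ≤ ((k.factorial * Real.exp (1 + 1 / (2 * c))) * Real.exp (c / 2 * ‖y‖ ^ 2)) *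
        Real.exp (-(c * ‖y‖ ^ 2)) := by
        gcongr
        exact pow_le_exp k hc (norm_nonneg y)
    _ = (k.factorial * Real.exp (1 + 1 / (2 * c))) * (Real.exp (c / 2 * ‖y‖ ^ 2) *
        Real.exp (-(c * ‖y‖ ^ 2))) := by ring
    _ = _ := by
        rw [← Real.exp_add]
        congr 2
        ring

theorem cpos {r : ℝ} (h0 : 0 ≤ r) (h1 : r < 1) : 0 < (1 - r ^ 2) / 2 := by nlinarith

/-- integrability of functions with a polynomial times Gaussian bound -/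
theorem int_of {n : ℕ} {V : Type} [NormedAddCommGroup V] [NormedSpace ℝ V] {f : E n → V}
    {C c : ℝ} {k : ℕ} (hc : 0 < c) (hm : AEStronglyMeasurable f volume)
    (hf : ∀ᵐ y ∂(volume : Measure (E n)), ‖f y‖ ≤ C * ((1 + ‖y‖) ^ k * Real.exp (-(c * ‖y‖ ^ 2)))) :
    Integrable f :=
  ((int_pe k hc).const_mul C).mono' hm hf

/-! ### scalar estimates -/

theorem hd_G0 (f x : ℝ) : HasDerivAt (fun x => G0 f x) (G1 f x) x := by
  have h1 : HasDerivAt (fun x : ℝ => f - x) (-1) x := by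
    simpa using (hasDerivAt_id x).const_sub f
  have h2 : HasDerivAt (fun x : ℝ => Real.exp (x ^ 2 / 2)) (Real.exp (x ^ 2 / 2) * x) x := by
    have h3 : HasDerivAt (fun x : ℝ => x ^ 2 / 2) x x := by
      have := ((hasDerivAt_pow 2 x).div_const 2)
      refine this.congr_deriv ?_
      simp
    exact h3.exp
  refine (h1.mul h2).congr_deriv ?_
  unfold G1
  ring

theorem hd_G1 (f x : ℝ) : HasDerivAt (fun x => G1 f x) (G2 f x) x := by
  have h1 : HasDerivAt (fun x : ℝ => -1 + (f - x) * x) (f - 2 * x) x := by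
    have h3 : HasDerivAt (fun x : ℝ => f - x) (-1) x := by
      simpa using (hasDerivAt_id x).const_sub f
    refine ((h3.mul (hasDerivAt_id x)).const_add (-1)).congr_deriv ?_
    simp only [id]
    ring
  have h2 : HasDerivAt (fun x : ℝ => Real.exp (x ^ 2 / 2)) (Real.exp (x ^ 2 / 2) * x) x := by
    have h3 : HasDerivAt (fun x : ℝ => x ^ 2 / 2) x x := by
      have := ((hasDerivAt_pow 2 x).div_const 2)
      refine this.congr_deriv ?_
      simp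
    exact h3.exp
  refine (h1.mul h2).congr_deriv ?_
  unfold G2
  ring

/-- a function on the segment -/
theorem seg_est {g g' : ℝ → ℝ} {C : ℝ} {a b : ℝ}
    (hg : ∀ ξ ∈ uIcc a b, HasDerivAt g (g' ξ) ξ) (hC : ∀ ξ ∈ uIcc a b, |g' ξ| ≤ C) :
    |g b - g a| ≤ C * |b - a| := by
  have h := Convex.norm_image_sub_le_of_norm_hasDerivWithin_le (f := g) (f' := g') (s := uIcc a b)
    (x := a) (y := b) (C := C) (fun x hx => (hg x hx).hasDerivWithinAt)
    (fun x hx => by rw [Real.norm_eq_abs]; exact hC x hx) (convex_uIcc a b) left_mem_uIcc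
    right_mem_uIcc
  simpa [Real.norm_eq_abs] using h

theorem abs_seg {a b ξ c B : ℝ} (hξ : ξ ∈ uIcc a b) (ha : |a - c| ≤ B) (hb : |b - c| ≤ B) :
    |ξ - c| ≤ B := by
  rw [abs_le] at ha hb ⊢
  rcases le_total a b with h | h
  · rw [uIcc_of_le h] at hξ
    constructor <;> linarith [hξ.1, hξ.2]
  · rw [uIcc_of_ge h] at hξ
    constructor <;> linarith [hξ.1, hξ.2]

theorem abs_seg0 {a b ξ B : ℝ} (hξ : ξ ∈ uIcc a b) (ha : |a| ≤ B) (hb : |b| ≤ B) :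
    |ξ| ≤ B := by
  have := abs_seg (c := 0) (B := B) hξ (by rwa [sub_zero]) (by rwa [sub_zero])
  rwa [sub_zero] at this

theorem G2_bd {f x r : ℝ} {ρ : ℝ} (hr : 0 ≤ r) (hρ1 : ρ ≤ 1) (hf : |f| ≤ r)
    (hx : |x| ≤ ρ * r) : |G2 f x| ≤ (4 * r + 2 * r ^ 3) * Real.exp (ρ ^ 2 * r ^ 2 / 2) := by
  unfold G2
  rw [abs_mul, abs_of_pos (Real.exp_pos _)]
  have hx' : |x| ≤ r := hx.trans (by nlinarith)
  have h2 : |f - 2 * x + x * (-1 + (f - x) * x)| ≤ 4 * r + 2 * r ^ 3 := by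
    have e1 : |f - 2 * x + x * (-1 + (f - x) * x)| ≤ |f| + 2 * |x| + |x| * (1 + (|f| + |x|) * |x|) := by
      have a1 : |f - 2 * x| ≤ |f| + 2 * |x| := by
        refine (abs_sub _ _).trans ?_
        rw [abs_mul, abs_two]
      have a2 : |x * (-1 + (f - x) * x)| ≤ |x| * (1 + (|f| + |x|) * |x|) := by
        rw [abs_mul]
        apply mul_le_mul_of_nonneg_left _ (abs_nonneg x)
        refine (abs_add_le _ _).trans ?_
        rw [abs_neg, abs_one, abs_mul]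
        gcongr
        exact abs_sub _ _
      exact (abs_add_le _ _).trans (add_le_add a1 a2)
    refine e1.trans ?_
    have e2 : |f| + 2 * |x| + |x| * (1 + (|f| + |x|) * |x|) ≤ r + 2 * r + r * (1 + (r + r) * r) := by
      gcongr
    refine e2.trans (le_of_eq (by ring))
  calc _ ≤ (4 * r + 2 * r ^ 3) * Real.exp (x ^ 2 / 2) := by gcongr
    _ ≤ _ := by
        exact mul_le_mul_of_nonneg_left (exp_in hx) (by positivity)

theorem G1_diff {f f0 x x0 r δ ρ : ℝ} (hr : 0 ≤ r) (hρ1 : ρ ≤ 1) (hδ : 0 ≤ δ)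
    (hf0 : |f0| ≤ r) (hx : |x| ≤ ρ * r) (hx0 : |x0| ≤ ρ * r) (hff : |f - f0| ≤ δ * r)
    (hxx : |x - x0| ≤ δ * r) :
    |G1 f x - G1 f0 x0| ≤ 7 * δ * (1 + r) ^ 4 * Real.exp (ρ ^ 2 * r ^ 2 / 2) := by
  have h1 : |G1 f x - G1 f0 x| ≤ δ * r * r * Real.exp (ρ ^ 2 * r ^ 2 / 2) := by
    have e : G1 f x - G1 f0 x = (f - f0) * x * Real.exp (x ^ 2 / 2) := by
      unfold G1
      ring
    rw [e, abs_mul, abs_mul, abs_of_pos (Real.exp_pos _)]
    have hx' : |x| ≤ r := hx.trans (by nlinarith)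
    have := exp_in hx
    gcongr
  have h2 : |G1 f0 x - G1 f0 x0| ≤ ((4 * r + 2 * r ^ 3) * Real.exp (ρ ^ 2 * r ^ 2 / 2)) * (δ * r) := by
    have h3 := seg_est (g := fun x => G1 f0 x) (g' := fun x => G2 f0 x) (a := x0) (b := x)
      (C := (4 * r + 2 * r ^ 3) * Real.exp (ρ ^ 2 * r ^ 2 / 2)) (fun ξ _ => hd_G1 f0 ξ)
      (fun ξ hξ => G2_bd hr hρ1 hf0 (abs_seg0 hξ hx0 hx))
    exact h3.trans (by gcongr)
  have h4 : |G1 f x - G1 f0 x0| ≤ |G1 f x - G1 f0 x| + |G1 f0 x - G1 f0 x0| := abs_sub_le _ _ _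
  refine h4.trans ((add_le_add h1 h2).trans ?_)
  have e : δ * r * r * Real.exp (ρ ^ 2 * r ^ 2 / 2) +
      ((4 * r + 2 * r ^ 3) * Real.exp (ρ ^ 2 * r ^ 2 / 2)) * (δ * r) =
      (δ * (5 * r ^ 2 + 2 * r ^ 4)) * Real.exp (ρ ^ 2 * r ^ 2 / 2) := by ring
  rw [e]
  have h5 : 5 * r ^ 2 + 2 * r ^ 4 ≤ 7 * (1 + r) ^ 4 := by
    nlinarith [pow_nonneg hr 2, pow_nonneg hr 3, pow_nonneg hr 4]
  calc (δ * (5 * r ^ 2 + 2 * r ^ 4)) * Real.exp (ρ ^ 2 * r ^ 2 / 2) ≤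
      (δ * (7 * (1 + r) ^ 4)) * Real.exp (ρ ^ 2 * r ^ 2 / 2) := by gcongr
    _ = _ := by ring

theorem G0_taylor {f f0 x x' x0 r δ ρ : ℝ} (hr : 0 ≤ r) (hρ1 : ρ ≤ 1) (hδ : 0 ≤ δ)
    (hf0 : |f0| ≤ r) (hx : |x| ≤ ρ * r) (hx' : |x'| ≤ ρ * r) (hx0 : |x0| ≤ ρ * r)
    (hff : |f - f0| ≤ δ * r) (hxx : |x - x0| ≤ δ * r) (hxx' : |x' - x0| ≤ δ * r) :
    |G0 f x - G0 f x' - G1 f0 x0 * (x - x')| ≤
      7 * δ * (1 + r) ^ 4 * Real.exp (ρ ^ 2 * r ^ 2 / 2) * |x - x'| := by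
  have h := seg_est (g := fun ξ => G0 f ξ - G1 f0 x0 * ξ) (g' := fun ξ => G1 f ξ - G1 f0 x0)
    (a := x') (b := x) (C := 7 * δ * (1 + r) ^ 4 * Real.exp (ρ ^ 2 * r ^ 2 / 2))
    (fun ξ _ => by
      have := (hd_G0 f ξ).sub ((hasDerivAt_id ξ).const_mul (G1 f0 x0))
      rw [mul_one] at this
      exact this)
    (fun ξ hξ => by
      exact G1_diff hr hρ1 hδ hf0 (abs_seg0 hξ hx' hx) hx0 hff (abs_seg hξ hxx' hxx))
  have e : G0 f x - G1 f0 x0 * x - (G0 f x' - G1 f0 x0 * x') =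
      G0 f x - G0 f x' - G1 f0 x0 * (x - x') := by ring
  rw [← e]
  exact h

end Pool.Agent.Q183.CN
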