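import Pool.Agent.Q183.CN.A

/-!
# Differentiability of the field `HH`
-/

set_option autoImplicit false

open MeasureTheory Metric Set Filter Topology

namespace Pool.Agent.Q183.CN

open Pool.Agent.W716.FV (E gam gd)

variable {n : ℕ}

/-- continuous functions with `|φ y| ≤ ‖y‖` -/
def Bd (φ : E n → ℝ) : Prop := Continuous φ ∧ ∀ y, |φ y| ≤ ‖y‖

theorem ck_bd {κ ρ : ℝ} (hρ : ρ ≤ 1) {φ : E n → ℝ} (h : Ck κ ρ φ) : Bd φ :=
  ⟨ck_cont h, fun y => (h.le y).trans (by nlinarith [norm_nonneg y])⟩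

theorem integrand_eq (p y : E n) (φ : E n → ℝ) :
    (φ y - inner ℝ p y) * W p y = G0 (φ y) (inner ℝ p y) * Real.exp (-‖y‖ ^ 2 / 2) := by
  rw [W_eq]
  unfold G0
  ring

theorem HH_int {ρ : ℝ} (hρ0 : 0 ≤ ρ) (hρ : ρ < 1) {p : E n} (hp : ‖p‖ ≤ ρ) {φ : E n → ℝ}
    (hφ : Bd φ) : Integrable (fun y => ((φ y - inner ℝ p y) * W p y) • y) := by
  obtain ⟨hc, hb⟩ := hφ
  refine int_of (C := 2) (c := (1 - ρ ^ 2) / 2) (k := 2) (cpos hρ0 hρ) ?_ (ae_of_all _ fun y => ?_)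
  · unfold W
    exact (by fun_prop : Continuous _).aestronglyMeasurable
  · rw [norm_smul, Real.norm_eq_abs, abs_mul, abs_of_pos (W_pos p y)]
    have h1 := hb y
    have h2 := inner_bd hp y
    have h3 := W_le hp y
    have h4 := norm_nonneg y
    have h5 : |φ y - inner ℝ p y| ≤ 2 * ‖y‖ := by
      refine (abs_sub _ _).trans ?_
      nlinarith
    calc |φ y - inner ℝ p y| * W p y * ‖y‖ ≤
        (2 * ‖y‖) * Real.exp (-((1 - ρ ^ 2) / 2 * ‖y‖ ^ 2)) * ‖y‖ := by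
          have := W_pos p y
          gcongr
      _ = (2 * ‖y‖ ^ 2) * Real.exp (-((1 - ρ ^ 2) / 2 * ‖y‖ ^ 2)) := by ring
      _ ≤ (2 * (1 + ‖y‖) ^ 2) * Real.exp (-((1 - ρ ^ 2) / 2 * ‖y‖ ^ 2)) := by
          gcongr
          linarith
      _ = _ := by ring

theorem G1_bd {f x r : ℝ} (hr : 0 ≤ r) (hf : |f| ≤ r) {ρ : ℝ} (hρ1 : ρ ≤ 1)
    (hx : |x| ≤ ρ * r) : |G1 f x| ≤ 2 * (1 + r) ^ 2 * Real.exp (ρ ^ 2 * r ^ 2 / 2) := by
  unfold G1
  rw [abs_mul, abs_of_pos (Real.exp_pos _)]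
  have hx' : |x| ≤ r := hx.trans (by nlinarith)
  have h1 : |-1 + (f - x) * x| ≤ 2 * (1 + r) ^ 2 := by
    refine (abs_add_le _ _).trans ?_
    rw [abs_neg, abs_one, abs_mul]
    have h2 : |f - x| ≤ 2 * r := (abs_sub _ _).trans (by linarith)
    have h3 : |f - x| * |x| ≤ 2 * r * r := by gcongr
    nlinarith
  have := exp_in hx
  gcongr

theorem smulRight_norm (y : E n) : ‖(innerSL ℝ y).smulRight y‖ = ‖y‖ * ‖y‖ := by
  rw [ContinuousLinearMap.norm_smulRight_apply, innerSL_apply_norm]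

theorem exp_split (ρ r : ℝ) : Real.exp (ρ ^ 2 * r ^ 2 / 2) * Real.exp (-r ^ 2 / 2) =
    Real.exp (-((1 - ρ ^ 2) / 2 * r ^ 2)) := by
  rw [← Real.exp_add]
  congr 1
  ring

theorem cont_G1 {φ : E n → ℝ} (hc : Continuous φ) (p : E n) :
    Continuous (fun y : E n => G1 (φ y) (inner ℝ p y)) := by
  unfold G1
  fun_prop

theorem LL_int {ρ : ℝ} (hρ0 : 0 ≤ ρ) (hρ : ρ < 1) {p : E n} (hp : ‖p‖ ≤ ρ) {φ : E n → ℝ}
    (hφ : Bd φ) : Integrable (fun y => (G1 (φ y) (inner ℝ p y) * Real.exp (-‖y‖ ^ 2 / 2)) •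
      (innerSL ℝ y).smulRight y) := by
  obtain ⟨hc, hb⟩ := hφ
  refine int_of (C := 2) (c := (1 - ρ ^ 2) / 2) (k := 4) (cpos hρ0 hρ) ?_ (ae_of_all _ fun y => ?_)
  · have h1 := cont_G1 hc p
    have h2 : Continuous (fun y : E n => (innerSL ℝ y).smulRight y) := by
      have h3 : Continuous (fun z : (E n →L[ℝ] ℝ) × E n => z.1.smulRight z.2) :=
        (ContinuousLinearMap.smulRightL ℝ (E n) (E n)).continuous₂
      exact h3.comp ((innerSL ℝ).continuous.prodMk continuous_id)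
    exact ((h1.mul (by fun_prop)).smul h2).aestronglyMeasurable
  · rw [norm_smul, Real.norm_eq_abs, abs_mul, abs_of_pos (Real.exp_pos _), smulRight_norm]
    have h1 := G1_bd (norm_nonneg y) (hb y) hρ.le (inner_bd hp y)
    have h4 := norm_nonneg y
    calc |G1 (φ y) (inner ℝ p y)| * Real.exp (-‖y‖ ^ 2 / 2) * (‖y‖ * ‖y‖) ≤
        (2 * (1 + ‖y‖) ^ 2 * Real.exp (ρ ^ 2 * ‖y‖ ^ 2 / 2)) * Real.exp (-‖y‖ ^ 2 / 2) *
          ((1 + ‖y‖) * (1 + ‖y‖)) := by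
          gcongr <;> linarith
      _ = 2 * ((1 + ‖y‖) ^ 4 * (Real.exp (ρ ^ 2 * ‖y‖ ^ 2 / 2) * Real.exp (-‖y‖ ^ 2 / 2))) := by ring
      _ = _ := by rw [exp_split]

theorem LL_apply {ρ : ℝ} (hρ0 : 0 ≤ ρ) (hρ : ρ < 1) {p : E n} (hp : ‖p‖ ≤ ρ) {φ : E n → ℝ}
    (hφ : Bd φ) (a : E n) : LL p φ a =
      ∫ y, (G1 (φ y) (inner ℝ p y) * Real.exp (-‖y‖ ^ 2 / 2) * inner ℝ y a) • y := by
  unfold LL
  rw [ContinuousLinearMap.integral_apply (LL_int hρ0 hρ hp hφ)]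
  refine integral_congr_ae (ae_of_all _ fun y => ?_)
  simp only [smul_apply, ContinuousLinearMap.smulRight_apply, innerSL_apply_apply,
    smul_smul]

theorem LLa_int {ρ : ℝ} (hρ0 : 0 ≤ ρ) (hρ : ρ < 1) {p : E n} (hp : ‖p‖ ≤ ρ) {φ : E n → ℝ}
    (hφ : Bd φ) (a : E n) : Integrable (fun y =>
      (G1 (φ y) (inner ℝ p y) * Real.exp (-‖y‖ ^ 2 / 2) * inner ℝ y a) • y) := by
  refine ((LL_int hρ0 hρ hp hφ).apply_continuousLinearMap a).congr (ae_of_all _ fun y => ?_)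
  simp only [smul_apply, ContinuousLinearMap.smulRight_apply, innerSL_apply_apply,
    smul_smul]

/-- the key estimate -/
theorem strict {ρ : ℝ} (hρ0 : 0 ≤ ρ) (hρ : ρ < 1) : ∃ K : ℝ, 0 ≤ K ∧
    ∀ (p0 p p' : E n) (φ0 φ : E n → ℝ) (δ : ℝ), ‖p0‖ ≤ ρ → ‖p‖ ≤ ρ → ‖p'‖ ≤ ρ → Bd φ0 → Bd φ →
      0 ≤ δ → (∀ y, |φ y - φ0 y| ≤ δ * ‖y‖) → ‖p - p0‖ ≤ δ → ‖p' - p0‖ ≤ δ →
      ‖HH p φ - HH p' φ - LL p0 φ0 (p - p')‖ ≤ K * δ * ‖p - p'‖ := by
  have hc := cpos hρ0 hρ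
  refine ⟨7 * ∫ y : E n, (1 + ‖y‖) ^ 6 * Real.exp (-((1 - ρ ^ 2) / 2 * ‖y‖ ^ 2)), by positivity, ?_⟩
  intro p0 p p' φ0 φ δ hp0 hp hp' hφ0 hφ hδ hff hpp hpp'
  have e1 : HH p φ - HH p' φ - LL p0 φ0 (p - p') = ∫ y,
      (((φ y - inner ℝ p y) * W p y) • y - ((φ y - inner ℝ p' y) * W p' y) • y -
      (G1 (φ0 y) (inner ℝ p0 y) * Real.exp (-‖y‖ ^ 2 / 2) * inner ℝ y (p - p')) • y) := by
    have i1 := HH_int hρ0 hρ hp hφ
    have i2 := HH_int hρ0 hρ hp' hφ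
    have i3 := LLa_int hρ0 hρ hp0 hφ0 (p - p')
    rw [LL_apply hρ0 hρ hp0 hφ0]
    unfold HH
    rw [← integral_sub i1 i2]
    exact (integral_sub (i1.sub i2) i3).symm
  have hbi := (int_pe (n := n) 6 hc).const_mul (7 * δ * ‖p - p'‖)
  rw [e1]
  refine (norm_integral_le_of_norm_le hbi (ae_of_all _ fun y => ?_)).trans (le_of_eq ?_)
  · rw [integrand_eq p y φ, integrand_eq p' y φ, ← sub_smul, ← sub_smul, norm_smul, Real.norm_eq_abs]
    have h4 := norm_nonneg y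
    have hin : ∀ a b : E n, (inner ℝ a y : ℝ) - inner ℝ b y = inner ℝ (a - b) y := fun a b => by
      rw [inner_sub_left]
    have ht := G0_taylor (f := φ y) (f0 := φ0 y) (x := inner ℝ p y) (x' := inner ℝ p' y)
      (x0 := inner ℝ p0 y) (r := ‖y‖) (δ := δ) (ρ := ρ) h4 hρ.le hδ (hφ0.2 y) (inner_bd hp y)
      (inner_bd hp' y) (inner_bd hp0 y) (hff y) (by rw [hin]; exact inner_bd hpp y)
      (by rw [hin]; exact inner_bd hpp' y)
    have e2 : G0 (φ y) (inner ℝ p y) * Real.exp (-‖y‖ ^ 2 / 2) -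
        G0 (φ y) (inner ℝ p' y) * Real.exp (-‖y‖ ^ 2 / 2) -
        G1 (φ0 y) (inner ℝ p0 y) * Real.exp (-‖y‖ ^ 2 / 2) * inner ℝ y (p - p') =
        (G0 (φ y) (inner ℝ p y) - G0 (φ y) (inner ℝ p' y) -
          G1 (φ0 y) (inner ℝ p0 y) * (inner ℝ p y - inner ℝ p' y)) * Real.exp (-‖y‖ ^ 2 / 2) := by
      rw [inner_sub_right, real_inner_comm p y, real_inner_comm p' y]
      ring
    rw [e2, abs_mul, abs_of_pos (Real.exp_pos _)]
    have h5 : |(inner ℝ p y : ℝ) - inner ℝ p' y| ≤ ‖p - p'‖ * ‖y‖ := by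
      rw [hin]
      exact abs_real_inner_le_norm _ _
    calc |G0 (φ y) (inner ℝ p y) - G0 (φ y) (inner ℝ p' y) -
          G1 (φ0 y) (inner ℝ p0 y) * (inner ℝ p y - inner ℝ p' y)| * Real.exp (-‖y‖ ^ 2 / 2) * ‖y‖
        ≤ (7 * δ * (1 + ‖y‖) ^ 4 * Real.exp (ρ ^ 2 * ‖y‖ ^ 2 / 2) * (‖p - p'‖ * (1 + ‖y‖))) *
          Real.exp (-‖y‖ ^ 2 / 2) * (1 + ‖y‖) := by
          gcongr
          · refine ht.trans ?_
            gcongr
            refine h5.trans ?_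
            gcongr
            linarith
          · linarith
      _ = 7 * δ * ‖p - p'‖ * ((1 + ‖y‖) ^ 6 *
          (Real.exp (ρ ^ 2 * ‖y‖ ^ 2 / 2) * Real.exp (-‖y‖ ^ 2 / 2))) := by ring
      _ = _ := by rw [exp_split]
  · rw [integral_const_mul]
    ring

theorem HH_hasFDerivAt {ρ : ℝ} (hρ0 : 0 ≤ ρ) (hρ : ρ < 1) {p : E n} (hp : ‖p‖ < ρ)
    {φ : E n → ℝ} (hφ : Bd φ) : HasFDerivAt (fun p' => HH p' φ) (LL p φ) p := by
  obtain ⟨K, hK, h⟩ := strict (n := n) hρ0 hρ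
  rw [hasFDerivAt_iff_isLittleO, Asymptotics.isLittleO_iff]
  intro ε hε
  have h1 : ∀ᶠ p' in 𝓝 p, ‖p' - p‖ < ε / (K + 1) ∧ ‖p'‖ < ρ := by
    refine Filter.Eventually.and ?_ ?_
    · have := ball_mem_nhds p (ε := ε / (K + 1)) (by positivity)
      filter_upwards [this] with q hq
      rwa [mem_ball, dist_eq_norm] at hq
    · exact (isOpen_lt continuous_norm continuous_const).mem_nhds hp
  filter_upwards [h1] with p' hp'
  have h2 := h p p' p φ φ ‖p' - p‖ hp.le hp'.2.le hp.le hφ hφ (norm_nonneg _) (fun y => by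
    rw [sub_self, abs_zero]; positivity) le_rfl (by rw [sub_self, norm_zero]; exact norm_nonneg _)
  refine h2.trans ?_
  gcongr
  have h3 := hp'.1.le
  rw [le_div_iff₀ (by positivity)] at h3
  nlinarith [norm_nonneg (p' - p)]

/-- Lipschitz dependence on the function -/
theorem HH_lip {ρ : ℝ} (hρ0 : 0 ≤ ρ) (hρ : ρ < 1) : ∃ K : ℝ, 0 ≤ K ∧
    ∀ (p : E n) (φ φ' : E n → ℝ) (δ : ℝ), ‖p‖ ≤ ρ → Bd φ → Bd φ' → 0 ≤ δ →
      (∀ y, |φ y - φ' y| ≤ δ * ‖y‖) → ‖HH p φ - HH p φ'‖ ≤ K * δ := by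
  have hc := cpos hρ0 hρ
  refine ⟨∫ y : E n, (1 + ‖y‖) ^ 2 * Real.exp (-((1 - ρ ^ 2) / 2 * ‖y‖ ^ 2)), by positivity, ?_⟩
  intro p φ φ' δ hp hφ hφ' hδ hff
  have e1 : HH p φ - HH p φ' = ∫ y, (((φ y - inner ℝ p y) * W p y) • y -
      ((φ' y - inner ℝ p y) * W p y) • y) := by
    unfold HH
    exact (integral_sub (HH_int hρ0 hρ hp hφ) (HH_int hρ0 hρ hp hφ')).symm
  have hbi := (int_pe (n := n) 2 hc).const_mul δ
  rw [e1]
  refine (norm_integral_le_of_norm_le hbi (ae_of_all _ fun y => ?_)).trans (le_of_eq ?_)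
  · rw [← sub_smul, norm_smul, Real.norm_eq_abs]
    have e2 : (φ y - inner ℝ p y) * W p y - (φ' y - inner ℝ p y) * W p y =
        (φ y - φ' y) * W p y := by ring
    rw [e2, abs_mul, abs_of_pos (W_pos p y)]
    have h3 := W_le hp y
    have h4 := norm_nonneg y
    have h5 := hff y
    calc |φ y - φ' y| * W p y * ‖y‖ ≤
        (δ * (1 + ‖y‖)) * Real.exp (-((1 - ρ ^ 2) / 2 * ‖y‖ ^ 2)) * (1 + ‖y‖) := by
          have := W_pos p y
          gcongr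
          · refine h5.trans ?_
            gcongr
            linarith
          · linarith
      _ = _ := by ring
  · rw [integral_const_mul]
    ring

/-- differentiation with respect to a parameter of the function -/
theorem HH_chart {ρ : ℝ} (hρ0 : 0 ≤ ρ) (hρ : ρ < 1) {p : E n} (hp : ‖p‖ ≤ ρ)
    {φ : E n → E n → ℝ} (hφ : ∀ c, Bd (φ c)) {c₀ : E n} {r K : ℝ} (hr : 0 < r)
    (hK : ∀ c ∈ ball c₀ r, ∀ y, |φ c y - φ c₀ y| ≤ K * ‖c - c₀‖ * ‖y‖)
    {D : E n → E n →L[ℝ] ℝ} (hD : Measurable D)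
    (hDer : ∀ᵐ y ∂(volume : Measure (E n)), HasFDerivAt (fun c => φ c y) (D y) c₀) :
    ∃ T : E n →L[ℝ] E n, HasFDerivAt (fun c => HH p (φ c)) T c₀ ∧
      ∀ v, T v = ∫ y, (D y v * W p y) • y := by
  have hc := cpos hρ0 hρ
  set F : E n → E n → E n := fun c y => ((φ c y - inner ℝ p y) * W p y) • y with hF
  set F' : E n → E n →L[ℝ] E n := fun y => (D y).smulRight (W p y • y) with hF'
  set bound : E n → ℝ := fun y => |K| * ((1 + ‖y‖) ^ 2 *
    Real.exp (-((1 - ρ ^ 2) / 2 * ‖y‖ ^ 2))) with hbound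
  have hWc : Continuous (fun y : E n => W p y) := by
    unfold W
    fun_prop
  have hFc : ∀ c : E n, Continuous (F c) := by
    intro c
    have := (hφ c).1
    rw [hF]
    exact ((this.sub (by fun_prop)).mul hWc).smul continuous_id
  have hbi : Integrable bound := (int_pe 2 hc).const_mul _
  have hF'm : AEStronglyMeasurable F' volume := by
    have h1 : Measurable (fun y : E n => W p y • y) := (hWc.smul continuous_id).measurable
    have h2 : Continuous (fun z : (E n →L[ℝ] ℝ) × E n => z.1.smulRight z.2) :=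
      (ContinuousLinearMap.smulRightL ℝ (E n) (E n)).continuous₂
    exact (h2.measurable.comp (hD.prodMk h1)).aestronglyMeasurable
  have key := hasFDerivAt_integral_of_dominated_loc_of_lip' (μ := (volume : Measure (E n))) (F := F)
    (F' := F') (x₀ := c₀) (bound := bound) (s := ball c₀ r) (ball_mem_nhds c₀ hr)
    (fun c _ => (hFc c).aestronglyMeasurable) (HH_int hρ0 hρ hp (hφ c₀)) hF'm ?_ hbi ?_
  · obtain ⟨k1, k2⟩ := key
    refine ⟨∫ y, F' y, k2, ?_⟩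
    intro v
    rw [ContinuousLinearMap.integral_apply k1]
    refine integral_congr_ae (ae_of_all _ fun y => ?_)
    simp only [hF', ContinuousLinearMap.smulRight_apply, smul_smul]
  · refine ae_of_all _ fun y c' hc' => ?_
    have e1 : F c' y - F c₀ y = ((φ c' y - φ c₀ y) * W p y) • y := by
      simp only [hF]
      rw [← sub_smul]
      congr 1
      ring
    rw [e1, norm_smul, Real.norm_eq_abs, abs_mul, abs_of_pos (W_pos p y)]
    have h2 := hK c' hc' y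
    have h3 := W_le hp y
    have h4 := norm_nonneg y
    calc |φ c' y - φ c₀ y| * W p y * ‖y‖ ≤
        (|K| * ‖c' - c₀‖ * (1 + ‖y‖)) * Real.exp (-((1 - ρ ^ 2) / 2 * ‖y‖ ^ 2)) * (1 + ‖y‖) := by
          have := W_pos p y
          gcongr
          · refine h2.trans ?_
            gcongr
            · exact le_abs_self K
            · linarith
          · linarith
      _ = _ := by
          rw [hbound]
          ring
  · filter_upwards [hDer] with y hy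
    have h3 : HasFDerivAt (fun c => ((φ c y - inner ℝ p y) * W p y) • y) (F' y) c₀ := by
      have h4 := ((hy.sub_const (inner ℝ p y)).mul_const (W p y)).smul_const y
      refine h4.congr_fderiv ?_
      ext v
      simp [hF', smul_smul, mul_comm]
    exact h3

end Pool.Agent.Q183.CN
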