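import Pool.Agent.Q183.CN.B
import Pool.Agent.Q272.FC.BA
import Pool.Agent.Q280.FC.CB
import Pool.Agent.Q280.FC.SB

/-!
# Change of variables: the field in terms of the hat function

`sh p φ z = φ (N_p z) - γ⟨p,z⟩`, `γ = lf p`, `N_p = NN p`.
-/

set_option autoImplicit false

open MeasureTheory Metric Set Filter Topology

namespace Pool.Agent.Q183.CN

open Pool.Agent.W716.FV (E gam gd)
open Pool.Agent.Q188.FC (Cc lf NN NNL NI mv sv)
open Pool.Agent.Q53.FC.GH (int_gam integrable_gam gd_cont gd_nonneg)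

variable {n : ℕ}

/-- the constant `(2π)^(n/2)` -/
noncomputable def kn (n : ℕ) : ℝ := √(2 * Real.pi) ^ n

theorem kn_pos (n : ℕ) : 0 < kn n := by
  unfold kn
  positivity

/-- the hat function -/
noncomputable def sh (p : E n) (φ : E n → ℝ) (z : E n) : ℝ := φ (NN p z) - lf p * inner ℝ p z

theorem kn_gd (z : E n) : kn n * gd n z = Real.exp (-‖z‖ ^ 2 / 2) := by
  unfold kn gd
  rw [← mul_assoc, ← mul_pow, mul_inv_cancel₀ (by positivity), one_pow, one_mul]

/-- facts on the boost -/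
theorem bst {p : E n} (hp : ‖p‖ < 1) :
    1 ≤ lf p ∧ lf p ^ 2 * (1 - ‖p‖ ^ 2) = 1 ∧ (∀ v, NNL p v = NN p v) ∧ (NNL p).det = lf p ∧
    (∀ v w : E n, (inner ℝ (NN p v) (NN p w) : ℝ) =
      inner ℝ v w + lf p ^ 2 * (inner ℝ p v * inner ℝ p w)) ∧
    (∀ v w : E n, (inner ℝ (NN p v) w : ℝ) = inner ℝ v (NN p w)) ∧
    (∀ v : E n, (inner ℝ p (NN p v) : ℝ) = lf p * inner ℝ p v) ∧
    (∀ v, NI p (NN p v) = v) ∧ (∀ v, NN p (NI p v) = v) := by
  obtain ⟨h1, h2, -, h4, h5, h6, h7, h8, h9, h10, -⟩ := Pool.Agent.Q272.FC.BA.main n p hp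
  exact ⟨h1, h2, h4, h5, h6, h7, h8, h9, h10⟩

theorem nn_sq {p : E n} (hp : ‖p‖ < 1) (z : E n) :
    ‖NN p z‖ ^ 2 = ‖z‖ ^ 2 + (lf p * inner ℝ p z) ^ 2 := by
  obtain ⟨-, -, -, -, h, -⟩ := bst hp
  have h1 := h z z
  rw [real_inner_self_eq_norm_sq, real_inner_self_eq_norm_sq] at h1
  rw [h1]
  ring

theorem tau_sq {p : E n} (hp : ‖p‖ < 1) : lf p ^ 2 * ‖p‖ ^ 2 = lf p ^ 2 - 1 := by
  obtain ⟨-, h2, -⟩ := bst hp
  linarith

theorem nn_le {p : E n} (hp : ‖p‖ < 1) (z : E n) : ‖NN p z‖ ≤ lf p * ‖z‖ := by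
  obtain ⟨h1, -⟩ := bst hp
  apply le_of_sq_le_sq _ (by positivity)
  rw [nn_sq hp, mul_pow, mul_pow]
  have h2 := tau_sq hp
  have h3 : (inner ℝ p z : ℝ) ^ 2 ≤ ‖p‖ ^ 2 * ‖z‖ ^ 2 := by
    rw [← mul_pow, ← sq_abs]
    exact pow_le_pow_left₀ (abs_nonneg _) (abs_real_inner_le_norm p z) 2
  have h4 : lf p ^ 2 * (inner ℝ p z : ℝ) ^ 2 ≤ lf p ^ 2 * (‖p‖ ^ 2 * ‖z‖ ^ 2) := by gcongr
  nlinarith

theorem W_nn {p : E n} (hp : ‖p‖ < 1) (z : E n) : W p (NN p z) = kn n * gd n z := by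
  obtain ⟨-, -, -, -, -, -, h, -⟩ := bst hp
  rw [kn_gd]
  unfold W
  rw [h, nn_sq hp]
  congr 1
  ring

/-- the linear equivalence -/
noncomputable def eqv {p : E n} (hp : ‖p‖ < 1) : E n ≃L[ℝ] E n :=
  (NNL p).toContinuousLinearEquivOfDetNeZero (by
    rw [(bst hp).2.2.2.1]
    have := (bst hp).1
    positivity)

theorem eqv_apply {p : E n} (hp : ‖p‖ < 1) (z : E n) : eqv hp z = NN p z := by
  have h : eqv hp z = NNL p z := rfl
  rw [h, (bst hp).2.2.1]

theorem map_vol {p : E n} (hp : ‖p‖ < 1) :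
    Measure.map (NN p) (volume : Measure (E n)) = ENNReal.ofReal (lf p)⁻¹ • volume := by
  obtain ⟨h1, -, h3, h4, -⟩ := bst hp
  have hd : LinearMap.det (NNL p : E n →ₗ[ℝ] E n) = lf p := h4
  have h5 := Measure.map_linearMap_addHaar_eq_smul_addHaar (volume : Measure (E n))
    (f := (NNL p : E n →ₗ[ℝ] E n)) (by rw [hd]; positivity)
  rw [hd, abs_of_nonneg (by positivity)] at h5
  have h6 : ((NNL p : E n →ₗ[ℝ] E n) : E n → E n) = NN p := by
    funext z
    exact h3 z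
  rwa [h6] at h5

theorem emb {p : E n} (hp : ‖p‖ < 1) : MeasurableEmbedding (NN p) := by
  have h := (eqv hp).toHomeomorph.measurableEmbedding
  have h2 : ((eqv hp).toHomeomorph : E n → E n) = NN p := by
    funext z
    exact eqv_apply hp z
  rwa [h2] at h

/-- change of variables -/
theorem cov {V : Type} [NormedAddCommGroup V] [NormedSpace ℝ V] {p : E n} (hp : ‖p‖ < 1)
    (f : E n → V) : ∫ y, W p y • f y = (lf p * kn n) • ∫ z, f (NN p z) ∂(gam n) := by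
  obtain ⟨h1, -⟩ := bst hp
  have hl : 0 < lf p := by linarith
  have e1 : ∫ z, W p (NN p z) • f (NN p z) = (lf p)⁻¹ • ∫ y, W p y • f y := by
    have h2 := (emb hp).integral_map (μ := (volume : Measure (E n))) (fun y => W p y • f y)
    rw [← h2, map_vol hp, integral_smul_measure, ENNReal.toReal_ofReal (by positivity)]
  have e2 : ∫ z, W p (NN p z) • f (NN p z) = kn n • ∫ z, f (NN p z) ∂(gam n) := by
    rw [int_gam, ← integral_smul]
    refine integral_congr_ae (ae_of_all _ fun z => ?_)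
    simp only
    rw [W_nn hp, mul_smul]
  rw [mul_smul, ← e2, e1, smul_smul, mul_inv_cancel₀ hl.ne', one_smul]

theorem cov_int {V : Type} [NormedAddCommGroup V] [NormedSpace ℝ V] {p : E n} (hp : ‖p‖ < 1)
    (f : E n → V) : Integrable (fun y => W p y • f y) ↔
      Integrable (fun z => f (NN p z)) (gam n) := by
  obtain ⟨h1, -⟩ := bst hp
  have hl : 0 < lf p := by linarith
  have e1 : Integrable (fun y => W p y • f y) ↔
      Integrable (fun z => W p (NN p z) • f (NN p z)) := by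
    have h2 := (emb hp).integrable_map_iff (μ := (volume : Measure (E n)))
      (g := fun y => W p y • f y)
    rw [map_vol hp, integrable_smul_measure (by simpa using hl) ENNReal.ofReal_ne_top] at h2
    exact h2
  rw [e1, integrable_gam]
  have e2 : (fun z => W p (NN p z) • f (NN p z)) = fun z => kn n • (gd n z • f (NN p z)) := by
    funext z
    rw [W_nn hp, mul_smul]
  rw [e2, integrable_fun_smul_iff (kn_pos n).ne']

/-- the field in terms of the hat -/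
theorem HH_hat {ρ : ℝ} (hρ0 : 0 ≤ ρ) (hρ : ρ < 1) {p : E n} (hp : ‖p‖ ≤ ρ) {φ : E n → ℝ}
    (hφ : Bd φ) : Integrable (fun z => sh p φ z • z) (gam n) ∧
      HH p φ = (lf p * kn n) • NN p (mv (sh p φ)) := by
  have hp1 : ‖p‖ < 1 := hp.trans_lt hρ
  obtain ⟨h1, -, h3, -, -, -, h7, h8, -⟩ := bst hp1
  have e1 : (fun y => ((φ y - inner ℝ p y) * W p y) • y) =
      fun y => W p y • ((φ y - inner ℝ p y) • y) := by
    funext y
    rw [smul_smul, mul_comm]
  have i1 := HH_int hρ0 hρ hp hφ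
  rw [e1, cov_int hp1] at i1
  have e2 : (fun z => (φ (NN p z) - inner ℝ p (NN p z)) • NN p z) =
      fun z => NNL p (sh p φ z • z) := by
    funext z
    rw [map_smul, h3, h7]
    rfl
  rw [e2] at i1
  have i2 : Integrable (fun z => sh p φ z • z) (gam n) := by
    have h4 := (eqv hp1).integrable_comp_iff (φ := fun z => sh p φ z • z) (μ := gam n)
    refine h4.1 ?_
    refine i1.congr (ae_of_all _ fun z => ?_)
    simp only
    rw [eqv_apply, h3]
  refine ⟨i2, ?_⟩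
  unfold HH
  rw [e1, cov hp1]
  simp only [e2]
  congr 1
  rw [(NNL p).integral_comp_comm i2, h3]
  rfl

theorem NN_inj {p : E n} (hp : ‖p‖ < 1) {v : E n} (h : NN p v = 0) : v = 0 := by
  obtain ⟨-, -, -, -, -, -, -, h8, -⟩ := bst hp
  rw [← h8 v, h]
  unfold NI
  simp

theorem HH_zero {ρ : ℝ} (hρ0 : 0 ≤ ρ) (hρ : ρ < 1) {p : E n} (hp : ‖p‖ ≤ ρ) {φ : E n → ℝ}
    (hφ : Bd φ) : HH p φ = 0 ↔ mv (sh p φ) = 0 := by
  have hp1 : ‖p‖ < 1 := hp.trans_lt hρ
  obtain ⟨h1, -, h3, -⟩ := bst hp1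
  have hl : 0 < lf p := by linarith
  rw [(HH_hat hρ0 hρ hp hφ).2, smul_eq_zero_iff_right (mul_pos hl (kn_pos n)).ne']
  constructor
  · exact NN_inj hp1
  · intro h
    rw [h, ← h3, map_zero]

/-- the derivative in terms of the hat -/
theorem LL_hat {ρ : ℝ} (hρ0 : 0 ≤ ρ) (hρ : ρ < 1) {p : E n} (hp : ‖p‖ ≤ ρ) {φ : E n → ℝ}
    (hφ : Bd φ) (a a' : E n) : (inner ℝ (LL p φ a) a' : ℝ) = -(lf p * kn n) *
      ∫ z, (1 - sh p φ z * (lf p * inner ℝ p z)) *
        (inner ℝ (NN p a) z * inner ℝ (NN p a') z) ∂(gam n) := by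
  have hp1 : ‖p‖ < 1 := hp.trans_lt hρ
  obtain ⟨h1, -, h3, -, -, h6, h7, h8, -⟩ := bst hp1
  rw [LL_apply hρ0 hρ hp hφ, real_inner_comm, ← integral_inner (LLa_int hρ0 hρ hp hφ a)]
  have e1 : (fun y => (inner ℝ a' ((G1 (φ y) (inner ℝ p y) * Real.exp (-‖y‖ ^ 2 / 2) *
      inner ℝ y a) • y) : ℝ)) = fun y => W p y •
      (-((1 - (φ y - inner ℝ p y) * inner ℝ p y) * (inner ℝ a y * inner ℝ a' y))) := by
    funext y
    rw [real_inner_smul_right, smul_eq_mul, W_eq, real_inner_comm a y]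
    unfold G1
    ring
  rw [e1, cov hp1, smul_eq_mul, neg_mul, ← mul_neg, ← integral_neg]
  congr 1
  refine integral_congr_ae (ae_of_all _ fun z => ?_)
  simp only
  rw [h7, ← h6 a z, ← h6 a' z]
  rfl

theorem T_hat {p : E n} (hp : ‖p‖ < 1) {D : E n → E n →L[ℝ] ℝ} {v : E n}
    (hi : Integrable (fun y => (D y v * W p y) • y)) :
    Integrable (fun z => (D (NN p z) v) • z) (gam n) ∧
    ∫ y, (D y v * W p y) • y = (lf p * kn n) • NN p (∫ z, (D (NN p z) v) • z ∂(gam n)) := by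
  obtain ⟨h1, -, h3, -⟩ := bst hp
  have e1 : (fun y => (D y v * W p y) • y) = fun y => W p y • ((D y v) • y) := by
    funext y
    rw [smul_smul, mul_comm]
  rw [e1, cov_int hp] at hi
  have e2 : (fun z => (D (NN p z) v) • NN p z) = fun z => NNL p ((D (NN p z) v) • z) := by
    funext z
    rw [map_smul, h3]
  rw [e2] at hi
  have i2 : Integrable (fun z => (D (NN p z) v) • z) (gam n) := by
    have h4 := (eqv hp).integrable_comp_iff (φ := fun z => (D (NN p z) v) • z) (μ := gam n)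
    refine h4.1 ?_
    refine hi.congr (ae_of_all _ fun z => ?_)
    simp only
    rw [eqv_apply, h3]
  refine ⟨i2, ?_⟩
  rw [e1, cov hp]
  simp only [e2]
  congr 1
  rw [(NNL p).integral_comp_comm i2, h3]

/-- the hat is of class `Cc` -/
theorem sh_cc {κ ρ : ℝ} (hκ : 0 ≤ κ) {p : E n} (hp : ‖p‖ ≤ ρ) (hp1 : ‖p‖ < 1) {φ : E n → ℝ}
    (hφ : Ck κ ρ φ) (hl : (κ + ρ) * lf p ≤ 1) : Cc (sh p φ) := by
  obtain ⟨h1, -, h3, -⟩ := bst hp1
  refine ⟨fun x y => ?_, fun t x => ?_⟩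
  · have e1 : sh p φ x - sh p φ y = (φ (NN p x) - φ (NN p y)) - lf p * inner ℝ p (x - y) := by
      unfold sh
      rw [inner_sub_right]
      ring
    have e2 : NN p x - NN p y = NN p (x - y) := by rw [← h3, ← h3, ← h3, map_sub]
    have h4 := hφ.lip (NN p x) (NN p y)
    rw [e2] at h4
    have h5 := nn_le hp1 (x - y)
    have h6 : |(inner ℝ p (x - y) : ℝ)| ≤ ρ * ‖x - y‖ := inner_bd hp _
    rw [e1]
    refine (abs_sub _ _).trans ?_
    rw [abs_mul, abs_of_nonneg (by linarith : (0 : ℝ) ≤ lf p)]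
    calc |φ (NN p x) - φ (NN p y)| + lf p * |(inner ℝ p (x - y) : ℝ)| ≤
        κ * (lf p * ‖x - y‖) + lf p * (ρ * ‖x - y‖) := by
          gcongr
          exact h4.trans (by gcongr)
      _ = ((κ + ρ) * lf p) * ‖x - y‖ := by ring
      _ ≤ 1 * ‖x - y‖ := by gcongr
      _ = _ := one_mul _
  · unfold sh
    have e2 : NN p (t • x) = t • NN p x := by rw [← h3, ← h3, map_smul]
    rw [e2, hφ.hom, inner_smul_right]
    ring

end Pool.Agent.Q183.CN
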