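import Pool.Agent.Q183.CN.C
import Pool.Agent.Q188.FC.Fin

/-!
# Gaussian estimates for the hat function
-/

set_option autoImplicit false

open MeasureTheory Metric Set Filter Topology

namespace Pool.Agent.Q183.CN

open Pool.Agent.W716.FV (E gam gd)
open Pool.Agent.Q188.FC (Cc lf NN NNL NI mv sv hs qp PB PL)
open Pool.Agent.H241R3.FV (act mat det_mat)
open Pool.Agent.Q280.FC (pb_mono pb_const pb_norm pb_mul pb_add pb_sub pb_pow pb_inner pb_apply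
  pb_sum pb_intc cs cc_cont cc_pb inner_int int_inner_sq qp_cont qp_pb)

variable {n : ℕ}

/-- the parameters -/
structure Par (n : ℕ) (κ ρ : ℝ) : Prop where
  n0 : 0 < n
  k0 : 0 ≤ κ
  r0 : 0 < ρ
  r13 : 13 * ρ ^ 2 ≤ 1
  kr : κ + ρ ≤ 24 / 25

theorem Par.r1 {κ ρ : ℝ} (h : Par n κ ρ) : ρ < 1 := by
  have h1 := h.r13
  have h2 := h.r0
  nlinarith

/-- consequences of the conditions on the parameters; `τ = lf p * ‖p‖` -/
theorem Par.tau {κ ρ : ℝ} (h : Par n κ ρ) {p : E n} (hp : ‖p‖ ≤ ρ) :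
    lf p ≤ 25 / 24 ∧ 12 * (lf p * ‖p‖) ^ 2 ≤ 1 := by
  have hρ1 := h.r1
  have hp1 : ‖p‖ < 1 := hp.trans_lt hρ1
  obtain ⟨h1, h2, -⟩ := bst hp1
  have hr0 := h.r0
  have hr13 := h.r13
  have hpp : ‖p‖ ^ 2 ≤ ρ ^ 2 := pow_le_pow_left₀ (norm_nonneg p) hp 2
  set l := lf p with hl
  set a := (1 : ℝ) - ρ ^ 2 with ha
  have ha0 : 0 < a := by rw [ha]; nlinarith
  set t := (l * ‖p‖) ^ 2 with ht
  have ht0 : 0 ≤ t := sq_nonneg _
  have h3 : a * t ≤ ρ ^ 2 := by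
    have e : l ^ 2 * (1 - ‖p‖ ^ 2) * ‖p‖ ^ 2 = ‖p‖ ^ 2 := by rw [h2, one_mul]
    have e2 : a * t ≤ (1 - ‖p‖ ^ 2) * t := by
      apply mul_le_mul_of_nonneg_right _ ht0
      rw [ha]; linarith
    have e3 : (1 - ‖p‖ ^ 2) * t = l ^ 2 * (1 - ‖p‖ ^ 2) * ‖p‖ ^ 2 := by rw [ht]; ring
    rw [e3, e] at e2
    exact e2.trans hpp
  have h5 : 12 * t ≤ 1 := by
    have e2 : a * (12 * t) ≤ a * 1 := by
      rw [ha] at h3 ⊢
      nlinarith
    exact le_of_mul_le_mul_left e2 ha0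
  refine ⟨?_, h5⟩
  have e1 : l ^ 2 ≤ (25 / 24) ^ 2 := by
    have e2 : l ^ 2 = 1 + t := by rw [ht]; nlinarith
    rw [e2]
    linarith
  exact le_of_sq_le_sq e1 (by norm_num)

theorem Par.cc {κ ρ : ℝ} (h : Par n κ ρ) {p : E n} (hp : ‖p‖ ≤ ρ) {φ : E n → ℝ}
    (hφ : Ck κ ρ φ) : Cc (sh p φ) := by
  have hp1 : ‖p‖ < 1 := hp.trans_lt h.r1
  obtain ⟨h1, -⟩ := bst hp1
  obtain ⟨t1, -⟩ := h.tau hp
  refine sh_cc h.k0 hp hp1 hφ ?_
  have h2 := h.kr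
  have h3 := h.k0
  have h4 := h.r0
  calc (κ + ρ) * lf p ≤ 24 / 25 * (25 / 24) := by gcongr
    _ = 1 := by norm_num

theorem int_nsq : ∫ z : E n, ‖z‖ ^ 2 ∂(gam n) = n := (Pool.Agent.W933.FVGM.main n).2.2.2.2

theorem cont_inner (u : E n) : Continuous fun z : E n => (inner ℝ u z : ℝ) := by fun_prop

/-- fourth moments -/
theorem mom4 (u v : E n) : ∫ z, (inner ℝ u z : ℝ) ^ 2 * (inner ℝ v z : ℝ) ^ 2 ∂(gam n) =
    ‖u‖ ^ 2 * ‖v‖ ^ 2 + 2 * (inner ℝ u v : ℝ) ^ 2 := by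
  have h := (Pool.Agent.Q188.FC.gm n).1 u v v
  rw [real_inner_self_eq_norm_sq] at h
  have e : (fun z => (inner ℝ u z : ℝ) ^ 2 * (inner ℝ v z : ℝ) ^ 2) =
      fun z => inner ℝ u z ^ 2 * (inner ℝ v z * inner ℝ v z) := by
    funext z
    ring
  rw [e, h]
  ring

theorem inner_sq_le (u v : E n) : (inner ℝ u v : ℝ) ^ 2 ≤ ‖u‖ ^ 2 * ‖v‖ ^ 2 := by
  rw [← mul_pow, ← sq_abs]
  exact pow_le_pow_left₀ (abs_nonneg _) (abs_real_inner_le_norm u v) 2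

theorem int_nsq_inner (b : E n) : ∫ z : E n, ‖z‖ ^ 2 * (inner ℝ b z : ℝ) ^ 2 ∂(gam n) =
    (n + 2) * ‖b‖ ^ 2 := by
  have hpl : PL (fun z : E n => (inner ℝ b z : ℝ) ^ 2) := by
    have h := (Pool.Agent.Q188.FC.pl n).2.2.2.2.1 b
    have h2 := ((Pool.Agent.Q188.FC.pl n).2.1 _ _ h h).2.2
    have e : (fun z : E n => (inner ℝ b z : ℝ) ^ 2) = fun z => inner ℝ b z * inner ℝ b z := by
      funext z
      ring
    rw [e]
    exact h2
  have h := (Pool.Agent.Q53.FC.CM.hom_two Pool.Agent.Q188.FC.pl hpl (fun t z => by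
    rw [inner_smul_right]; ring)).2.2
  rw [h, int_inner_sq]

/-- the functions `φ ∘ N_p` -/
theorem comp_pb {κ ρ : ℝ} {p : E n} (hp1 : ‖p‖ < 1) {φ : E n → ℝ} (hφ : Ck κ ρ φ) :
    Continuous (fun z => φ (NN p z)) ∧ PB (fun z => φ (NN p z)) := by
  obtain ⟨h1, -, h3, -⟩ := bst hp1
  constructor
  · have e : (fun z => φ (NN p z)) = fun z => φ (NNL p z) := by
      funext z
      rw [h3]
    rw [e]
    exact (ck_cont hφ).comp (NNL p).continuous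
  · refine pb_mono (pb_mul (pb_const (|ρ| * lf p)) pb_norm) fun z => ?_
    refine (hφ.le _).trans ?_
    rw [abs_mul, abs_of_nonneg (norm_nonneg z)]
    have h4 := nn_le hp1 z
    calc ρ * ‖NN p z‖ ≤ |ρ| * (lf p * ‖z‖) := by
          gcongr
          exact le_abs_self ρ
      _ ≤ |(|ρ| * lf p)| * ‖z‖ := by
          rw [← mul_assoc]
          gcongr
          exact le_abs_self _

theorem phi_sq_le {κ ρ : ℝ} {p : E n} (hp1 : ‖p‖ < 1) {φ : E n → ℝ} (hφ : Ck κ ρ φ) (z : E n) :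
    φ (NN p z) ^ 2 ≤ ρ ^ 2 * (‖z‖ ^ 2 + (lf p * inner ℝ p z) ^ 2) := by
  have h := hφ.le (NN p z)
  rw [← nn_sq hp1, ← mul_pow, ← sq_abs]
  exact pow_le_pow_left₀ (abs_nonneg _) h 2

/-- a fourth order moment of functions of class `Cc` -/
theorem cc_four {s : E n → ℝ} (hs : Cc s) (b : E n) :
    ∫ z, (s z * inner ℝ b z) ^ 2 ∂(gam n) ≤ 3 * ‖b‖ ^ 2 := by
  obtain ⟨h1, h2⟩ := Pool.Agent.Q188.FC.xu n s hs
  obtain ⟨h3, -⟩ := h2 b
  have cs := cc_cont hs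
  have ps := cc_pb hs
  have ci := cont_inner b
  have pi := pb_inner b
  have i1 : Integrable (fun z : E n => (s z * inner ℝ b z) ^ 2) (gam n) :=
    pb_intc ((cs.mul ci).pow 2) (pb_pow (pb_mul ps pi) 2)
  have i2 : Integrable (fun z : E n => s z ^ 2) (gam n) := pb_intc (cs.pow 2) (pb_pow ps 2)
  have e1 : Pool.Agent.Q188.FC.qX s b b = 1 / 2 * (∫ z, (s z * inner ℝ b z) ^ 2 ∂(gam n) -
      ‖b‖ ^ 2 * sv s) := by
    unfold Pool.Agent.Q188.FC.qX Pool.Agent.Q188.FC.sv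
    congr 1
    rw [← integral_const_mul (‖b‖ ^ 2), ← integral_sub i1 (i2.const_mul _)]
    refine integral_congr_ae (ae_of_all _ fun z => ?_)
    simp only
    rw [real_inner_self_eq_norm_sq]
    ring
  rw [e1] at h3
  have h4 : ‖b‖ ^ 2 * sv s ≤ ‖b‖ ^ 2 * 1 := mul_le_mul_of_nonneg_left h1 (sq_nonneg _)
  linarith

/-- strong monotonicity -/
theorem mono_gauss {κ ρ : ℝ} (h : Par n κ ρ) {p : E n} (hp : ‖p‖ ≤ ρ) {φ : E n → ℝ}
    (hφ : Ck κ ρ φ) (b : E n) : ‖b‖ ^ 2 / 8 ≤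
      ∫ z, (1 - sh p φ z * (lf p * inner ℝ p z)) * (inner ℝ b z * inner ℝ b z) ∂(gam n) := by
  have hρ1 := h.r1
  have hp1 : ‖p‖ < 1 := hp.trans_lt hρ1
  obtain ⟨h1, -⟩ := bst hp1
  obtain ⟨t1, t2⟩ := h.tau hp
  have hl : 0 < lf p := by linarith
  have hc := h.cc hp hφ
  have c1 := cc_cont hc
  have c2 := cc_pb hc
  have ci := cont_inner b
  have cp := cont_inner p
  have pi := pb_inner b
  have pp := pb_inner p
  -- the two factors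
  set f : E n → ℝ := fun z => sh p φ z * inner ℝ b z with hf
  set g : E n → ℝ := fun z => (lf p * inner ℝ p z) * inner ℝ b z with hg
  have cf : Continuous f := c1.mul ci
  have cg : Continuous g := (continuous_const.mul cp).mul ci
  have pf : PB f := pb_mul c2 pi
  have pg : PB g := pb_mul (pb_mul (pb_const _) pp) pi
  have hcs := cs (pb_intc (cf.pow 2) (pb_pow pf 2)) (pb_intc (cg.pow 2) (pb_pow pg 2))
    (pb_intc (cf.mul cg) (pb_mul pf pg))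
  have hg2 : ∫ z, g z ^ 2 ∂(gam n) ≤ 3 * (lf p * ‖p‖) ^ 2 * ‖b‖ ^ 2 := by
    have e : (fun z => g z ^ 2) = fun z => lf p ^ 2 * ((inner ℝ p z : ℝ) ^ 2 * (inner ℝ b z : ℝ) ^ 2) := by
      funext z
      rw [hg]
      ring
    rw [e, integral_const_mul, mom4]
    have := inner_sq_le p b
    have h5 : lf p ^ 2 * (‖p‖ ^ 2 * ‖b‖ ^ 2 + 2 * (inner ℝ p b : ℝ) ^ 2) ≤
        lf p ^ 2 * (‖p‖ ^ 2 * ‖b‖ ^ 2 + 2 * (‖p‖ ^ 2 * ‖b‖ ^ 2)) := by gcongr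
    refine h5.trans (le_of_eq (by ring))
  have hf2 : ∫ z, f z ^ 2 ∂(gam n) ≤ 3 * ‖b‖ ^ 2 := cc_four hc b
  have hfg : |∫ z, f z * g z ∂(gam n)| ≤ 7 / 8 * ‖b‖ ^ 2 := by
    apply abs_le_of_sq_le_sq _ (by positivity)
    have hf0 : 0 ≤ ∫ z, f z ^ 2 ∂(gam n) := integral_nonneg fun z => sq_nonneg _
    have hg0 : 0 ≤ ∫ z, g z ^ 2 ∂(gam n) := integral_nonneg fun z => sq_nonneg _
    set t := (lf p * ‖p‖) ^ 2 with ht
    have ht0 : 0 ≤ t := sq_nonneg _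
    calc (∫ z, f z * g z ∂(gam n)) ^ 2 ≤ _ := hcs
      _ ≤ (3 * ‖b‖ ^ 2) * (3 * t * ‖b‖ ^ 2) := by gcongr
      _ = (3 / 4 * (12 * t)) * (‖b‖ ^ 2) ^ 2 := by ring
      _ ≤ (3 / 4 * 1) * (‖b‖ ^ 2) ^ 2 := by gcongr
      _ ≤ (7 / 8 * ‖b‖ ^ 2) ^ 2 := by
          have : 0 ≤ (‖b‖ ^ 2) ^ 2 := sq_nonneg _
          nlinarith
  -- conclusion
  have hprob := Pool.Agent.Q280.FC.gprob n
  have ib : Integrable (fun z : E n => (inner ℝ b z : ℝ) ^ 2) (gam n) :=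
    pb_intc (ci.pow 2) (pb_pow pi 2)
  have ifg : Integrable (fun z => f z * g z) (gam n) := pb_intc (cf.mul cg) (pb_mul pf pg)
  have e1 : ∫ z, (1 - sh p φ z * (lf p * inner ℝ p z)) * (inner ℝ b z * inner ℝ b z) ∂(gam n) =
      ‖b‖ ^ 2 - ∫ z, f z * g z ∂(gam n) := by
    rw [← int_inner_sq b, ← integral_sub ib ifg]
    refine integral_congr_ae (ae_of_all _ fun z => ?_)
    simp only [hf, hg]
    ring
  rw [e1]
  have := (abs_le.1 hfg).2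
  linarith

end Pool.Agent.Q183.CN
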