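import Pool.Agent.Q183.CN.D

/-!
# The matrix `E[s T z zᵀ]` and its determinant
-/

set_option autoImplicit false

open MeasureTheory Metric Set Filter Topology

namespace Pool.Agent.Q183.CN

open Pool.Agent.W716.FV (E gam gd)
open Pool.Agent.Q188.FC (Cc lf NN NNL NI mv sv hs qp PB PL)
open Pool.Agent.H241R3.FV (act mat det_mat)
open Pool.Agent.Q280.FC (pb_mono pb_const pb_norm pb_mul pb_add pb_sub pb_pow pb_inner pb_apply
  pb_sum pb_intc cs cc_cont cc_pb inner_int int_inner_sq qp_cont qp_pb)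

variable {n : ℕ}

/-- `E[s ⟨w,z⟩ z zᵀ]` -/
noncomputable def Mm (s : E n → ℝ) (w : E n) : Matrix (Fin n) (Fin n) ℝ :=
  fun i j => ∫ z, s z * inner ℝ w z * (z i * z j) ∂(gam n)

theorem Mm_symm (s : E n → ℝ) (w : E n) : (Mm s w).IsSymm := by
  refine Matrix.IsSymm.ext fun i j => ?_
  unfold Mm
  congr 1
  ext z
  ring

theorem Mm_int {s : E n → ℝ} (hs : Cc s) (w : E n) (i j : Fin n) :
    Integrable (fun z => s z * inner ℝ w z * (z i * z j)) (gam n) := by
  have hc := cc_cont hs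
  exact pb_intc (by fun_prop)
    (pb_mul (pb_mul (cc_pb hs) (pb_inner w)) (pb_mul (pb_apply i) (pb_apply j)))

theorem quad_eq (Q : Matrix (Fin n) (Fin n) ℝ) (z : E n) :
    ∑ i, ∑ j, Q i j * (z i * z j) = qp Q z + Q.trace := by
  unfold qp Matrix.trace
  rw [← Finset.sum_add_distrib]
  refine Finset.sum_congr rfl fun i _ => ?_
  have : ∑ j, Q i j * (z i * z j - if i = j then 1 else 0) =
      ∑ j, Q i j * (z i * z j) - Q i i := by
    simp only [mul_sub, Finset.sum_sub_distrib]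
    congr 1
    simp
  rw [this, Matrix.diag_apply]
  ring

theorem Mm_pair {s : E n → ℝ} (hs : Cc s) (w : E n) (Q : Matrix (Fin n) (Fin n) ℝ) :
    ∑ i, ∑ j, Q i j * Mm s w i j =
      ∫ z, s z * inner ℝ w z * ∑ i, ∑ j, Q i j * (z i * z j) ∂(gam n) := by
  have e : ∀ z : E n, s z * inner ℝ w z * ∑ i, ∑ j, Q i j * (z i * z j) =
      ∑ i, ∑ j, Q i j * (s z * inner ℝ w z * (z i * z j)) := by
    intro z
    rw [Finset.mul_sum]
    refine Finset.sum_congr rfl fun i _ => ?_
    rw [Finset.mul_sum]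
    refine Finset.sum_congr rfl fun j _ => ?_
    ring
  simp only [e]
  rw [integral_finsetSum]
  · refine Finset.sum_congr rfl fun i _ => ?_
    rw [integral_finsetSum]
    · refine Finset.sum_congr rfl fun j _ => ?_
      rw [integral_const_mul]
      rfl
    · exact fun j _ => (Mm_int hs w i j).const_mul _
  · exact fun i _ => integrable_finsetSum _ fun j _ => (Mm_int hs w i j).const_mul _

theorem sT_zero {s : E n → ℝ} (hs : Cc s) (hm : mv s = 0) (w : E n) :
    ∫ z, s z * inner ℝ w z ∂(gam n) = 0 := by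
  have h := (Pool.Agent.Q188.FC.cb n s hs).2.2.2.2.2.2.1 w
  rw [hm, inner_zero_left] at h
  exact h.symm

theorem Mm_trace {s : E n → ℝ} (hs : Cc s) (hm : mv s = 0) (w : E n) : (Mm s w).trace = 0 := by
  have h1 := Mm_pair hs w (1 : Matrix (Fin n) (Fin n) ℝ)
  have e1 : ∑ i, ∑ j, (1 : Matrix (Fin n) (Fin n) ℝ) i j * Mm s w i j = (Mm s w).trace := by
    unfold Matrix.trace
    refine Finset.sum_congr rfl fun i _ => ?_
    simp [Matrix.one_apply]
  have e2 : ∀ z : E n, s z * inner ℝ w z * ∑ i, ∑ j, (1 : Matrix (Fin n) (Fin n) ℝ) i j *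
      (z i * z j) = ‖z‖ ^ 2 * (s z * inner ℝ w z) := by
    intro z
    rw [Pool.Agent.Q149.FC.SA.norm_sq_sum]
    have : ∑ i, ∑ j, (1 : Matrix (Fin n) (Fin n) ℝ) i j * (z i * z j) = ∑ i, z i ^ 2 := by
      refine Finset.sum_congr rfl fun i _ => ?_
      simp [Matrix.one_apply, sq]
    rw [this]
    ring
  rw [e1] at h1
  simp only [e2] at h1
  rw [h1, (Pool.Agent.Q188.FC.cm n s hs).2.2.2 w, sT_zero hs hm, mul_zero]

/-- the Hilbert-Schmidt norm -/
theorem Mm_hs {s : E n → ℝ} (hs1 : Cc s) (hm : mv s = 0) (w : E n) :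
    hs (Mm s w) ≤ 6 * sv s * ‖w‖ ^ 2 := by
  set M := Mm s w with hM
  have hsb := (Pool.Agent.Q188.FC.sb n s hs1 hm M (Mm_symm s w)).1
  set P : E n := ∫ z, (qp M z * s z) • z ∂(gam n) with hP
  have hc := cc_cont hs1
  have e1 : hs M = inner ℝ P w := by
    have h1 := Mm_pair hs1 w M
    have e2 : ∑ i, ∑ j, M i j * Mm s w i j = hs M := by
      unfold Pool.Agent.Q188.FC.hs
      refine Finset.sum_congr rfl fun i _ => Finset.sum_congr rfl fun j _ => ?_
      rw [← hM, sq]
    rw [e2] at h1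
    have h2 := inner_int (f := fun z => qp M z * s z) ((qp_cont M).mul hc)
      (pb_mul (qp_pb M) (cc_pb hs1)) w
    rw [h1, hP, h2]
    refine integral_congr_ae (ae_of_all _ fun z => ?_)
    simp only
    rw [quad_eq, Mm_trace hs1 hm, add_zero]
    ring
  have h3 : hs M ≤ ‖P‖ * ‖w‖ := by
    rw [e1]
    exact real_inner_le_norm _ _
  have h4 : 0 ≤ hs M := by
    unfold Pool.Agent.Q188.FC.hs
    positivity
  have h5 : hs M ^ 2 ≤ ‖P‖ ^ 2 * ‖w‖ ^ 2 := by
    rw [← mul_pow]
    exact pow_le_pow_left₀ h4 h3 2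
  have h6 : hs M ^ 2 ≤ (6 * sv s * ‖w‖ ^ 2) * hs M := by
    calc hs M ^ 2 ≤ ‖P‖ ^ 2 * ‖w‖ ^ 2 := h5
      _ ≤ (6 * sv s * hs M) * ‖w‖ ^ 2 := by gcongr
      _ = _ := by ring
  rcases eq_or_lt_of_le h4 with h7 | h7
  · rw [← h7]
    have h8 : 0 ≤ sv s := integral_nonneg fun z => sq_nonneg _
    positivity
  · rw [sq] at h6
    exact le_of_mul_le_mul_right h6 h7

/-- second moment of the hat at a centre -/
theorem sv_le {κ ρ : ℝ} (hρ1 : ρ < 1) {p : E n} (hp : ‖p‖ ≤ ρ) {φ : E n → ℝ}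
    (hφ : Ck κ ρ φ) (hc : Cc (sh p φ)) (hm : mv (sh p φ) = 0) : sv (sh p φ) ≤ n * ρ ^ 2 := by
  have hp1 : ‖p‖ < 1 := hp.trans_lt hρ1
  have hρ0 : 0 ≤ ρ := (norm_nonneg p).trans hp
  obtain ⟨c1, c2⟩ := comp_pb hp1 hφ
  set s := sh p φ with hs'
  set T : E n → ℝ := fun z => inner ℝ (lf p • p) z with hT
  have hTe : ∀ z, T z = lf p * inner ℝ p z := fun z => by rw [hT]; exact real_inner_smul_left _ _ _
  have hsc := cc_cont hc
  have hspb := cc_pb hc
  have cT : Continuous T := cont_inner _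
  have pT : PB T := pb_inner _
  have i1 : Integrable (fun z => s z ^ 2) (gam n) := pb_intc (hsc.pow 2) (pb_pow hspb 2)
  have i2 : Integrable (fun z => s z * T z) (gam n) := pb_intc (hsc.mul cT) (pb_mul hspb pT)
  have i3 : Integrable (fun z => T z ^ 2) (gam n) := pb_intc (cT.pow 2) (pb_pow pT 2)
  have i4 : Integrable (fun z => φ (NN p z) ^ 2) (gam n) := pb_intc (c1.pow 2) (pb_pow c2 2)
  have i5 : Integrable (fun z : E n => ‖z‖ ^ 2) (gam n) := pb_intc (by fun_prop) (pb_pow pb_norm 2)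
  have hT2 : ∫ z, T z ^ 2 ∂(gam n) = (lf p * ‖p‖) ^ 2 := by
    rw [hT, int_inner_sq, norm_smul, Real.norm_eq_abs, mul_pow, sq_abs, mul_pow]
  have e1 : ∫ z, φ (NN p z) ^ 2 ∂(gam n) = sv s + (lf p * ‖p‖) ^ 2 := by
    have e2 : (fun z => φ (NN p z) ^ 2) = fun z => (s z ^ 2 + 2 * (s z * T z)) + T z ^ 2 := by
      funext z
      rw [hTe, hs']
      unfold sh
      ring
    have i12 : Integrable (fun z => s z ^ 2 + 2 * (s z * T z)) (gam n) := i1.add (i2.const_mul 2)
    rw [e2, integral_add i12 i3, integral_add i1 (i2.const_mul 2),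
      integral_const_mul, sT_zero hc hm, hT2]
    unfold Pool.Agent.Q188.FC.sv
    ring
  have e3 : ∫ z, φ (NN p z) ^ 2 ∂(gam n) ≤ ρ ^ 2 * (n + (lf p * ‖p‖) ^ 2) := by
    calc ∫ z, φ (NN p z) ^ 2 ∂(gam n) ≤ ∫ z, ρ ^ 2 * (‖z‖ ^ 2 + T z ^ 2) ∂(gam n) := by
          refine integral_mono i4 ((i5.add i3).const_mul _) fun z => ?_
          simp only
          rw [hTe]
          exact phi_sq_le hp1 hφ z
      _ = _ := by rw [integral_const_mul, integral_add i5 i3, int_nsq, hT2]
  have e4 : ρ ^ 2 * (lf p * ‖p‖) ^ 2 ≤ 1 * (lf p * ‖p‖) ^ 2 := by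
    gcongr
    nlinarith
  linarith

/-! ### determinants -/

theorem exp_le {t : ℝ} (ht : |t| ≤ 1 / 2) : Real.exp (-(t + t ^ 2)) ≤ 1 - t := by
  have h1 := (abs_le.1 ht).1
  have h2 := (abs_le.1 ht).2
  have key : 1 ≤ (1 - t) * Real.exp (t + t ^ 2) := by
    rcases le_total t 0 with h | h
    · have h3 := Real.add_one_le_exp (t + t ^ 2)
      have h4 : (1 - t) * (t + t ^ 2 + 1) ≤ (1 - t) * Real.exp (t + t ^ 2) :=
        mul_le_mul_of_nonneg_left h3 (by linarith)
      have h5 : (1 - t) * (t + t ^ 2 + 1) = 1 - t ^ 3 := by ring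
      have h6 : t ^ 3 ≤ 0 := by
        have : t ^ 3 = t * t ^ 2 := by ring
        rw [this]
        exact mul_nonpos_of_nonpos_of_nonneg h (sq_nonneg t)
      linarith
    · have h3 := Real.quadratic_le_exp_of_nonneg (x := t + t ^ 2) (by positivity)
      have h4 : (1 - t) * (1 + (t + t ^ 2) + (t + t ^ 2) ^ 2 / 2) ≤ (1 - t) * Real.exp (t + t ^ 2) :=
        mul_le_mul_of_nonneg_left h3 (by linarith)
      have h5 : (1 - t) * (1 + (t + t ^ 2) + (t + t ^ 2) ^ 2 / 2) =
          1 + t ^ 2 * (1 - t - t ^ 2 - t ^ 3) / 2 := by ring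
      have h6 : 0 ≤ 1 - t - t ^ 2 - t ^ 3 := by nlinarith
      have h7 : 0 ≤ t ^ 2 * (1 - t - t ^ 2 - t ^ 3) / 2 := by positivity
      linarith
  rw [Real.exp_neg, inv_le_iff_one_le_mul₀ (Real.exp_pos _)]
  exact key

theorem det_low (X : Matrix (Fin n) (Fin n) ℝ) (hX : X.IsSymm) (hhs : hs X ≤ 1 / 4) :
    Real.exp (-(X.trace + hs X)) ≤ (1 - X).det := by
  have hA : X.IsHermitian := by
    rw [Matrix.IsHermitian, Matrix.conjTranspose_eq_transpose_of_trivial]
    exact hX
  set l := hA.eigenvalues with hl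
  have hdet : (1 - X).det = ∏ i, (1 - l i) := by
    have h1 := Matrix.eval_charpoly X (1 : ℝ)
    rw [hA.charpoly_eq, Polynomial.eval_prod] at h1
    have h2 : (Matrix.scalar (Fin n)) (1 : ℝ) = 1 := map_one _
    rw [h2] at h1
    rw [← h1]
    refine Finset.prod_congr rfl fun i _ => ?_
    simp [hl]
  have htr : X.trace = ∑ i, l i := by
    have := hA.trace_eq_sum_eigenvalues
    simpa [hl] using this
  have hsum : hs X = ∑ i, l i ^ 2 := by
    have h1 : hs X = (X * X).trace := by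
      unfold Pool.Agent.Q188.FC.hs
      rw [Matrix.trace]
      refine Finset.sum_congr rfl fun i _ => ?_
      rw [Matrix.diag_apply, Matrix.mul_apply]
      refine Finset.sum_congr rfl fun j _ => ?_
      rw [sq, ← Matrix.IsSymm.apply hX i j]
    rw [h1]
    have h2 := hA.spectral_theorem
    have h3 : X * X = Unitary.conjStarAlgAut ℝ _ hA.eigenvectorUnitary
        (Matrix.diagonal (RCLike.ofReal ∘ hA.eigenvalues) * Matrix.diagonal (RCLike.ofReal ∘ hA.eigenvalues)) := by
      rw [map_mul, ← h2]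
    rw [h3, Unitary.conjStarAlgAut_apply, Matrix.trace_mul_comm, ← mul_assoc]
    have h4 : (star hA.eigenvectorUnitary : Matrix (Fin n) (Fin n) ℝ) * (hA.eigenvectorUnitary : Matrix (Fin n) (Fin n) ℝ) = 1 := by
      exact Unitary.coe_star_mul_self hA.eigenvectorUnitary
    rw [h4, one_mul, Matrix.diagonal_mul_diagonal, Matrix.trace_diagonal]
    refine Finset.sum_congr rfl fun i _ => ?_
    simp [hl, sq]
  have hli : ∀ i, |l i| ≤ 1 / 2 := by
    intro i
    have h1 : l i ^ 2 ≤ (1 / 2) ^ 2 := by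
      have := Finset.single_le_sum (f := fun i => l i ^ 2) (s := Finset.univ)
        (fun _ _ => by positivity) (Finset.mem_univ i)
      have h2 : l i ^ 2 ≤ hs X := by rw [hsum]; exact this
      refine h2.trans (hhs.trans (by norm_num))
    exact abs_le_of_sq_le_sq h1 (by norm_num)
  rw [hdet, htr, hsum]
  have e : -(∑ i, l i + ∑ i, l i ^ 2) = ∑ i, -(l i + l i ^ 2) := by
    rw [Finset.sum_neg_distrib, Finset.sum_add_distrib]
  rw [e, Real.exp_sum]
  exact Finset.prod_le_prod (fun i _ => (Real.exp_pos _).le) fun i _ => exp_le (hli i)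

/-- the determinant of the derivative in `p` -/
theorem det_L {ρ : ℝ} (hρ0 : 0 ≤ ρ) (hρ : ρ < 1) {p : E n} (hp : ‖p‖ ≤ ρ) {φ : E n → ℝ}
    (hφ : Bd φ) (hc : Cc (sh p φ)) :
    |(LL p φ).det| = (lf p * kn n) ^ n * (lf p ^ 2 * |(1 - Mm (sh p φ) (lf p • p)).det|) := by
  have hp1 : ‖p‖ < 1 := hp.trans_lt hρ
  obtain ⟨hg1, -, hNL, hdet, -⟩ := bst hp1
  set s := sh p φ with hs'
  set M := Mm s (lf p • p) with hM
  set N := mat (NNL p) with hN
  have hNd : N.det = lf p := by rw [hN, ← det_mat, hdet]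
  have hNap : ∀ i j, (NN p (EuclideanSpace.single j 1)) i = N i j := by
    intro i j
    rw [hN, ← hNL]
    rfl
  have hsc := cc_cont hc
  have hq : ∀ u v : E n, ∫ z, (1 - s z * (lf p * inner ℝ p z)) *
      (inner ℝ u z * inner ℝ v z) ∂(gam n) = inner ℝ u v - ∑ i, ∑ j, u i * M i j * v j := by
    intro u v
    have h1 := Mm_pair hc (lf p • p) (fun i j => u i * v j)
    have e1 : ∑ i, ∑ j, u i * v j * Mm s (lf p • p) i j = ∑ i, ∑ j, u i * M i j * v j := by
      refine Finset.sum_congr rfl fun i _ => Finset.sum_congr rfl fun j _ => ?_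
      rw [hM]
      ring
    rw [e1] at h1
    have e2 : ∀ z : E n, ∑ i, ∑ j, u i * v j * (z i * z j) = inner ℝ u z * inner ℝ v z := by
      intro z
      rw [Pool.Agent.Q149.FC.GM.inner_sum, Pool.Agent.Q149.FC.GM.inner_sum, Finset.sum_mul_sum]
      refine Finset.sum_congr rfl fun i _ => Finset.sum_congr rfl fun j _ => ?_
      ring
    simp only [e2] at h1
    have i1 : Integrable (fun z : E n => (inner ℝ u z : ℝ) * inner ℝ v z) (gam n) :=
      pb_intc ((cont_inner u).mul (cont_inner v)) (pb_mul (pb_inner u) (pb_inner v))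
    have i2 : Integrable (fun z : E n => s z * inner ℝ (lf p • p) z *
        (inner ℝ u z * inner ℝ v z)) (gam n) :=
      pb_intc ((hsc.mul (cont_inner _)).mul ((cont_inner u).mul (cont_inner v)))
        (pb_mul (pb_mul (cc_pb hc) (pb_inner _)) (pb_mul (pb_inner u) (pb_inner v)))
    rw [h1]
    have h2 := (Pool.Agent.W933.FVGM.main n).2.2.2.1 u v
    have h3 : ∫ z : E n, (inner ℝ u z : ℝ) * inner ℝ v z ∂(gam n) = inner ℝ u v := by
      rw [← h2]
      refine integral_congr_ae (ae_of_all _ fun z => ?_)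
      simp only
      rw [real_inner_comm u z, real_inner_comm v z]
    rw [← h3, ← integral_sub i1 i2]
    refine integral_congr_ae (ae_of_all _ fun z => ?_)
    simp only
    rw [real_inner_smul_left]
    ring
  have hin : ∀ (u v : E n), (inner ℝ u v : ℝ) = ∑ k, u k * v k := by
    intro u v
    simp [PiLp.inner_apply, mul_comm]
  have hm : mat (LL p φ) = (-(lf p * kn n)) • (N.transpose * (1 - M) * N) := by
    ext i j
    have e1 : mat (LL p φ) i j = (inner ℝ (LL p φ (EuclideanSpace.single j 1))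
        (EuclideanSpace.single i 1) : ℝ) := by
      rw [hin]
      simp [mat, PiLp.single_apply]
    rw [e1, LL_hat hρ0 hρ hp hφ, hq, hin]
    simp only [hNap]
    have e2 : (N.transpose * (1 - M) * N) i j =
        ∑ k, N k j * N k i - ∑ k, ∑ l, N k j * M k l * N l i := by
      rw [Matrix.mul_sub, Matrix.mul_one, Matrix.sub_mul, Matrix.sub_apply, Matrix.mul_apply,
        Matrix.mul_apply]
      congr 1
      · refine Finset.sum_congr rfl fun k _ => ?_
        rw [Matrix.transpose_apply]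
        ring
      · refine Finset.sum_congr rfl fun k _ => ?_
        rw [Matrix.mul_apply, Finset.sum_mul]
        refine Finset.sum_congr rfl fun l _ => ?_
        rw [Matrix.transpose_apply]
        have := (Mm_symm s (lf p • p)).apply k l
        rw [hM, this]
        ring
    rw [Matrix.smul_apply, e2, smul_eq_mul]
  rw [det_mat, hm, Matrix.det_smul, Matrix.det_mul, Matrix.det_mul, Matrix.det_transpose, hNd,
    abs_mul, abs_mul, abs_mul, abs_pow, abs_neg, Fintype.card_fin,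
    abs_of_pos (mul_pos (by linarith) (kn_pos n)), abs_of_nonneg (zero_le_one.trans hg1)]
  ring

end Pool.Agent.Q183.CN
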