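import Pool.Agent.Q183.CN.E
import Pool.Agent.Q299.FC.DT

/-!
# The Jacobian of the centre map
-/

set_option autoImplicit false

open MeasureTheory Metric Set Filter Topology

namespace Pool.Agent.Q183.CN

open Pool.Agent.W716.FV (E gam gd)
open Pool.Agent.Q188.FC (Cc lf NN NNL NI mv sv hs qp PB PL)
open Pool.Agent.H241R3.FV (act mat det_mat)
open Pool.Agent.Q280.FC (pb_mono pb_const pb_norm pb_mul pb_add pb_sub pb_pow pb_inner pb_apply
  pb_sum pb_intc cs cc_cont cc_pb inner_int int_inner_sq qp_cont qp_pb)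
open Pool.Agent.Q299.FC.DT (dot_eq quad_act apply_mat act_eq)

variable {n : ℕ}

theorem ae_nn {p : E n} (hp : ‖p‖ < 1) {P : E n → Prop}
    (h : ∀ᵐ y ∂(volume : Measure (E n)), P y) : ∀ᵐ z ∂(gam n), P (NN p z) := by
  have h1 : ∀ᵐ y ∂(Measure.map (NN p) (volume : Measure (E n))), P y := by
    rw [map_vol hp]
    exact Measure.ae_smul_measure h _
  have h2 := (emb hp).ae_map_iff.1 h1
  have h3 : gam n ≪ (volume : Measure (E n)) := withDensity_absolutelyContinuous _ _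
  exact h3.ae_le h2

theorem D_int {ρ : ℝ} (hρ0 : 0 ≤ ρ) (hρ : ρ < 1) {p : E n} (hp : ‖p‖ ≤ ρ) {φ : E n → ℝ}
    (hφ : Bd φ) {G : Matrix (Fin n) (Fin n) ℝ} {D : E n → E n →L[ℝ] ℝ} (hD : Measurable D)
    (hDb : ∀ᵐ y ∂(volume : Measure (E n)), ∀ v : E n,
      (D y v) ^ 2 ≤ (‖y‖ ^ 2 - φ y ^ 2) * ∑ i, ∑ j, v i * G i j * v j) (v : E n) :
    Integrable (fun y => (D y v * W p y) • y) := by
  have hDm : Measurable (fun y => D y v) := hD.apply_continuousLinearMap v
  have hWc : Continuous (fun y : E n => W p y) := by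
    unfold W
    fun_prop
  refine int_of (C := √|∑ i, ∑ j, v i * G i j * v j|) (c := (1 - ρ ^ 2) / 2) (k := 2)
    (cpos hρ0 hρ) ((hDm.mul hWc.measurable).smul measurable_id).aestronglyMeasurable ?_
  filter_upwards [hDb] with y hy
  have h1 := hy v
  have h2 : |D y v| ≤ ‖y‖ * √|∑ i, ∑ j, v i * G i j * v j| := by
    rw [← Real.sqrt_sq (norm_nonneg y), ← Real.sqrt_mul (sq_nonneg _)]
    apply Real.abs_le_sqrt
    refine h1.trans ?_
    have h5 : φ y ^ 2 ≤ ‖y‖ ^ 2 := by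
      rw [← sq_abs]
      exact pow_le_pow_left₀ (abs_nonneg _) (hφ.2 y) 2
    calc (‖y‖ ^ 2 - φ y ^ 2) * ∑ i, ∑ j, v i * G i j * v j
        ≤ (‖y‖ ^ 2 - φ y ^ 2) * |∑ i, ∑ j, v i * G i j * v j| :=
          mul_le_mul_of_nonneg_left (le_abs_self _) (by linarith)
      _ ≤ ‖y‖ ^ 2 * |∑ i, ∑ j, v i * G i j * v j| := by
          apply mul_le_mul_of_nonneg_right _ (abs_nonneg _)
          nlinarith [sq_nonneg (φ y)]
  rw [norm_smul, Real.norm_eq_abs, abs_mul, abs_of_pos (W_pos p y)]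
  have h3 := W_le hp y
  have h4 := norm_nonneg y
  calc |D y v| * W p y * ‖y‖ ≤ ((1 + ‖y‖) * √|∑ i, ∑ j, v i * G i j * v j|) *
        Real.exp (-((1 - ρ ^ 2) / 2 * ‖y‖ ^ 2)) * (1 + ‖y‖) := by
        have := W_pos p y
        gcongr
        · refine h2.trans ?_
          gcongr
          linarith
        · linarith
    _ = _ := by ring

/-- the numerator -/
theorem det_T (hn : 0 < n) {κ ρ : ℝ} (hρ0 : 0 ≤ ρ) (hρ : ρ < 1) {p : E n} (hp : ‖p‖ ≤ ρ)
    {φ : E n → ℝ} (hφ : Ck κ ρ φ) (hc : Cc (sh p φ)) (hm : mv (sh p φ) = 0)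
    {G : Matrix (Fin n) (Fin n) ℝ} (hG : G.PosDef) {D : E n → E n →L[ℝ] ℝ} (hD : Measurable D)
    (hDb : ∀ᵐ y ∂(volume : Measure (E n)), ∀ v : E n,
      (D y v) ^ 2 ≤ (‖y‖ ^ 2 - φ y ^ 2) * ∑ i, ∑ j, v i * G i j * v j)
    {T : E n →L[ℝ] E n} (hT : ∀ v, T v = ∫ y, (D y v * W p y) • y) :
    |T.det| ≤ (lf p * kn n) ^ n * (lf p * (Real.exp (-sv (sh p φ) / 2) * √G.det)) := by
  have hp1 : ‖p‖ < 1 := hp.trans_lt hρ
  obtain ⟨hg1, -, hNL, hdet, -, -, hpN, -⟩ := bst hp1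
  have hl0 : 0 < lf p := by linarith
  have hbd := ck_bd hρ.le hφ
  have hn' : (0 : ℝ) < n := by exact_mod_cast hn
  set s := sh p φ with hs'
  have hsc := cc_cont hc
  have hspb := cc_pb hc
  set g : E n → E n → E n := fun v z => (D (NN p z) v) • z with hg
  have hgi : ∀ v, Integrable (g v) (gam n) := fun v => (T_hat hp1 (D_int hρ0 hρ hp hbd hD hDb v)).1
  have hTv : ∀ v, T v = (lf p * kn n) • NNL p (∫ z, g v z ∂(gam n)) := by
    intro v
    rw [hT, (T_hat hp1 (D_int hρ0 hρ hp hbd hD hDb v)).2, hNL]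
  set e : Fin n → E n := fun j => EuclideanSpace.single j (1 : ℝ) with he
  set M : Matrix (Fin n) (Fin n) ℝ := fun i j => (∫ z, g (e j) z ∂(gam n)) i with hM
  have hmT : mat T = (lf p * kn n) • (mat (NNL p) * M) := by
    ext i j
    have h5 : mat T i j = (T (e j)) i := rfl
    rw [h5, hTv (e j), PiLp.smul_apply, apply_mat, Matrix.smul_apply, Matrix.mul_apply]
  have hdT : T.det = (lf p * kn n) ^ n * (lf p * M.det) := by
    rw [det_mat, hmT, Matrix.det_smul, Matrix.det_mul, ← det_mat, hdet, Fintype.card_fin]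
  -- the constant
  have hσ := sv_le hρ hp hφ hc hm
  rw [← hs'] at hσ
  have hσ0 : 0 ≤ sv s := integral_nonneg fun z => sq_nonneg _
  have hσn : sv s < n := by
    have : (n : ℝ) * ρ ^ 2 < n * 1 := by
      apply mul_lt_mul_of_pos_left _ hn'
      nlinarith
    linarith
  set c : ℝ := √(1 - sv s / n) with hcd
  have hcp : 0 < 1 - sv s / n := by
    rw [sub_pos, div_lt_one hn']
    exact hσn
  have hc0 : 0 < c := Real.sqrt_pos.2 hcp
  have hc2 : c ^ 2 = 1 - sv s / n := Real.sq_sqrt hcp.le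
  have hnc : (n : ℝ) - sv s = n * c ^ 2 := by
    rw [hc2]
    field_simp
  have hTw : ∀ z, lf p * (inner ℝ p z : ℝ) = inner ℝ (lf p • p) z := fun z =>
    (real_inner_smul_left _ _ _).symm
  -- the pointwise identity
  have hid : ∀ z, ‖NN p z‖ ^ 2 - φ (NN p z) ^ 2 =
      ‖z‖ ^ 2 - s z ^ 2 - 2 * (s z * inner ℝ (lf p • p) z) := by
    intro z
    rw [nn_sq hp1, ← hTw, hs']
    unfold sh
    ring
  have hnn : ∀ z, 0 ≤ ‖NN p z‖ ^ 2 - φ (NN p z) ^ 2 := by
    intro z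
    have h5 : φ (NN p z) ^ 2 ≤ ‖NN p z‖ ^ 2 := by
      rw [← sq_abs]
      exact pow_le_pow_left₀ (abs_nonneg _) (hbd.2 _) 2
    linarith
  have i1 : Integrable (fun z : E n => ‖z‖ ^ 2) (gam n) := pb_intc (by fun_prop) (pb_pow pb_norm 2)
  have i2 : Integrable (fun z => s z ^ 2) (gam n) := pb_intc (hsc.pow 2) (pb_pow hspb 2)
  have i3 : Integrable (fun z => s z * inner ℝ (lf p • p) z) (gam n) :=
    pb_intc (hsc.mul (cont_inner _)) (pb_mul hspb (pb_inner _))
  have i4 : Integrable (fun z => ‖z‖ ^ 2 - s z ^ 2 - 2 * (s z * inner ℝ (lf p • p) z)) (gam n) :=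
    (i1.sub i2).sub (i3.const_mul 2)
  have hE : ∫ z, (‖z‖ ^ 2 - s z ^ 2 - 2 * (s z * inner ℝ (lf p • p) z)) ∂(gam n) = n - sv s := by
    have i12 : Integrable (fun z => ‖z‖ ^ 2 - s z ^ 2) (gam n) := i1.sub i2
    rw [integral_sub i12 (i3.const_mul 2), integral_sub i1 i2, integral_const_mul,
      sT_zero hc hm, int_nsq]
    unfold Pool.Agent.Q188.FC.sv
    ring
  have hMd : |M.det| ≤ c ^ n * √G.det := by
    refine Pool.Agent.H241R3.FV.TMat.taskMat n hn M G hG c hc0.le fun A hA => ?_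
    have h6 : ∀ i j, M i j = ∫ z, (g (e j) z) i ∂(gam n) := by
      intro i j
      have := ContinuousLinearMap.integral_comp_comm
        (EuclideanSpace.proj i : EuclideanSpace ℝ (Fin n) →L[ℝ] ℝ) (hgi (e j))
      simpa [hM] using this.symm
    have h7 : ∀ i j, Integrable (fun z => (g (e j) z) i * A j i) (gam n) := by
      intro i j
      exact ((EuclideanSpace.proj i : EuclideanSpace ℝ (Fin n) →L[ℝ] ℝ).integrable_comp
        (hgi (e j))).mul_const _
    have h7s : Integrable (fun z => ∑ i, ∑ j, (g (e j) z) i * A j i) (gam n) :=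
      integrable_finsetSum _ fun i _ => integrable_finsetSum _ fun j _ => h7 i j
    have h8 : ∀ z, ∑ i, ∑ j, (g (e j) z) i * A j i = D (NN p z) (act A z) := by
      intro z
      rw [act_eq, map_sum, Finset.sum_comm]
      refine Finset.sum_congr rfl fun j _ => ?_
      rw [map_smul, smul_eq_mul, Finset.sum_mul]
      refine Finset.sum_congr rfl fun i _ => ?_
      have h9 : (g (e j) z) i = D (NN p z) (e j) * z i := by
        simp [hg]
      rw [h9]
      simp only [he]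
      ring
    have h5 : (M * A).trace = ∫ z, D (NN p z) (act A z) ∂(gam n) := by
      have e1 : (M * A).trace = ∑ i, ∑ j, ∫ z, (g (e j) z) i * A j i ∂(gam n) := by
        rw [Matrix.trace]
        refine Finset.sum_congr rfl fun i _ => ?_
        rw [Matrix.diag_apply, Matrix.mul_apply]
        refine Finset.sum_congr rfl fun j _ => ?_
        rw [h6, integral_mul_const]
      rw [e1]
      have e2 : ∀ i, ∑ j, ∫ z, (g (e j) z) i * A j i ∂(gam n) =
          ∫ z, ∑ j, (g (e j) z) i * A j i ∂(gam n) :=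
        fun i => (integral_finsetSum _ fun j _ => h7 i j).symm
      rw [Finset.sum_congr rfl fun i _ => e2 i,
        ← integral_finsetSum _ fun i _ => integrable_finsetSum _ fun j _ => h7 i j]
      exact integral_congr_ae (Filter.Eventually.of_forall h8)
    have h5i : Integrable (fun z => D (NN p z) (act A z)) (gam n) :=
      h7s.congr (Filter.Eventually.of_forall h8)
    have hval : ∫ z, (1 / (2 * c) * (‖z‖ ^ 2 - s z ^ 2 - 2 * (s z * inner ℝ (lf p • p) z)) +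
        c / 2 * ‖z‖ ^ 2) ∂(gam n) = n * c := by
      rw [integral_add (i4.const_mul _) (i1.const_mul _), integral_const_mul, integral_const_mul,
        hE, int_nsq, hnc]
      field_simp
      ring
    rw [h5, ← hval]
    refine integral_mono_ae h5i ((i4.const_mul _).add (i1.const_mul _)) ?_
    filter_upwards [ae_nn hp1 hDb] with z hz
    have hv := hz (act A z)
    rw [quad_act G A hA, hid] at hv
    set X := ‖z‖ ^ 2 - s z ^ 2 - 2 * (s z * inner ℝ (lf p • p) z) with hX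
    have hX0 : 0 ≤ X := by rw [hX, ← hid]; exact hnn z
    show D (NN p z) (act A z) ≤ 1 / (2 * c) * X + c / 2 * ‖z‖ ^ 2
    have h10 : 0 ≤ 1 / (2 * c) * X + c / 2 * ‖z‖ ^ 2 := by positivity
    refine (abs_le_of_sq_le_sq' ?_ h10).2
    refine hv.trans ?_
    have h11 : (1 / (2 * c) * X + c / 2 * ‖z‖ ^ 2) ^ 2 - X * ‖z‖ ^ 2 =
        (1 / (2 * c) * X - c / 2 * ‖z‖ ^ 2) ^ 2 := by
      field_simp
      ring
    nlinarith [sq_nonneg (1 / (2 * c) * X - c / 2 * ‖z‖ ^ 2)]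
  have hcn : c ^ n ≤ Real.exp (-sv s / 2) := by
    have h1 : c ≤ Real.exp (-sv s / (2 * n)) := by
      apply le_of_sq_le_sq _ (Real.exp_pos _).le
      rw [hc2, ← Real.exp_nat_mul]
      have h2 := Real.add_one_le_exp (-(sv s / n))
      have h3 : ((2 : ℕ) : ℝ) * (-sv s / (2 * n)) = -(sv s / n) := by
        push_cast
        field_simp
      rw [h3]
      linarith
    calc c ^ n ≤ Real.exp (-sv s / (2 * n)) ^ n := pow_le_pow_left₀ hc0.le h1 n
      _ = _ := by
        rw [← Real.exp_nat_mul]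
        congr 1
        field_simp
  rw [hdT, abs_mul, abs_mul, abs_of_pos hl0, abs_of_pos (pow_pos (mul_pos hl0 (kn_pos n)) n)]
  have hkp : 0 < lf p * kn n := mul_pos hl0 (kn_pos n)
  gcongr
  exact hMd.trans (by gcongr)

/-- the Jacobian is at most one -/
theorem jac {κ ρ : ℝ} (h : Par n κ ρ) {p : E n} (hp : ‖p‖ ≤ ρ) {φ : E n → ℝ} (hφ : Ck κ ρ φ)
    (h0 : HH p φ = 0) {G : Matrix (Fin n) (Fin n) ℝ} (hG : G.PosDef) {D : E n → E n →L[ℝ] ℝ}
    (hD : Measurable D) (hDb : ∀ᵐ y ∂(volume : Measure (E n)), ∀ v : E n,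
      (D y v) ^ 2 ≤ (‖y‖ ^ 2 - φ y ^ 2) * ∑ i, ∑ j, v i * G i j * v j)
    {T : E n →L[ℝ] E n} (hT : ∀ v, T v = ∫ y, (D y v * W p y) • y) :
    (LL p φ).det ≠ 0 ∧ |T.det| ≤ (lf p)⁻¹ * |(LL p φ).det| * √G.det := by
  have hρ1 := h.r1
  have hρ0 := h.r0.le
  have hp1 : ‖p‖ < 1 := hp.trans_lt hρ1
  obtain ⟨hg1, -⟩ := bst hp1
  obtain ⟨t1, t2⟩ := h.tau hp
  have hl0 : 0 < lf p := by linarith
  have hbd := ck_bd hρ1.le hφ
  have hc : Cc (sh p φ) := h.cc hp hφ
  have hm := (HH_zero hρ0 hρ1 hp hbd).1 h0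
  have hL := det_L hρ0 hρ1 hp hbd hc
  have hTd := det_T h.n0 hρ0 hρ1 hp hφ hc hm hG hD hDb hT
  set s := sh p φ with hs'
  set M := Mm s (lf p • p) with hM
  have hσ := (Pool.Agent.Q188.FC.sc n s hc hm).1
  have hσ0 : 0 ≤ sv s := integral_nonneg fun z => sq_nonneg _
  have hhs := Mm_hs hc hm (lf p • p)
  have hw : ‖lf p • p‖ ^ 2 = (lf p * ‖p‖) ^ 2 := by
    rw [norm_smul, Real.norm_eq_abs, abs_of_pos hl0]
  rw [hw] at hhs
  set t := (lf p * ‖p‖) ^ 2 with ht
  have ht0 : 0 ≤ t := sq_nonneg _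
  have hhs2 : hs M ≤ sv s / 2 := by
    refine hhs.trans ?_
    nlinarith
  have hhs4 : hs M ≤ 1 / 4 := by
    refine hhs.trans ?_
    have e1 : 6 * sv s * t ≤ 6 * (1 / 3) * t := by gcongr
    linarith
  have hlow := det_low M (Mm_symm s _) hhs4
  rw [Mm_trace hc hm, zero_add] at hlow
  have hx : Real.exp (-sv s / 2) ≤ (1 - M).det := by
    refine le_trans ?_ hlow
    apply Real.exp_le_exp.2
    linarith
  have hx0 : 0 < (1 - M).det := (Real.exp_pos _).trans_le hx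
  rw [abs_of_pos hx0] at hL
  have hkp : 0 < (lf p * kn n) ^ n := pow_pos (mul_pos hl0 (kn_pos n)) n
  constructor
  · intro h5
    rw [h5, abs_zero] at hL
    have : 0 < (lf p * kn n) ^ n * (lf p ^ 2 * (1 - M).det) := by positivity
    linarith
  · calc |T.det| ≤ (lf p * kn n) ^ n * (lf p * (Real.exp (-sv s / 2) * √G.det)) := hTd
      _ ≤ (lf p * kn n) ^ n * (lf p * ((1 - M).det * √G.det)) := by gcongr
      _ = (lf p)⁻¹ * |(LL p φ).det| * √G.det := by
          rw [hL]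
          field_simp

end Pool.Agent.Q183.CN
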