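import Pool.Agent.Q183.CN.F
import Pool.Agent.Q188.FC.StmC
import Pool.Agent.Q188.FC.BetCF
import Pool.Agent.Q188.FC.BetCA
import Pool.Agent.Q188.FC.Fin

/-!
# The centre: uniqueness, Lipschitz dependence, differentiability, the estimate in one chart
-/

set_option autoImplicit false

open MeasureTheory Metric Set Filter Topology

namespace Pool.Agent.Q183.CN

open Pool.Agent.W716.FV (E gam gd)
open Pool.Agent.Q188.FC

variable {n : ℕ}

theorem LL_mono {κ ρ : ℝ} (h : Par n κ ρ) {p : E n} (hp : ‖p‖ ≤ ρ) {φ : E n → ℝ}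
    (hφ : Ck κ ρ φ) (a : E n) : (inner ℝ (LL p φ a) a : ℝ) ≤ -(kn n / 8) * ‖a‖ ^ 2 := by
  have hp1 : ‖p‖ < 1 := lt_of_le_of_lt hp h.r1
  obtain ⟨b1, -⟩ := bst hp1
  rw [LL_hat h.r0.le h.r1 hp (ck_bd h.r1.le hφ) a a]
  have h1 := mono_gauss h hp hφ (NN p a)
  have h2 : ‖a‖ ^ 2 ≤ ‖NN p a‖ ^ 2 := by
    rw [nn_sq hp1]
    have := sq_nonneg (lf p * (inner ℝ p a : ℝ))
    linarith
  have h3 : 0 < kn n := kn_pos n
  set I := ∫ z, (1 - sh p φ z * (lf p * inner ℝ p z)) *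
      (inner ℝ (NN p a) z * inner ℝ (NN p a) z) ∂(gam n) with hI
  have h4 : ‖a‖ ^ 2 / 8 ≤ I := by linarith
  have h5 : 0 ≤ I := le_trans (by positivity) h4
  have h6 : kn n * (‖a‖ ^ 2 / 8) ≤ kn n * I := mul_le_mul_of_nonneg_left h4 h3.le
  have h7 : 1 * (kn n * I) ≤ lf p * (kn n * I) :=
    mul_le_mul_of_nonneg_right b1 (mul_nonneg h3.le h5)
  nlinarith

theorem HH_mono {κ ρ : ℝ} (h : Par n κ ρ) {p p' : E n} (hp : ‖p‖ < ρ) (hp' : ‖p'‖ < ρ)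
    {φ : E n → ℝ} (hφ : Ck κ ρ φ) :
    (inner ℝ (HH p φ - HH p' φ) (p - p') : ℝ) ≤ -(kn n / 8) * ‖p - p'‖ ^ 2 := by
  set γ : ℝ → E n := fun t => p' + t • (p - p') with hγ
  have hseg : ∀ t ∈ Icc (0 : ℝ) 1, ‖γ t‖ < ρ := by
    intro t ht
    have h0 : γ t = (1 - t) • p' + t • p := by
      rw [hγ]
      simp only
      module
    rw [h0]
    have h1 := (convex_ball (0 : E n) ρ) (mem_ball_zero_iff.2 hp') (mem_ball_zero_iff.2 hp)
      (sub_nonneg.2 ht.2) ht.1 (by ring)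
    exact mem_ball_zero_iff.1 h1
  have hd : ∀ t ∈ Icc (0 : ℝ) 1, HasDerivAt (fun t => (inner ℝ (HH (γ t) φ) (p - p') : ℝ))
      (inner ℝ (LL (γ t) φ (p - p')) (p - p')) t := by
    intro t ht
    have e1 := HH_hasFDerivAt h.r0.le h.r1 (hseg t ht) (ck_bd h.r1.le hφ)
    have e2 : HasDerivAt γ (p - p') t := by
      have e0 := ((hasDerivAt_id t).smul_const (p - p')).const_add p'
      rw [one_smul] at e0
      exact e0
    have e3 := e1.comp_hasDerivAt t e2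
    have e4 := e3.inner ℝ (hasDerivAt_const t (p - p'))
    simpa using e4
  obtain ⟨ξ, hξ, h1⟩ := exists_hasDerivAt_eq_slope
    (fun t => (inner ℝ (HH (γ t) φ) (p - p') : ℝ))
    (fun t => inner ℝ (LL (γ t) φ (p - p')) (p - p')) zero_lt_one
    (fun t ht => (hd t ht).continuousAt.continuousWithinAt)
    (fun t ht => hd t (Ioo_subset_Icc_self ht))
  have h2 := LL_mono h (hseg ξ (Ioo_subset_Icc_self hξ)).le hφ (p - p')
  have h3 : γ 1 = p := by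
    rw [hγ]
    simp
  have h4 : γ 0 = p' := by
    rw [hγ]
    simp
  rw [inner_sub_left]
  simp only [h3, h4, sub_zero, div_one] at h1
  linarith

/-- the zero depends on the function in a Lipschitz way; in particular it is unique -/
theorem zero_lip {κ ρ : ℝ} (h : Par n κ ρ) : ∃ K : ℝ, 0 ≤ K ∧
    ∀ (p p' : E n) (φ φ' : E n → ℝ) (δ : ℝ), ‖p‖ < ρ → ‖p'‖ < ρ → Ck κ ρ φ → Ck κ ρ φ' →
      0 ≤ δ → (∀ y, |φ y - φ' y| ≤ δ * ‖y‖) → HH p φ = 0 → HH p' φ' = 0 →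
      ‖p - p'‖ ≤ K * δ := by
  obtain ⟨K, hK, hl⟩ := HH_lip (n := n) h.r0.le h.r1
  have hk := kn_pos n
  refine ⟨8 * K / kn n, by positivity, ?_⟩
  intro p p' φ φ' δ hp hp' hφ hφ' hδ hd h0 h0'
  have h1 := HH_mono h hp hp' hφ
  have h2 := hl p' φ φ' δ hp'.le (ck_bd h.r1.le hφ) (ck_bd h.r1.le hφ') hδ hd
  rw [h0, zero_sub, inner_neg_left] at h1
  rw [h0', sub_zero] at h2
  have h3 : (inner ℝ (HH p' φ) (p - p') : ℝ) ≤ K * δ * ‖p - p'‖ :=
    (real_inner_le_norm _ _).trans (mul_le_mul_of_nonneg_right h2 (norm_nonneg _))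
  by_cases hz : ‖p - p'‖ = 0
  · rw [hz]
    positivity
  have h4 : 0 < ‖p - p'‖ := lt_of_le_of_ne (norm_nonneg _) (Ne.symm hz)
  have h5 : kn n / 8 * ‖p - p'‖ ≤ K * δ := by
    by_contra hcon
    push Not at hcon
    have h6 := mul_lt_mul_of_pos_right hcon h4
    nlinarith
  rw [div_mul_eq_mul_div, le_div_iff₀ hk]
  linarith

/-- families of functions with parameter in `U`, locally Lipschitz -/
def LF (κ ρ : ℝ) (U : Set (E n)) (φ : E n → E n → ℝ) : Prop :=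
  (∀ c, Ck κ ρ (φ c)) ∧ ∀ c₀ ∈ U, ∃ r K : ℝ, 0 < r ∧ 0 ≤ K ∧ ball c₀ r ⊆ U ∧
    ∀ c ∈ ball c₀ r, ∀ c' ∈ ball c₀ r, ∀ y, |φ c y - φ c' y| ≤ K * ‖c - c'‖ * ‖y‖

theorem center_lip {κ ρ : ℝ} (h : Par n κ ρ) {U : Set (E n)} {φ : E n → E n → ℝ}
    (hφ : LF κ ρ U φ) {s : Set (E n)} {f : E n → E n} (hsU : s ⊆ U)
    (hf : ∀ c ∈ s, ‖f c‖ < ρ ∧ HH (f c) (φ c) = 0) :
    ∀ c₀ ∈ s, ∃ r K : ℝ, 0 < r ∧ ∀ c ∈ s ∩ ball c₀ r, ∀ c' ∈ s ∩ ball c₀ r,
      ‖f c - f c'‖ ≤ K * ‖c - c'‖ := by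
  intro c₀ hc₀
  obtain ⟨K, hK, hz⟩ := zero_lip h
  obtain ⟨r, K₀, hr, hK₀, -, hl⟩ := hφ.2 c₀ (hsU hc₀)
  refine ⟨r, K * K₀, hr, ?_⟩
  rintro c ⟨hc, hcb⟩ c' ⟨hc', hcb'⟩
  have := hz (f c) (f c') (φ c) (φ c') (K₀ * ‖c - c'‖) (hf c hc).1 (hf c' hc').1 (hφ.1 c)
    (hφ.1 c') (by positivity) (hl c hcb c' hcb') (hf c hc).2 (hf c' hc').2
  rw [mul_assoc]
  exact this

theorem center_diff {κ ρ : ℝ} (h : Par n κ ρ) {U : Set (E n)} {φ : E n → E n → ℝ}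
    (hφ : LF κ ρ U φ) {s : Set (E n)} {f : E n → E n} (hsU : s ⊆ U)
    (hf : ∀ c ∈ s, ‖f c‖ < ρ ∧ HH (f c) (φ c) = 0) {c₀ : E n} (hc₀ : c₀ ∈ s)
    {G : Matrix (Fin n) (Fin n) ℝ} (hG : G.PosDef) (hD : ∃ D, GoodD φ c₀ G D) :
    ∃ f' : E n →L[ℝ] E n, HasFDerivWithinAt f f' s c₀ ∧
      |f'.det| ≤ (lf (f c₀))⁻¹ * √G.det := by
  obtain ⟨D, hDm, hDd⟩ := hD
  obtain ⟨r₀, K₀, hr₀, hK₀, hball, hlip⟩ := hφ.2 c₀ (hsU hc₀)
  obtain ⟨hp₀, hz₀⟩ := hf c₀ hc₀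
  set p₀ := f c₀ with hp₀d
  have hbd : ∀ c, Bd (φ c) := fun c => ck_bd h.r1.le (hφ.1 c)
  obtain ⟨T, hT, hTv⟩ := HH_chart h.r0.le h.r1 hp₀.le hbd (c₀ := c₀) hr₀
    (fun c hc y => hlip c hc c₀ (mem_ball_self hr₀) y) hDm (hDd.mono fun y hy => hy.1)
  set L := LL p₀ (φ c₀) with hLd
  obtain ⟨hL0, hdet⟩ := jac h hp₀.le (hφ.1 c₀) hz₀ hG hDm (hDd.mono fun y hy => hy.2) hTv
  set Le : E n ≃L[ℝ] E n := L.toContinuousLinearEquivOfDetNeZero hL0 with hLe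
  have hLe1 : ∀ v, Le v = L v := fun v => rfl
  have hLe2 : ∀ v, L (Le.symm v) = v := fun v => by rw [← hLe1, Le.apply_symm_apply]
  refine ⟨-((Le.symm : E n →L[ℝ] E n).comp T), ?_, ?_⟩
  · obtain ⟨K, hK, hLZ⟩ := zero_lip h
    obtain ⟨Ks, hKs, hst⟩ := strict (n := n) h.r0.le h.r1
    obtain ⟨Cs, hCs0, hCs⟩ : ∃ Cs : ℝ, 0 < Cs ∧ ∀ v, ‖Le.symm v‖ ≤ Cs * ‖v‖ := by
      refine ⟨‖(Le.symm : E n →L[ℝ] E n)‖ + 1, by positivity, fun v => ?_⟩
      have := (Le.symm : E n →L[ℝ] E n).le_opNorm v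
      have h6 : ‖(Le.symm : E n →L[ℝ] E n)‖ * ‖v‖ ≤ (‖(Le.symm : E n →L[ℝ] E n)‖ + 1) * ‖v‖ := by
        gcongr
        linarith
      exact this.trans h6
    rw [hasFDerivWithinAt_iff_isLittleO, Asymptotics.isLittleO_iff]
    intro ε hε
    set B : ℝ := K₀ + K * K₀ with hB
    have hB0 : 0 ≤ B := by positivity
    set ε₂ : ℝ := ε / (2 * Cs) with hε₂
    have hε₂0 : 0 < ε₂ := by positivity
    rw [hasFDerivAt_iff_isLittleO, Asymptotics.isLittleO_iff] at hT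
    have hT' := hT hε₂0
    set τ : ℝ := min r₀ (ε / (2 * Cs * (Ks * B * (K * K₀) + 1))) with hτ
    have hτ0 : 0 < τ := by
      rw [hτ]
      refine lt_min hr₀ ?_
      positivity
    filter_upwards [self_mem_nhdsWithin, mem_nhdsWithin_of_mem_nhds (ball_mem_nhds c₀ hτ0),
      mem_nhdsWithin_of_mem_nhds hT'] with c hcs hcb hcT
    obtain ⟨hp, hz⟩ := hf c hcs
    set p := f c with hpd
    rw [mem_ball, dist_eq_norm] at hcb
    have hcr : c ∈ ball c₀ r₀ := by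
      rw [mem_ball, dist_eq_norm]
      exact hcb.trans_le (min_le_left _ _)
    have hcl : ∀ y, |φ c y - φ c₀ y| ≤ K₀ * ‖c - c₀‖ * ‖y‖ :=
      fun y => hlip c hcr c₀ (mem_ball_self hr₀) y
    have hpp : ‖p - p₀‖ ≤ K * (K₀ * ‖c - c₀‖) :=
      hLZ p p₀ (φ c) (φ c₀) (K₀ * ‖c - c₀‖) hp hp₀ (hφ.1 c) (hφ.1 c₀) (by positivity) hcl hz hz₀
    have hB1 : K₀ * ‖c - c₀‖ ≤ B * ‖c - c₀‖ := by
      rw [hB]
      have : 0 ≤ K * K₀ * ‖c - c₀‖ := by positivity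
      linarith
    have hB2 : ‖p - p₀‖ ≤ B * ‖c - c₀‖ := by
      rw [hB]
      have : 0 ≤ K₀ * ‖c - c₀‖ := by positivity
      linarith
    have hst' := hst p₀ p p₀ (φ c₀) (φ c) (B * ‖c - c₀‖) hp₀.le hp.le hp₀.le (hbd c₀) (hbd c)
      (by positivity) (fun y => (hcl y).trans (mul_le_mul_of_nonneg_right hB1 (norm_nonneg y)))
      hB2 (by rw [sub_self, norm_zero]; positivity)
    rw [hz, zero_sub] at hst'
    -- the identity
    have hid : p - p₀ - (-((Le.symm : E n →L[ℝ] E n).comp T)) (c - c₀) =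
        Le.symm ((L (p - p₀) + HH p₀ (φ c)) - (HH p₀ (φ c) - HH p₀ (φ c₀) - T (c - c₀))) := by
      apply Le.injective
      rw [Le.apply_symm_apply, hLe1, map_sub]
      simp only [_root_.neg_apply, ContinuousLinearMap.comp_apply, map_neg]
      have h7 : L ((Le.symm : E n →L[ℝ] E n) (T (c - c₀))) = T (c - c₀) := hLe2 _
      rw [h7, hz₀]
      abel
    rw [hid]
    refine (hCs _).trans ?_
    have h8 : ‖(L (p - p₀) + HH p₀ (φ c)) - (HH p₀ (φ c) - HH p₀ (φ c₀) - T (c - c₀))‖ ≤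
        Ks * (B * ‖c - c₀‖) * ‖p - p₀‖ + ε₂ * ‖c - c₀‖ := by
      refine (norm_sub_le _ _).trans (add_le_add ?_ hcT)
      have h9 : ‖L (p - p₀) + HH p₀ (φ c)‖ = ‖-HH p₀ (φ c) - L (p - p₀)‖ := by
        rw [← norm_neg]
        congr 1
        abel
      rw [h9]
      exact hst'
    have h10 : ‖c - c₀‖ * (2 * Cs * (Ks * B * (K * K₀) + 1)) ≤ ε := by
      have h11 := (hcb.trans_le (min_le_right _ _)).le
      rwa [le_div_iff₀ (by positivity)] at h11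
    have h12 : Ks * (B * ‖c - c₀‖) * ‖p - p₀‖ ≤ Ks * B * (K * K₀) * ‖c - c₀‖ * ‖c - c₀‖ := by
      calc Ks * (B * ‖c - c₀‖) * ‖p - p₀‖ ≤ Ks * (B * ‖c - c₀‖) * (K * (K₀ * ‖c - c₀‖)) := by
            gcongr
        _ = _ := by ring
    have h13 : Cs * (Ks * B * (K * K₀) * ‖c - c₀‖) ≤ ε / 2 := by
      have h14 : 0 ≤ ‖c - c₀‖ * Cs := by positivity
      nlinarith
    calc Cs * ‖(L (p - p₀) + HH p₀ (φ c)) - (HH p₀ (φ c) - HH p₀ (φ c₀) - T (c - c₀))‖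
        ≤ Cs * (Ks * B * (K * K₀) * ‖c - c₀‖ * ‖c - c₀‖ + ε₂ * ‖c - c₀‖) := by
          gcongr
          exact h8.trans (by linarith)
      _ = (Cs * (Ks * B * (K * K₀) * ‖c - c₀‖) + Cs * ε₂) * ‖c - c₀‖ := by ring
      _ ≤ (ε / 2 + Cs * ε₂) * ‖c - c₀‖ := by gcongr
      _ = ε * ‖c - c₀‖ := by
          rw [hε₂]
          field_simp
          ring
  · have h6 : L.comp (-((Le.symm : E n →L[ℝ] E n).comp T)) = -T := by
      ext v
      simp only [ContinuousLinearMap.comp_apply, _root_.neg_apply, map_neg]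
      have h7 : L ((Le.symm : E n →L[ℝ] E n) (T v)) = T v := hLe2 _
      rw [h7]
    rw [Pool.Agent.Q188.FC.Bet.CF.det_neg_comp _ T L hL0 h6, div_le_iff₀ (abs_pos.2 hL0)]
    calc |T.det| ≤ (lf p₀)⁻¹ * |L.det| * √G.det := hdet
      _ = _ := by ring

theorem meas_s {κ ρ : ℝ} (h : Par n κ ρ) {U : Set (E n)} {φ : E n → E n → ℝ}
    (hφ : LF κ ρ U φ) {D : Set (E n)} (hD : MeasurableSet D) (hDU : D ⊆ U) :
    MeasurableSet {c | c ∈ D ∧ ∃ p : E n, ‖p‖ < ρ ∧ HH p (φ c) = 0} := by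
  obtain ⟨hcc, hloc⟩ := hφ
  set A : ℕ → Set (E n) := fun k =>
    {c | ∃ p : E n, ‖p‖ ≤ ρ - 1 / ((k : ℝ) + 1) ∧ HH p (φ c) = 0} with hA
  have hset : {c | c ∈ D ∧ ∃ p : E n, ‖p‖ < ρ ∧ HH p (φ c) = 0} =
      ⋃ k, D ∩ closure (A k ∩ U) := by
    ext c
    rw [mem_iUnion]
    constructor
    · rintro ⟨hcD, p, hp, hz⟩
      obtain ⟨k, hk⟩ := exists_nat_one_div_lt (show 0 < ρ - ‖p‖ by linarith)
      exact ⟨k, hcD, subset_closure ⟨⟨p, by linarith, hz⟩, hDU hcD⟩⟩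
    · rintro ⟨k, hcD, hcl⟩
      refine ⟨hcD, ?_⟩
      obtain ⟨x, hx, hxc⟩ := mem_closure_iff_seq_limit.1 hcl
      choose p hp hz using fun j => (hx j).1
      set ρ' : ℝ := ρ - 1 / ((k : ℝ) + 1) with hρ
      have hρ1 : ρ' < ρ := by
        rw [hρ]
        have : 0 < 1 / ((k : ℝ) + 1) := by positivity
        linarith
      obtain ⟨q, hq, θ, hθ, hlim⟩ := (isCompact_closedBall (0 : E n) ρ').tendsto_subseq
        (x := p) (fun j => mem_closedBall_zero_iff.2 (hp j))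
      rw [mem_closedBall_zero_iff] at hq
      refine ⟨q, by linarith, ?_⟩
      obtain ⟨K, hK, hKl⟩ := HH_lip (n := n) h.r0.le h.r1
      obtain ⟨r, K', hr, hK', hb, hl⟩ := hloc c (hDU hcD)
      have hL := HH_hasFDerivAt h.r0.le h.r1 (show ‖q‖ < ρ by linarith) (ck_bd h.r1.le (hcc c))
      have t1 : Tendsto (fun j => HH (p (θ j)) (φ c)) atTop (𝓝 (HH q (φ c))) :=
        hL.continuousAt.tendsto.comp hlim
      have t2 : Tendsto (fun j => HH (p (θ j)) (φ c)) atTop (𝓝 0) := by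
        have hxθ : Tendsto (fun j => x (θ j)) atTop (𝓝 c) := hxc.comp hθ.tendsto_atTop
        have t3 : Tendsto (fun j => K * (K' * ‖c - x (θ j)‖)) atTop (𝓝 0) := by
          have t4 : Tendsto (fun j => c - x (θ j)) atTop (𝓝 (c - c)) :=
            tendsto_const_nhds.sub hxθ
          rw [sub_self] at t4
          have t5 := t4.norm
          rw [norm_zero] at t5
          have t6 := (t5.const_mul K').const_mul K
          simpa using t6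
        refine squeeze_zero_norm' ?_ t3
        have hev : ∀ᶠ j in atTop, x (θ j) ∈ ball c r := hxθ.eventually (ball_mem_nhds c hr)
        filter_upwards [hev] with j hj
        have h3 := hKl (p (θ j)) (φ c) (φ (x (θ j))) (K' * ‖c - x (θ j)‖)
          ((hp (θ j)).trans hρ1.le) (ck_bd h.r1.le (hcc _)) (ck_bd h.r1.le (hcc _))
          (by positivity) (hl c (mem_ball_self hr) _ hj)
        rw [hz (θ j), sub_zero] at h3
        exact h3
      exact tendsto_nhds_unique t1 t2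
  rw [hset]
  exact MeasurableSet.iUnion fun k => hD.inter isClosed_closure.measurableSet

/-- the estimate in one chart -/
theorem chart_area {κ ρ : ℝ} (h : Par n κ ρ) {U : Set (E n)} {φ : E n → E n → ℝ}
    (hφ : LF κ ρ U φ) {G : E n → Matrix (Fin n) (Fin n) ℝ} (hG : ∀ c ∈ U, (G c).PosDef)
    (hae : ∀ᵐ c ∂(volume : Measure (E n)), c ∈ U → ∃ D, GoodD φ c (G c) D)
    {D : Set (E n)} (hD : MeasurableSet D) (hDU : D ⊆ U) {s : Set (E n)} {f : E n → E n}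
    (hs : s = {c | c ∈ D ∧ ∃ p : E n, ‖p‖ < ρ ∧ HH p (φ c) = 0})
    (hf : ∀ c ∈ s, ‖f c‖ < ρ ∧ HH (f c) (φ c) = 0) :
    ∫⁻ p in f '' s, ENNReal.ofReal (lf p) ≤ ∫⁻ c in D, ENNReal.ofReal √(G c).det := by
  have hsm : MeasurableSet s := by
    rw [hs]
    exact meas_s h hφ hD hDU
  have hsD : s ⊆ D := by
    rw [hs]
    exact fun c hc => hc.1
  have hsU : s ⊆ U := hsD.trans hDU
  set N : Set (E n) := toMeasurable volume {c | ¬ (c ∈ U → ∃ D, GoodD φ c (G c) D)} with hN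
  have hN0 : volume N = 0 := by
    rw [hN, measure_toMeasurable]
    exact hae
  have hNm : MeasurableSet N := measurableSet_toMeasurable _ _
  have hgood : ∀ c ∈ s \ N, ∃ D, GoodD φ c (G c) D := by
    intro c hc
    by_contra hcon
    apply hc.2
    apply subset_toMeasurable
    intro hh
    exact hcon (hh (hsU hc.1))
  have hder : ∀ c : E n, ∃ f' : E n →L[ℝ] E n, c ∈ s \ N → HasFDerivWithinAt f f' (s \ N) c ∧
      |f'.det| ≤ (lf (f c))⁻¹ * √(G c).det := by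
    intro c
    by_cases hc : c ∈ s \ N
    · obtain ⟨f', h6, h7⟩ := center_diff h hφ hsU hf hc.1 (hG c (hsU hc.1)) (hgood c hc)
      exact ⟨f', fun _ => ⟨h6.mono sdiff_subset, h7⟩⟩
    · exact ⟨0, fun h => absurd h hc⟩
  choose f' hf' using hder
  have hA := wa n (s \ N) f f' (hsm.diff hNm) (fun x hx => (hf' x hx).1)
    (fun p => ENNReal.ofReal (lf p)) (Pool.Agent.Q188.FC.Bet.CA.lf_measurable n)
  have hnull : volume (f '' (s ∩ N)) = 0 := by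
    refine nl n s f ?_ (s ∩ N) inter_subset_left (measure_mono_null inter_subset_right hN0)
    exact center_lip h hφ hsU hf
  have hsub : f '' s ⊆ f '' (s \ N) ∪ f '' (s ∩ N) := by
    rintro _ ⟨x, hx, rfl⟩
    by_cases hxN : x ∈ N
    · exact Or.inr ⟨x, ⟨hx, hxN⟩, rfl⟩
    · exact Or.inl ⟨x, ⟨hx, hxN⟩, rfl⟩
  have hpt : ∀ x ∈ s \ N, ENNReal.ofReal |(f' x).det| * ENNReal.ofReal (lf (f x)) ≤
      ENNReal.ofReal √(G x).det := by
    intro x hx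
    have hlf : 0 < lf (f x) := by
      have h1 := (bst (lt_trans (hf x hx.1).1 h.r1)).1
      linarith
    rw [← ENNReal.ofReal_mul (abs_nonneg _)]
    refine ENNReal.ofReal_le_ofReal ?_
    calc |(f' x).det| * lf (f x) ≤ (lf (f x))⁻¹ * √(G x).det * lf (f x) :=
          mul_le_mul_of_nonneg_right (hf' x hx).2 hlf.le
      _ = √(G x).det := by
          field_simp
  calc ∫⁻ p in f '' s, ENNReal.ofReal (lf p)
      ≤ ∫⁻ p in f '' (s \ N) ∪ f '' (s ∩ N), ENNReal.ofReal (lf p) := lintegral_mono_set hsub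
    _ ≤ (∫⁻ p in f '' (s \ N), ENNReal.ofReal (lf p)) +
        ∫⁻ p in f '' (s ∩ N), ENNReal.ofReal (lf p) := lintegral_union_le _ _ _
    _ = ∫⁻ p in f '' (s \ N), ENNReal.ofReal (lf p) := by
        rw [setLIntegral_measure_zero _ _ hnull, add_zero]
    _ ≤ ∫⁻ x in s \ N, ENNReal.ofReal |(f' x).det| * ENNReal.ofReal (lf (f x)) := hA
    _ ≤ ∫⁻ x in s \ N, ENNReal.ofReal √(G x).det :=
        setLIntegral_mono' (hsm.diff hNm) hpt
    _ ≤ ∫⁻ x in D, ENNReal.ofReal √(G x).det :=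
        lintegral_mono_set (sdiff_subset.trans hsD)

end Pool.Agent.Q183.CN
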