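import Pool.Agent.Q183.CN.J
import Pool.Agent.H241R3.FV.TPolar
import Pool.Agent.H241R3.FV.TInv

/-!
# The volume of a ball in the sphere
-/

set_option autoImplicit false

open MeasureTheory Metric Set Filter Topology InnerProductGeometry

namespace Pool.Agent.Q183.CN

open Pool.Agent.H241R3.FV (Sph sig om rot)
open Pool.Agent.H241R3.FV.TPolar (stepA stepB stepC stepD J_ne phi)
open Pool.Agent.W716.FV (E)
open Pool.Agent.Q188.FC (lf)

/-- the radial profile -/
noncomputable def hp (ρ r : ℝ) : ℝ := if r < ρ then (√(1 - r ^ 2))⁻¹ else 0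

theorem hp_nonneg (ρ r : ℝ) : 0 ≤ hp ρ r := by
  unfold hp
  split_ifs
  · positivity
  · exact le_rfl

theorem hp_meas (ρ : ℝ) : Measurable (hp ρ) := by
  unfold hp
  exact Measurable.ite measurableSet_Iio (by fun_prop) measurable_const

theorem radial_eq (d : ℕ) {R : ℝ} (hR0 : 0 < R) (hR1 : R < Real.pi / 2) :
    IntegrableOn (fun r : ℝ => r ^ d * hp (Real.sin R) r) (Ioi 0) ∧
    ∫ r in Ioi (0 : ℝ), r ^ d * hp (Real.sin R) r = ∫ t in (0 : ℝ)..R, Real.sin t ^ d := by
  set ρ := Real.sin R with hρ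
  have hρ0 : 0 < ρ := Real.sin_pos_of_pos_of_lt_pi hR0 (by linarith [Real.pi_pos])
  have hcos : ∀ t ∈ Icc (0 : ℝ) R, 0 < Real.cos t := fun t ht =>
    Real.cos_pos_of_mem_Ioo ⟨by linarith [ht.1, Real.pi_pos], by linarith [ht.2]⟩
  have hρ1 : ρ < 1 := by
    have h1 := Real.sin_sq_add_cos_sq R
    have h2 := hcos R ⟨hR0.le, le_rfl⟩
    nlinarith
  have hgc : ContinuousOn (fun r : ℝ => r ^ d * (√(1 - r ^ 2))⁻¹) (Icc 0 ρ) := by
    refine (continuous_pow d).continuousOn.mul (ContinuousOn.inv₀ (by fun_prop) fun r hr => ?_)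
    have : 0 < 1 - r ^ 2 := by nlinarith [hr.1, hr.2]
    exact (Real.sqrt_pos.2 this).ne'
  have hsub : ∫ t in (0 : ℝ)..R, Real.sin t ^ d = ∫ r in (0 : ℝ)..ρ, r ^ d * (√(1 - r ^ 2))⁻¹ := by
    have h1 := intervalIntegral.integral_comp_mul_deriv'' (a := 0) (b := R) (f := Real.sin)
      (f' := Real.cos) (g := fun r : ℝ => r ^ d * (√(1 - r ^ 2))⁻¹) Real.continuous_sin.continuousOn
      (fun x _ => (Real.hasDerivAt_sin x).hasDerivWithinAt) Real.continuous_cos.continuousOn
      (by
        refine hgc.mono ?_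
        rintro _ ⟨t, ht, rfl⟩
        rw [uIcc_of_le hR0.le] at ht
        refine ⟨Real.sin_nonneg_of_nonneg_of_le_pi ht.1 (by linarith [ht.2, Real.pi_pos]), ?_⟩
        exact Real.sin_le_sin_of_le_of_le_pi_div_two (by linarith [ht.1, Real.pi_pos]) hR1.le ht.2)
    rw [Real.sin_zero] at h1
    rw [← h1]
    refine intervalIntegral.integral_congr fun t ht => ?_
    rw [uIcc_of_le hR0.le] at ht
    simp only [Function.comp]
    have h2 := hcos t ht
    have h3 : √(1 - Real.sin t ^ 2) = Real.cos t := by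
      rw [← Real.cos_sq', Real.sqrt_sq h2.le]
    rw [h3, mul_assoc, inv_mul_cancel₀ h2.ne', mul_one]
  have hind : ∀ r : ℝ, r ^ d * hp ρ r = (Iio ρ).indicator (fun r => r ^ d * (√(1 - r ^ 2))⁻¹) r := by
    intro r
    unfold hp
    by_cases hr : r < ρ
    · rw [indicator_of_mem (by exact hr), if_pos hr]
    · rw [indicator_of_notMem (by exact hr), if_neg hr, mul_zero]
  have hintv : IntegrableOn (fun r : ℝ => r ^ d * (√(1 - r ^ 2))⁻¹) (Ioo 0 ρ) :=
    (hgc.integrableOn_Icc).mono_set Ioo_subset_Icc_self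
  constructor
  · simp only [hind]
    rw [integrableOn_indicator_iff measurableSet_Iio, inter_comm, Ioi_inter_Iio]
    exact hintv
  · simp only [hind]
    rw [setIntegral_indicator measurableSet_Iio, Ioi_inter_Iio, hsub,
      intervalIntegral.integral_of_le hρ0.le, integral_Ioc_eq_integral_Ioo]

/-- the weighted volume of the ball of radius `sin R` -/
theorem ball_lf (d : ℕ) {R : ℝ} (hR0 : 0 < R) (hR1 : R < Real.pi / 2) :
    ∫⁻ p in ball (0 : E (d + 1)) (Real.sin R), ENNReal.ofReal (lf p) =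
      ENNReal.ofReal ((d + 1 : ℕ) * om (d + 1) * ∫ t in (0 : ℝ)..R, Real.sin t ^ d) := by
  set ρ := Real.sin R with hρ
  obtain ⟨h1, h2⟩ := radial_eq d hR0 hR1
  rw [← hρ] at h1 h2
  have hne : Nontrivial (E (d + 1)) := inferInstance
  have hdim : Module.finrank ℝ (E (d + 1)) = d + 1 := by simp
  have hint2 : Integrable (fun p : E (d + 1) => hp ρ ‖p‖) := by
    refine (integrable_fun_norm_addHaar (volume : Measure (E (d + 1))) (f := hp ρ)).2 ?_
    rw [hdim]
    exact h1
  have hpol := integral_fun_norm_addHaar (volume : Measure (E (d + 1))) (hp ρ)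
  rw [hdim] at hpol
  simp only [smul_eq_mul, Nat.add_sub_cancel] at hpol
  rw [h2] at hpol
  have hL : ∫⁻ p in ball (0 : E (d + 1)) ρ, ENNReal.ofReal (lf p) =
      ∫⁻ p : E (d + 1), ENNReal.ofReal (hp ρ ‖p‖) := by
    rw [← lintegral_indicator measurableSet_ball]
    refine lintegral_congr fun p => ?_
    by_cases hp' : ‖p‖ < ρ
    · rw [indicator_of_mem (by rwa [mem_ball_zero_iff]), hp, if_pos hp']
      rfl
    · rw [indicator_of_notMem (by rwa [mem_ball_zero_iff]), hp, if_neg hp', ENNReal.ofReal_zero]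
  rw [hL, ← ofReal_integral_eq_lintegral_ofReal hint2
    (Filter.Eventually.of_forall fun p => hp_nonneg _ _), hpol, nsmul_eq_mul]
  congr 1
  rw [mul_assoc]
  rfl

/-- the volume of a ball in the sphere with a special centre -/
theorem cap_sig0 (d : ℕ) {R : ℝ} (hR0 : 0 ≤ R) (hR1 : R ≤ Real.pi) :
    sig (d + 2) {x : Sph (d + 2) | angle (x : E (d + 2)) (EuclideanSpace.single 0 1) ≤ R} =
      ENNReal.ofReal ((d + 1 : ℕ) * om (d + 1) * ∫ t in (0 : ℝ)..R, Real.sin t ^ d) := by
  set h : ℝ → ℝ := fun t => if t ≤ R then 1 else 0 with hh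
  have hm : Measurable h := Measurable.ite measurableSet_Iic measurable_const measurable_const
  have hF : Measurable fun c => h (Real.arccos c) := hm.comp Real.continuous_arccos.measurable
  have hC : ∀ c, |h (Real.arccos c)| ≤ 1 := by
    intro c
    rw [hh]
    simp only
    split_ifs <;> norm_num
  have hA := stepA (d + 1) (fun c => h (Real.arccos c))
  have hB := stepB (d + 1) hF hC
  have hCC := stepC (d + 1) (Nat.succ_pos d) hF hC
  have hD := stepD (d + 1) (Nat.succ_pos d) h
  have hJ := J_ne (d + 1)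
  have hang : ∀ x : Sph (d + 2), angle (x : E (d + 2)) (EuclideanSpace.single 0 1) =
      Real.arccos ((x : E (d + 2)) 0) := by
    intro x
    unfold InnerProductGeometry.angle
    have hx : ‖(x : E (d + 2))‖ = 1 := by simp
    rw [hx, EuclideanSpace.inner_single_right]
    simp
  have key : ∫ x : Sph (d + 2), h (Real.arccos ((x : E (d + 2)) 0)) ∂(sig (d + 2)) =
      (d + 1 : ℕ) * om (d + 1) * ∫ t in (0 : ℝ)..Real.pi, h t * Real.sin t ^ d := by
    refine mul_right_cancel₀ hJ ?_
    rw [← hA, hB, hCC, hD]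
    simp only [Nat.add_sub_cancel]
    ring
  set S : Set (Sph (d + 2)) := {x | angle (x : E (d + 2)) (EuclideanSpace.single 0 1) ≤ R} with hS
  have hSm : MeasurableSet S := by
    have h1 : S = (fun x : Sph (d + 2) => Real.arccos ((x : E (d + 2)) 0)) ⁻¹' Iic R := by
      ext x
      rw [hS, mem_preimage, mem_Iic]
      exact (hang x) ▸ Iff.rfl
    rw [h1]
    refine measurableSet_preimage ?_ measurableSet_Iic
    exact (Real.continuous_arccos.comp (by fun_prop)).measurable
  have e1 : ∫ x : Sph (d + 2), h (Real.arccos ((x : E (d + 2)) 0)) ∂(sig (d + 2)) =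
      (sig (d + 2)).real S := by
    have h2 : ∀ x : Sph (d + 2), h (Real.arccos ((x : E (d + 2)) 0)) = S.indicator 1 x := by
      intro x
      by_cases hx : x ∈ S
      · rw [indicator_of_mem hx, Pi.one_apply, hh]
        simp only
        rw [if_pos]
        rw [← hang]
        exact hx
      · rw [indicator_of_notMem hx, hh]
        simp only
        rw [if_neg]
        rw [← hang]
        exact hx
    simp only [h2]
    rw [integral_indicator_one hSm]
  have e2 : ∫ t in (0 : ℝ)..Real.pi, h t * Real.sin t ^ d = ∫ t in (0 : ℝ)..R, Real.sin t ^ d := by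
    rw [intervalIntegral.integral_of_le Real.pi_pos.le, intervalIntegral.integral_of_le hR0]
    have h2 : ∀ t : ℝ, h t * Real.sin t ^ d = (Iic R).indicator (fun t => Real.sin t ^ d) t := by
      intro t
      by_cases ht : t ≤ R
      · rw [indicator_of_mem (by exact ht), hh]
        simp only
        rw [if_pos ht, one_mul]
      · rw [indicator_of_notMem (by exact ht), hh]
        simp only
        rw [if_neg ht, zero_mul]
    simp only [h2]
    rw [setIntegral_indicator measurableSet_Iic, Ioc_inter_Iic, min_eq_right hR1]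
  rw [e1, e2] at key
  have hfin : sig (d + 2) S ≠ ⊤ := measure_ne_top _ _
  rw [← key, Measure.real, ENNReal.ofReal_toReal hfin]

/-- the volume of a ball in the sphere -/
theorem cap_sig (d : ℕ) {R : ℝ} (hR0 : 0 ≤ R) (hR1 : R ≤ Real.pi) {c : E (d + 2)}
    (hc : ‖c‖ = 1) : sig (d + 2) {x : Sph (d + 2) | angle (x : E (d + 2)) c ≤ R} =
      ENNReal.ofReal ((d + 1 : ℕ) * om (d + 1) * ∫ t in (0 : ℝ)..R, Real.sin t ^ d) := by
  set e0 : E (d + 2) := EuclideanSpace.single 0 1 with he0
  have he : ‖e0‖ = 1 := by rw [he0]; simp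
  set T : E (d + 2) ≃ₗᵢ[ℝ] E (d + 2) := Submodule.reflection (ℝ ∙ (e0 - c))ᗮ with hT
  have hTe : T e0 = c := Submodule.reflection_sub (by rw [he, hc])
  have hmp := Pool.Agent.H241R3.FV.TInv.taskInv (d + 2) (Nat.succ_pos _) T
  rw [← cap_sig0 d hR0 hR1]
  have hcl : ∀ v : E (d + 2), v ≠ 0 →
      MeasurableSet {x : Sph (d + 2) | angle (x : E (d + 2)) v ≤ R} := by
    intro v hv
    have h1 : ContinuousOn (fun x : Sph (d + 2) => angle (x : E (d + 2)) v) univ := by
      intro x _
      have hx0 : (x : E (d + 2)) ≠ 0 := by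
        intro h0
        have := Pool.Agent.H241R3.FV.norm_sph x
        rw [h0, norm_zero] at this
        exact zero_ne_one this
      have h2 := continuousAt_angle (x := ((x : E (d + 2)), v)) hx0 hv
      have h3 : ContinuousAt (fun x : Sph (d + 2) => ((x : E (d + 2)), v)) x := by fun_prop
      exact (ContinuousAt.comp (f := fun x : Sph (d + 2) => ((x : E (d + 2)), v)) h2
        h3).continuousWithinAt
    have h4 : Continuous (fun x : Sph (d + 2) => angle (x : E (d + 2)) v) :=
      continuousOn_univ.1 h1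
    exact measurableSet_le h4.measurable measurable_const
  have hc0 : c ≠ 0 := by
    rw [← norm_ne_zero_iff, hc]
    exact one_ne_zero
  rw [← hmp.measure_preimage (hcl c hc0).nullMeasurableSet]
  congr 1
  ext x
  have h5 : (rot T x : E (d + 2)) = T (x : E (d + 2)) := rfl
  show angle (rot T x : E (d + 2)) c ≤ R ↔ _
  have h6 : angle (T (x : E (d + 2))) (T e0) = angle (x : E (d + 2)) e0 :=
    T.toLinearIsometry.angle_map _ _
  rw [h5, ← hTe, h6]
  rfl

end Pool.Agent.Q183.CN
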